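import Pool.Agent.KS6_30.VB.CR
import Pool.Agent.KS6_30.VB.EQU
import Pool.Agent.KS6_30.VA.Tl

/-!
# The pairs `(g, x)`
-/

set_option autoImplicit false
set_option linter.unusedSectionVars false

namespace Pool.Agent.KS6_30.VB

open Filter Topology MeasureTheory Pool.Agent.KS6_30.VA Finset
open Pool.Agent.KS6_30.VA.Tern

variable [Tern]

/-- the pairs `(g, x)` with `g` of size `√T`, and `x` on the cone modulo `g` -/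
def EE (δ A T : ℝ) : Set (ℕ × (Fin 5 → ℤ)) :=
  {z | 0 < z.1 ∧ δ * √T ≤ z.1 ∧ (z.1 : ℝ) ≤ A * √T ∧ nz z.2 ≤ A ^ 2 * √T ∧ mm z.2 ≠ 0 ∧
    red z.1 z.2 ∈ CC z.1}

/-- the constant of the boxes -/
noncomputable def BX : ℝ := (box : S_BOX).choose

theorem BX_pos : 0 < BX := (box : S_BOX).choose_spec.1

theorem box' (q : ℕ) (hq : 0 < q) (a : Fin 5 → ℝ) (L : ℝ) (hL : 0 ≤ L) :
    {x : Fin 5 → ℤ | (∀ i, |(x i : ℝ) - a i| ≤ L) ∧ red q x ∈ CC q}.Finite ∧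
    ({x : Fin 5 → ℤ | (∀ i, |(x i : ℝ) - a i| ≤ L) ∧ red q x ∈ CC q}.ncard : ℝ) ≤
      BX * ((2 * L / q + 2) ^ 5 * (q : ℝ) ^ 3) := (box : S_BOX).choose_spec.2 q hq a L hL

theorem EE_count (δ A T : ℝ) (hδ : 0 < δ) (hA : 0 < A) (hT : 0 < T) (N : ℕ) (hN : 0 < N) :
    {z ∈ EE δ A T | N ∣ z.1}.Finite ∧
    ({z ∈ EE δ A T | N ∣ z.1}.ncard : ℝ) ≤ BX * ((2 * A ^ 2 / δ + 2) ^ 5 * A ^ 4) * T ^ 2 / N := by
  classical
  have hBX := BX_pos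
  have hs : 0 < √T := Real.sqrt_pos.mpr hT
  have hs2 : √T ^ 2 = T := Real.sq_sqrt hT.le
  set Γ : Finset ℕ := (Finset.Ioc 0 ⌊A * √T⌋₊).filter (fun g => N ∣ g ∧ δ * √T ≤ g) with hΓ
  set Bx : ℕ → Set (Fin 5 → ℤ) := fun g =>
    {x : Fin 5 → ℤ | (∀ i, |(x i : ℝ) - (fun _ => (0 : ℝ)) i| ≤ A ^ 2 * √T) ∧ red g x ∈ CC g} with hBx
  have hsub : {z ∈ EE δ A T | N ∣ z.1} ⊆ ⋃ g ∈ Γ, (Prod.mk g) '' (Bx g) := by
    rintro ⟨g, x⟩ ⟨⟨h1, h2, h3, h4, h5, h6⟩, h7⟩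
    simp only at h1 h2 h3 h4 h5 h6 h7
    rw [Set.mem_iUnion₂]
    refine ⟨g, ?_, x, ?_, rfl⟩
    · rw [hΓ, Finset.mem_filter, Finset.mem_Ioc]
      exact ⟨⟨h1, Nat.le_floor h3⟩, h7, h2⟩
    · refine ⟨fun i => ?_, h6⟩
      rw [sub_zero]
      exact (le_nz x i).trans h4
  have hbox : ∀ g ∈ Γ, (Bx g).Finite ∧ ((Bx g).ncard : ℝ) ≤ BX * ((2 * A ^ 2 / δ + 2) ^ 5 * (A * √T) ^ 3) := by
    intro g hg
    rw [hΓ, Finset.mem_filter, Finset.mem_Ioc] at hg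
    obtain ⟨⟨hg0, hg1⟩, -, hg2⟩ := hg
    have hg0' : (0 : ℝ) < g := by exact_mod_cast hg0
    have h := box' g hg0 (fun _ => 0) (A ^ 2 * √T) (by positivity)
    refine ⟨h.1, h.2.trans ?_⟩
    have h8 : 2 * (A ^ 2 * √T) / g ≤ 2 * A ^ 2 / δ := by
      rw [div_le_div_iff₀ hg0' hδ]
      nlinarith [mul_le_mul_of_nonneg_left hg2 (by positivity : (0 : ℝ) ≤ 2 * A ^ 2)]
    have h9 : (g : ℝ) ≤ A * √T := by
      have : (g : ℝ) ≤ ⌊A * √T⌋₊ := by exact_mod_cast hg1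
      exact this.trans (Nat.floor_le (by positivity))
    gcongr
  have hfin : (⋃ g ∈ Γ, (Prod.mk g) '' (Bx g)).Finite := by
    apply Set.Finite.biUnion Γ.finite_toSet
    intro g hg
    exact (hbox g hg).1.image _
  refine ⟨hfin.subset hsub, ?_⟩
  have h1 : ({z ∈ EE δ A T | N ∣ z.1}.ncard : ℝ) ≤ ∑ g ∈ Γ, ((Bx g).ncard : ℝ) := by
    have h2 := (Set.ncard_le_ncard hsub hfin).trans (Finset.set_ncard_biUnion_le Γ _)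
    have h3 : ∑ g ∈ Γ, ((Prod.mk g) '' (Bx g)).ncard ≤ ∑ g ∈ Γ, (Bx g).ncard := by
      apply Finset.sum_le_sum
      intro g hg
      exact Set.ncard_image_le (hbox g hg).1
    exact_mod_cast h2.trans h3
  have h4 : ((Γ.card : ℕ) : ℝ) ≤ A * √T / N := by
    have h5 : Γ.card ≤ ⌊A * √T⌋₊ / N := by
      rw [← Nat.Ioc_filter_dvd_card_eq_div]
      apply Finset.card_le_card
      intro g hg
      rw [hΓ, Finset.mem_filter] at hg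
      exact Finset.mem_filter.mpr ⟨hg.1, hg.2.1⟩
    calc (Γ.card : ℝ) ≤ ((⌊A * √T⌋₊ / N : ℕ) : ℝ) := by exact_mod_cast h5
      _ ≤ (⌊A * √T⌋₊ : ℝ) / N := Nat.cast_div_le
      _ ≤ A * √T / N := by
        gcongr
        exact Nat.floor_le (by positivity)
  calc _ ≤ ∑ g ∈ Γ, ((Bx g).ncard : ℝ) := h1
    _ ≤ ∑ g ∈ Γ, BX * ((2 * A ^ 2 / δ + 2) ^ 5 * (A * √T) ^ 3) := Finset.sum_le_sum (fun g hg => (hbox g hg).2)
    _ = Γ.card * (BX * ((2 * A ^ 2 / δ + 2) ^ 5 * (A * √T) ^ 3)) := by rw [Finset.sum_const, nsmul_eq_mul]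
    _ ≤ (A * √T / N) * (BX * ((2 * A ^ 2 / δ + 2) ^ 5 * (A * √T) ^ 3)) := by gcongr
    _ = BX * ((2 * A ^ 2 / δ + 2) ^ 5 * A ^ 4) * (√T ^ 2) ^ 2 / N := by ring
    _ = _ := by rw [hs2]

end Pool.Agent.KS6_30.VB
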