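import Pool.Agent.KS6_30.VB.BLd
import Pool.Agent.KS6_30.VA.Shell

/-!
# Classes of pairs
-/

set_option autoImplicit false
set_option linter.unusedSectionVars false

namespace Pool.Agent.KS6_30.VB

open Filter Topology MeasureTheory Pool.Agent.KS6_30.VA Finset
open Pool.Agent.KS6_30.VA.Tern

variable [Tern]

theorem mm_red (q : ℕ) (x : Fin 5 → ℤ) : mm (red q x) = red q (mm x) := by
  have h : hes (red q x) = red q (hes x) := by
    funext i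
    fin_cases i <;> simp [red, hes]
  rw [mm, h, mm]
  funext p
  simp [wedge, red]

theorem mem_CC_iff (q : ℕ) (x : Fin 5 → ℤ) : red q x ∈ CC q ↔
    (∀ p : ℕ, p.Prime → p ∣ q → ∃ i, ¬ (p : ℤ) ∣ x i) ∧ ∀ r, (q : ℤ) ∣ mm x r := by
  rw [CC, Set.mem_ofPred_eq, red_unimod_iff, mm_red]
  apply and_congr Iff.rfl
  constructor
  · intro h r
    have := congrFun h r
    simp only [red, Pi.zero_apply] at this
    exact (ZMod.intCast_zmod_eq_zero_iff_dvd _ _).mp this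
  · intro h
    funext r
    simp only [red, Pi.zero_apply]
    exact (ZMod.intCast_zmod_eq_zero_iff_dvd _ _).mpr (h r)

theorem mm_congr {Q : ℕ} {x x' : Fin 5 → ℤ} (h : ∀ i, (Q : ℤ) ∣ x i - x' i) (r : Fin 5 × Fin 5) :
    (Q : ℤ) ∣ mm x r - mm x' r := by
  have h1 : red Q x = red Q x' := by
    funext i
    simp only [red]
    rw [← sub_eq_zero, ← Int.cast_sub]
    exact (ZMod.intCast_zmod_eq_zero_iff_dvd _ _).mpr (h i)
  have h2 : red Q (mm x) = red Q (mm x') := by rw [← mm_red, ← mm_red, h1]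
  have h3 := congrFun h2 r
  simp only [red] at h3
  rw [← sub_eq_zero, ← Int.cast_sub] at h3
  exact (ZMod.intCast_zmod_eq_zero_iff_dvd _ _).mp h3

/-- the point of a pair -/
noncomputable def pt (z : ℕ × (Fin 5 → ℤ)) : Fin 5 → ℝ := fun i => (z.2 i : ℝ) / z.1

/-- the class of a pair -/
def cl (L Q : ℕ) (z : ℕ × (Fin 5 → ℤ)) : ℕ × (Fin 5 → ℤ) := (Nat.gcd z.1 L, fun i => z.2 i % Q)

structure Ctx (k Z L Q : ℕ) : Prop where
  hL : ∀ p : ℕ, p.Prime → p ≤ Z → p ^ k ∣ L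
  hL0 : 0 < L
  hQ0 : 0 < Q
  hLQ : L ∣ Q
  hAQ : AA ∣ Q
  hQ : ∀ p : ℕ, p.Prime → (p ∣ Q ↔ p ≤ Z)

/-- admissible classes -/
structure Gd (k Z L : ℕ) (c : ℕ × (Fin 5 → ℤ)) : Prop where
  dvd : c.1 ∣ L
  pow : ∀ p : ℕ, p.Prime → p ≤ Z → ¬ p ^ k ∣ c.1
  uni : ∀ p : ℕ, p.Prime → p ≤ Z → ∃ i, ¬ (p : ℤ) ∣ c.2 i
  mmd : ∀ r, (c.1 : ℤ) ∣ mm c.2 r
  mmn : ∀ p : ℕ, p.Prime → p ≤ Z → ∃ r, ¬ ((p * c.1 : ℕ) : ℤ) ∣ mm c.2 r

variable {k Z L Q : ℕ}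

theorem Gd.pos (h : Ctx k Z L Q) {c : ℕ × (Fin 5 → ℤ)} (hc : Gd k Z L c) : 0 < c.1 :=
  Nat.pos_of_dvd_of_pos hc.dvd h.hL0

theorem mul_dvd_L (h : Ctx k Z L Q) {g1 p : ℕ} (hg : g1 ∣ L) (hp : p.Prime) (hpZ : p ≤ Z)
    (hpow : ¬ p ^ k ∣ g1) : p * g1 ∣ L := by
  obtain ⟨h', hh'⟩ := hg
  have h1 := h.hL p hp hpZ
  rw [hh'] at h1 ⊢
  by_cases h2 : p ∣ h'
  · rw [mul_comm p]
    exact mul_dvd_mul_left _ h2
  · exfalso
    apply hpow
    have h3 : Nat.Coprime (p ^ k) h' := Nat.Coprime.pow_left k ((Nat.Prime.coprime_iff_not_dvd hp).mpr h2)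
    exact h3.dvd_of_dvd_mul_right h1

theorem gcd_eq_iff (h : Ctx k Z L Q) {c : ℕ × (Fin 5 → ℤ)} (hc : Gd k Z L c) (m : ℕ) (hm : 0 < m) :
    Nat.gcd m L = c.1 ↔ ∃ n, 0 < n ∧ Nat.Coprime n Q ∧ m = c.1 * n := by
  have hc0 := Gd.pos h hc
  constructor
  · intro h1
    obtain ⟨n, hn⟩ : c.1 ∣ m := by rw [← h1]; exact Nat.gcd_dvd_left _ _
    have hn0 : 0 < n := by
      apply Nat.pos_of_ne_zero
      rintro rfl
      omega
    refine ⟨n, hn0, ?_, hn⟩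
    rw [Nat.coprime_iff_gcd_eq_one]
    by_contra hne
    obtain ⟨p, hp, hpd⟩ := Nat.exists_prime_and_dvd hne
    have hpn := hpd.trans (Nat.gcd_dvd_left _ _)
    have hpQ := hpd.trans (Nat.gcd_dvd_right _ _)
    have hpZ := (h.hQ p hp).mp hpQ
    have h2 := mul_dvd_L h hc.dvd hp hpZ (hc.pow p hp hpZ)
    have h3 : p * c.1 ∣ m := by
      rw [hn, mul_comm p]
      exact mul_dvd_mul_left _ hpn
    have h4 := Nat.dvd_gcd h3 h2
    rw [h1] at h4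
    have h5 := Nat.le_of_dvd hc0 h4
    have h6 := hp.two_le
    nlinarith
  · rintro ⟨n, hn0, hn, rfl⟩
    have h1 : Nat.Coprime n L := Nat.Coprime.coprime_dvd_right h.hLQ hn
    rw [Nat.Coprime.gcd_mul_right_cancel _ h1]
    exact Nat.gcd_eq_left hc.dvd

theorem Gd.congr_uni (h : Ctx k Z L Q) {c : ℕ × (Fin 5 → ℤ)} (hc : Gd k Z L c) {x : Fin 5 → ℤ}
    (hx : ∀ i, (Q : ℤ) ∣ x i - c.2 i) (p : ℕ) (hp : p.Prime) (hpZ : p ≤ Z) : ∃ i, ¬ (p : ℤ) ∣ x i := by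
  obtain ⟨i, hi⟩ := hc.uni p hp hpZ
  refine ⟨i, fun hd => hi ?_⟩
  have h1 : (p : ℤ) ∣ (Q : ℤ) := Int.natCast_dvd_natCast.mpr ((h.hQ p hp).mpr hpZ)
  have h2 := h1.trans (hx i)
  have h3 := dvd_sub hd h2
  simpa using h3

theorem Gd.congr_mmd (h : Ctx k Z L Q) {c : ℕ × (Fin 5 → ℤ)} (hc : Gd k Z L c) {x : Fin 5 → ℤ}
    (hx : ∀ i, (Q : ℤ) ∣ x i - c.2 i) (r : Fin 5 × Fin 5) : (c.1 : ℤ) ∣ mm x r := by
  have h1 : (c.1 : ℤ) ∣ (Q : ℤ) := Int.natCast_dvd_natCast.mpr (hc.dvd.trans h.hLQ)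
  have h2 := h1.trans (mm_congr hx r)
  have h3 := dvd_add h2 (hc.mmd r)
  simpa using h3

theorem Gd.congr_mmn (h : Ctx k Z L Q) {c : ℕ × (Fin 5 → ℤ)} (hc : Gd k Z L c) {x : Fin 5 → ℤ}
    (hx : ∀ i, (Q : ℤ) ∣ x i - c.2 i) (p : ℕ) (hp : p.Prime) (hpZ : p ≤ Z) :
    ∃ r, ¬ ((p * c.1 : ℕ) : ℤ) ∣ mm x r := by
  obtain ⟨r, hr⟩ := hc.mmn p hp hpZ
  refine ⟨r, fun hd => hr ?_⟩
  have h1 : ((p * c.1 : ℕ) : ℤ) ∣ (Q : ℤ) :=
    Int.natCast_dvd_natCast.mpr ((mul_dvd_L h hc.dvd hp hpZ (hc.pow p hp hpZ)).trans h.hLQ)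
  have h2 := h1.trans (mm_congr hx r)
  have h3 := dvd_sub hd h2
  simpa using h3

open Classical in
theorem sx_eq' (X : Set (Fin 5 → ℤ)) (q : ℝ) (hq : 0 < q) (F : (Fin 5 → ℝ) → ℝ) (A : ℝ)
    (hA : ∀ u, F u ≠ 0 → ‖u‖ ≤ A) (hA0 : 0 ≤ A) (R : ℝ) (hR : A * q ≤ R) :
    sx X q F = ∑ x ∈ (nz_fin (ι := Fin 5) R).toFinset.filter (fun x => x ∈ X),
      F (fun i => (x i : ℝ) / q) := by
  rw [sx, ← finsum_mem_coe_finset]
  apply finsum_mem_inter_support_eq'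
  intro x hx
  have h1 := hA _ hx
  have h2 : nz x ≤ R := by
    refine le_trans ?_ hR
    rw [nz_le_iff (by positivity)]
    intro i
    have h3 := (norm_le_pi_norm _ i).trans h1
    rw [Real.norm_eq_abs, abs_div, abs_of_pos hq, div_le_iff₀ hq] at h3
    exact h3
  simp only [Finset.coe_filter, Set.Finite.mem_toFinset, Set.mem_ofPred_eq]
  exact ⟨fun h => ⟨h2, h⟩, fun h => h.2⟩

variable {δ A : ℝ} {g : (Fin 5 → ℝ) × ℝ → ℝ}

/-- the pairs in the sums `gs` -/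
noncomputable def Gs (A : ℝ) (Q : ℕ) (ρ : Fin 5 → ℤ) (m : ℕ) (w : ℝ) (T : ℝ) : Finset (ℕ × (Fin 5 → ℤ)) := by
  classical
  exact ((Nn A Q T) ×ˢ (nz_fin (ι := Fin 5) (A * (m * (A * √T) * w))).toFinset).filter
    (fun y => y.2 ∈ XS Q ρ (m * y.1))

theorem gs_pairs (hg : Tf δ A g) (hA : 0 < A) (Q : ℕ) (ρ : Fin 5 → ℤ)
    (m t : ℕ) (hm : 0 < m) (w : ℝ) (hw : 0 < w) (T : ℝ) :
    gs A Q ρ m t w g T = ∑ y ∈ Gs A Q ρ m w T,
      g (fun i => (y.2 i : ℝ) / ((m * y.1 : ℕ) * w), (t * y.1 : ℝ) / √T) := by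
  classical
  have hm' : (0 : ℝ) < m := by exact_mod_cast hm
  rw [gs, Gs, Finset.sum_filter, Finset.sum_product]
  apply Finset.sum_congr rfl
  intro n hn
  obtain ⟨hn0, hn1, hn2⟩ := (mem_Nn A Q T hA n).mp hn
  have hn0' : (0 : ℝ) < n := by exact_mod_cast hn0
  rw [sx_eq' (XS Q ρ (m * n)) ((m * n : ℕ) * w) (by push_cast; positivity) _ A
    (fun u hu => (hg.supp _ _ hu).1) hA.le (A * (m * (A * √T) * w)) (by push_cast; gcongr), Finset.sum_filter]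

theorem mm_pt {z : ℕ × (Fin 5 → ℤ)} (h : mm (pt z) ≠ 0) : mm z.2 ≠ 0 := by
  intro h0
  apply h
  have h1 : pt z = (z.1 : ℝ)⁻¹ • rv z.2 := by
    funext i
    simp only [pt, rv, Pi.smul_apply, smul_eq_mul]
    ring
  rw [h1, mm_smul, ← rv_mm, h0]
  funext r
  simp [rv]

/-- membership in `EE` from the real conditions -/
theorem mem_EE {T : ℝ} (hT : 0 < T) (hA : 0 < A) {z : ℕ × (Fin 5 → ℤ)} (h0 : 0 < z.1) (h1 : ‖pt z‖ ≤ A)
    (h2 : δ ≤ (z.1 : ℝ) / √T) (h3 : (z.1 : ℝ) / √T ≤ A) (h4 : mm (pt z) ≠ 0)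
    (h5 : red z.1 z.2 ∈ CC z.1) : z ∈ EE δ A T := by
  have hsT : 0 < √T := Real.sqrt_pos.mpr hT
  have h0' : (0 : ℝ) < z.1 := by exact_mod_cast h0
  rw [le_div_iff₀ hsT] at h2
  rw [div_le_iff₀ hsT] at h3
  refine ⟨h0, h2, h3, ?_, mm_pt h4, h5⟩
  rw [nz_le_iff (by positivity)]
  intro i
  have h6 := (norm_le_pi_norm _ i).trans h1
  rw [Real.norm_eq_abs, pt, abs_div, abs_of_pos h0', div_le_iff₀ h0'] at h6
  calc |(z.2 i : ℝ)| ≤ A * z.1 := h6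
    _ ≤ A * (A * √T) := by gcongr
    _ = A ^ 2 * √T := by ring

theorem cs_pairs (h : Ctx k Z L Q) {c : ℕ × (Fin 5 → ℤ)} (hc : Gd k Z L c)
    (hcr : ∀ i, c.2 i ∈ Set.Ico (0 : ℤ) Q) (hg : Tf δ A g) (hgm : ∀ u s, g (u, s) ≠ 0 → mm u ≠ 0)
    (hδ : 0 < δ) (hA : 0 < A) (T : ℝ) (hT : 0 < T) [DecidablePred fun z => cl L Q z = c] :
    cs A Q c.2 c.1 g T = ∑ z ∈ (EE_finite δ A T hδ hA hT).toFinset.filter (fun z => cl L Q z = c),
      g (pt z, (z.1 : ℝ) / √T) := by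
  classical
  have hsT : 0 < √T := Real.sqrt_pos.mpr hT
  have hc0 := Gd.pos h hc
  have hc0' : (0 : ℝ) < c.1 := by exact_mod_cast hc0
  have hc1' : (1 : ℝ) ≤ c.1 := by exact_mod_cast hc0
  have hQ0 : (0 : ℤ) < Q := by exact_mod_cast h.hQ0
  rw [cs, gs_pairs hg hA Q c.2 1 c.1 one_pos c.1 hc0' T]
  have hpt : ∀ y : ℕ × (Fin 5 → ℤ), (fun i => (y.2 i : ℝ) / ((1 * y.1 : ℕ) * (c.1 : ℝ))) = pt (c.1 * y.1, y.2) := by
    intro y
    funext i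
    simp only [pt]
    push_cast
    rw [one_mul, mul_comm]
  have hsn : ∀ y : ℕ × (Fin 5 → ℤ), ((c.1 : ℝ) * y.1) / √T = (((c.1 * y.1 : ℕ) : ℝ)) / √T := by
    intro y
    push_cast
    rfl
  apply Finset.sum_bij_ne_zero (fun y _ _ => (c.1 * y.1, y.2))
  · rintro ⟨n, x⟩ hy hne
    rw [Gs, Finset.mem_filter, Finset.mem_product] at hy
    obtain ⟨⟨hn, hx⟩, hxS⟩ := hy
    simp only at hn hx hxS
    obtain ⟨hn0, hn1, hn2⟩ := (mem_Nn A Q T hA n).mp hn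
    rw [hpt, hsn] at hne
    obtain ⟨h1, h2, h3⟩ := hg.supp _ _ hne
    have h4 := hgm _ _ hne
    obtain ⟨hx1, hx2⟩ := hxS
    rw [one_mul] at hx2
    rw [mem_CC_iff] at hx2
    rw [Finset.mem_filter, Set.Finite.mem_toFinset]
    constructor
    · apply mem_EE hT hA (Nat.mul_pos hc0 hn0) h1 h2 h3 h4
      simp only
      rw [mem_CC_iff]
      constructor
      · intro p hp hpd
        rcases (Nat.Prime.dvd_mul hp).mp hpd with h5 | h5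
        · exact hc.congr_uni h hx1 p hp ((h.hQ p hp).mp (h5.trans (hc.dvd.trans h.hLQ)))
        · exact hx2.1 p hp h5
      · intro r
        have h5 := hc.congr_mmd h hx1 r
        have h6 := hx2.2 r
        have h7 : IsCoprime (c.1 : ℤ) (n : ℤ) := by
          rw [Nat.isCoprime_iff_coprime]
          exact (Nat.Coprime.coprime_dvd_right (hc.dvd.trans h.hLQ) hn2).symm
        push_cast
        exact h7.mul_dvd h5 h6
    · rw [cl]
      simp only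
      apply Prod.ext
      · exact (gcd_eq_iff h hc _ (Nat.mul_pos hc0 hn0)).mpr ⟨n, hn0, hn2, rfl⟩
      · funext i
        simp only
        have h5 := hx1 i
        have h6 := hcr i
        rw [Set.mem_Ico] at h6
        have h7 : x i % Q = c.2 i % Q := Int.ModEq.symm (Int.modEq_iff_dvd.mpr h5)
        rw [h7, Int.emod_eq_of_lt h6.1 h6.2]
  · rintro ⟨n, x⟩ _ _ ⟨n', x'⟩ _ _ heq
    simp only [Prod.mk.injEq] at heq
    obtain ⟨h1, h2⟩ := heq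
    rw [Nat.eq_of_mul_eq_mul_left hc0 h1, h2]
  · rintro ⟨m, x⟩ hz hne
    rw [Finset.mem_filter, Set.Finite.mem_toFinset] at hz
    obtain ⟨⟨h1, h2, h3, h4, h5, h6⟩, h7⟩ := hz
    simp only at h1 h2 h3 h4 h5 h6
    rw [cl] at h7
    simp only at h7
    have h8 : Nat.gcd m L = c.1 := congrArg Prod.fst h7
    have h9 : ∀ i, x i % Q = c.2 i := fun i => congrFun (congrArg Prod.snd h7) i
    obtain ⟨n, hn0, hn, rfl⟩ := (gcd_eq_iff h hc m h1).mp h8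
    rw [mem_CC_iff] at h6
    have hmem : (n, x) ∈ Gs A Q c.2 1 c.1 T := by
      rw [Gs, Finset.mem_filter, Finset.mem_product]
      refine ⟨⟨?_, ?_⟩, ?_⟩
      · rw [mem_Nn A Q T hA]
        refine ⟨hn0, ?_, hn⟩
        push_cast at h3
        have : (n : ℝ) ≤ c.1 * n := by
          have : (0 : ℝ) ≤ n := Nat.cast_nonneg n
          nlinarith
        exact this.trans h3
      · rw [Set.Finite.mem_toFinset, Set.mem_ofPred_eq]
        refine h4.trans ?_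
        have : (0 : ℝ) ≤ A * (A * √T) := by positivity
        push_cast
        nlinarith
      · refine ⟨fun i => ?_, ?_⟩
        · rw [← h9 i]
          exact Int.dvd_self_sub_emod
        · rw [one_mul, mem_CC_iff]
          simp only
          refine ⟨fun p hp hpd => h6.1 p hp (hpd.trans (dvd_mul_left _ _)), fun r => ?_⟩
          exact (Int.natCast_dvd_natCast.mpr (dvd_mul_left n c.1)).trans (h6.2 r)
    refine ⟨(n, x), hmem, ?_, rfl⟩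
    rw [hpt, hsn]
    exact hne
  · rintro ⟨n, x⟩ _ _
    rw [hpt, hsn]

end Pool.Agent.KS6_30.VB
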