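import Pool.Agent.KS6_30.VB.BLe

/-!
# The main limit: comparison with the classes
-/

set_option autoImplicit false
set_option linter.unusedSectionVars false

namespace Pool.Agent.KS6_30.VB

open Filter Topology MeasureTheory Pool.Agent.KS6_30.VA Finset
open Pool.Agent.KS6_30.VA.Tern

variable [Tern]

variable {k Z L Q : ℕ} {δ A : ℝ}

/-- the exact pairs -/
def Ex (z : ℕ × (Fin 5 → ℤ)) : Prop := Unimod z.2 ∧ gg z.2 = z.1

theorem pt_exact {z : ℕ × (Fin 5 → ℤ)} (h : Ex z) : pt z = fun i => (z.2 i : ℝ) / gg z.2 := by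
  rw [h.2]; rfl

theorem BS_pairs (G : (Fin 5 → ℝ) × ℝ × ℝ → ℝ) (hδ : 0 < δ) (hA : 0 < A)
    (hG : ∀ z, G z ≠ 0 → ‖z.1‖ ≤ A ∧ δ ≤ ‖mm z.1‖ ∧ δ ≤ z.2.1 ∧ z.2.1 ≤ A)
    (θ : (Fin 5 → ℤ) → ℝ) (T : ℝ) (hT : 0 < T) [DecidablePred Ex] :
    BS G θ T = ∑ z ∈ (EE_finite δ A T hδ hA hT).toFinset.filter Ex,
      G (pt z, (z.1 : ℝ) / √T, θ z.2) := by
  classical
  set t := (EE_finite δ A T hδ hA hT).toFinset.filter Ex with ht
  have h1 : ∑ z ∈ t, G (pt z, (z.1 : ℝ) / √T, θ z.2) =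
      ∑ x ∈ t.image Prod.snd, G (fun i => (x i : ℝ) / gg x, (gg x : ℝ) / √T, θ x) := by
    rw [Finset.sum_image]
    · apply Finset.sum_congr rfl
      intro z hz
      have h2 := (Finset.mem_filter.mp hz).2
      rw [pt_exact h2, h2.2]
    · intro z hz z' hz' heq
      have h2 := (Finset.mem_filter.mp hz).2
      have h3 := (Finset.mem_filter.mp hz').2
      apply Prod.ext
      · rw [← h2.2, ← h3.2, heq]
      · exact heq
  rw [h1, BS, ← finsum_mem_coe_finset]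
  apply finsum_mem_inter_support_eq'
  intro x hx
  obtain ⟨h2, h3, h4, h5⟩ := hG _ hx
  simp only at h2 h3 h4 h5
  rw [Finset.mem_coe, Finset.mem_image, Set.mem_ofPred_eq]
  constructor
  · rintro ⟨h6, h7⟩
    refine ⟨(gg x, x), ?_, rfl⟩
    rw [ht, Finset.mem_filter, Set.Finite.mem_toFinset]
    refine ⟨mem_EE hT hA (gg_pos h7) h2 h4 h5 ?_ (red_mem_CC h6 (dvd_refl _)), h6, rfl⟩
    intro h0
    have h8 : mm (fun i => (x i : ℝ) / gg x) = 0 := h0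
    rw [h8, norm_zero] at h3
    linarith
  · rintro ⟨z, hz, rfl⟩
    rw [ht, Finset.mem_filter, Set.Finite.mem_toFinset] at hz
    exact ⟨hz.2.1, hz.1.2.2.2.2.1⟩

/-- the classes -/
noncomputable def Cc (k Z L Q : ℕ) : Finset (ℕ × (Fin 5 → ℤ)) := by
  classical
  exact (Nat.divisors L ×ˢ Fintype.piFinset (fun _ : Fin 5 => Finset.Ico (0 : ℤ) Q)).filter (Gd k Z L)

theorem mem_Cc (h : Ctx k Z L Q) (c : ℕ × (Fin 5 → ℤ)) :
    c ∈ Cc k Z L Q ↔ Gd k Z L c ∧ ∀ i, c.2 i ∈ Set.Ico (0 : ℤ) Q := by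
  classical
  rw [Cc, Finset.mem_filter, Finset.mem_product, Fintype.mem_piFinset, Nat.mem_divisors]
  constructor
  · rintro ⟨⟨h1, h2⟩, h3⟩
    exact ⟨h3, fun i => by simpa using h2 i⟩
  · rintro ⟨h1, h2⟩
    exact ⟨⟨⟨h1.dvd, h.hL0.ne'⟩, fun i => by simpa using h2 i⟩, h1⟩

theorem cl_mem_iff (h : Ctx k Z L Q) (z : ℕ × (Fin 5 → ℤ)) :
    cl L Q z ∈ Cc k Z L Q ↔ Gd k Z L (cl L Q z) := by
  rw [mem_Cc h]
  have hQ0 : (0 : ℤ) < Q := by exact_mod_cast h.hQ0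
  constructor
  · exact fun h1 => h1.1
  · intro h1
    refine ⟨h1, fun i => ?_⟩
    rw [cl, Set.mem_Ico]
    exact ⟨Int.emod_nonneg _ hQ0.ne', Int.emod_lt_of_pos _ hQ0⟩

theorem cl_congr (z : ℕ × (Fin 5 → ℤ)) (i : Fin 5) : (Q : ℤ) ∣ z.2 i - (cl L Q z).2 i := by
  rw [cl]
  exact Int.dvd_self_sub_emod

/-- exact pairs are in an admissible class, except for those with a prime power -/
theorem exact_good (h : Ctx k Z L Q) {z : ℕ × (Fin 5 → ℤ)} (hz : Ex z)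
    (hk : ∀ p : ℕ, p.Prime → p ≤ Z → ¬ p ^ k ∣ z.1) : Gd k Z L (cl L Q z) := by
  have hg0 : (cl L Q z).1 ∣ z.1 := Nat.gcd_dvd_left _ _
  have hgL : (cl L Q z).1 ∣ L := Nat.gcd_dvd_right _ _
  have hpow : ∀ p : ℕ, p.Prime → p ≤ Z → ¬ p ^ k ∣ (cl L Q z).1 :=
    fun p hp hpZ hd => hk p hp hpZ (hd.trans hg0)
  have hc := cl_congr (L := L) (Q := Q) z
  have hcpos : 0 < (cl L Q z).1 := Nat.pos_of_dvd_of_pos hgL h.hL0
  refine ⟨hgL, hpow, ?_, ?_, ?_⟩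
  · intro p hp hpZ
    obtain ⟨i, hi⟩ := (unimod_int_iff _).mp hz.1 p hp
    refine ⟨i, fun hd => hi ?_⟩
    have h1 : (p : ℤ) ∣ (Q : ℤ) := Int.natCast_dvd_natCast.mpr ((h.hQ p hp).mpr hpZ)
    have h3 := dvd_add (h1.trans (hc i)) hd
    simpa using h3
  · intro r
    have h1 : ((cl L Q z).1 : ℤ) ∣ (Q : ℤ) := Int.natCast_dvd_natCast.mpr (hgL.trans h.hLQ)
    have h2 := h1.trans (mm_congr hc r)
    have h3 : ((cl L Q z).1 : ℤ) ∣ mm z.2 r := by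
      refine (Int.natCast_dvd_natCast.mpr ?_).trans (gg_dvd z.2 r)
      rw [hz.2]
      exact hg0
    have h4 := dvd_sub h3 h2
    simpa using h4
  · intro p hp hpZ
    by_contra hcon
    push Not at hcon
    have h0 := mul_dvd_L h hgL hp hpZ (hpow p hp hpZ)
    have h1 : ((p * (cl L Q z).1 : ℕ) : ℤ) ∣ (Q : ℤ) := Int.natCast_dvd_natCast.mpr (h0.trans h.hLQ)
    have h2 : p * (cl L Q z).1 ∣ gg z.2 := by
      apply dvd_gg
      intro r
      have h3 := dvd_add (h1.trans (mm_congr hc r)) (hcon r)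
      simpa using h3
    rw [hz.2] at h2
    have h3 := Nat.dvd_gcd h2 h0
    have h4 : p * (cl L Q z).1 ∣ (cl L Q z).1 := h3
    have h5 := Nat.le_of_dvd hcpos h4
    have h6 := hp.two_le
    nlinarith

/-- pairs with no small bad primes are exact or bad at a large number -/
theorem exact_or_bad {T : ℝ} {z : ℕ × (Fin 5 → ℤ)} (hz : z ∈ EE δ A T) (Z : ℕ)
    (h1 : ∀ p : ℕ, p.Prime → p ≤ Z → ∃ i, ¬ (p : ℤ) ∣ z.2 i)
    (h2 : ∀ p : ℕ, p.Prime → p ≤ Z → ∃ r, ¬ ((p * z.1 : ℕ) : ℤ) ∣ mm z.2 r) :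
    Ex z ∨ z ∈ BB δ A T Z := by
  by_cases hu : Unimod z.2
  · by_cases hg : gg z.2 = z.1
    · exact Or.inl ⟨hu, hg⟩
    · right
      have hz6 := (mem_CC_iff _ _).mp hz.2.2.2.2.2
      obtain ⟨n, hn⟩ : z.1 ∣ gg z.2 := dvd_gg hz6.2
      have hgpos : 0 < gg z.2 := gg_pos hz.2.2.2.2.1
      have hn0 : n ≠ 0 := by
        rintro rfl
        rw [hn] at hgpos
        simp at hgpos
      have hn1 : n ≠ 1 := by
        rintro rfl
        rw [mul_one] at hn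
        exact hg hn
      refine ⟨n, ?_, Or.inl ⟨hz, hu, by rw [hn]⟩⟩
      obtain ⟨p, hp, hpn⟩ := Nat.exists_prime_and_dvd hn1
      by_contra hcon
      push Not at hcon
      have hpZ : p ≤ Z := (Nat.le_of_dvd (Nat.pos_of_ne_zero hn0) hpn).trans hcon
      obtain ⟨r, hr⟩ := h2 p hp hpZ
      apply hr
      refine (Int.natCast_dvd_natCast.mpr ?_).trans (gg_dvd z.2 r)
      rw [hn, mul_comm p]
      exact mul_dvd_mul_left _ hpn
  · right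
    have hx0 : z.2 ≠ 0 := by
      intro h0
      apply hz.2.2.2.2.1
      rw [h0, mm_zero]
    obtain ⟨e, x', he, hx', hxe⟩ := exists_content z.2 hx0
    have he1 : e ≠ 1 := by
      rintro rfl
      apply hu
      rw [hxe]
      simpa using hx'
    refine ⟨e, ?_, Or.inr ⟨hz, x', hx', hxe⟩⟩
    obtain ⟨p, hp, hpe⟩ := Nat.exists_prime_and_dvd he1
    by_contra hcon
    push Not at hcon
    have hpZ : p ≤ Z := (Nat.le_of_dvd he hpe).trans hcon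
    obtain ⟨i, hi⟩ := h1 p hp hpZ
    apply hi
    rw [hxe]
    simp only [Pi.smul_apply, smul_eq_mul]
    exact Dvd.dvd.mul_right (Int.natCast_dvd_natCast.mpr hpe) _

theorem good_or_bad (h : Ctx k Z L Q) {T : ℝ} {z : ℕ × (Fin 5 → ℤ)} (hz : z ∈ EE δ A T)
    (hc : Gd k Z L (cl L Q z)) : Ex z ∨ z ∈ BB δ A T Z := by
  apply exact_or_bad hz Z
  · intro p hp hpZ
    exact hc.congr_uni h (cl_congr z) p hp hpZ
  · intro p hp hpZ
    obtain ⟨r, hr⟩ := hc.congr_mmn h (cl_congr z) p hp hpZ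
    refine ⟨r, fun hd => hr ?_⟩
    refine (Int.natCast_dvd_natCast.mpr ?_).trans hd
    exact mul_dvd_mul_left _ (Nat.gcd_dvd_left _ _)

theorem sum_prime_pow (s : Finset ℕ) (hs : ∀ n ∈ s, 2 ≤ n) (k : ℕ) (hk : 2 ≤ k) :
    ∑ n ∈ s, 1 / (n : ℝ) ^ k ≤ 2 * (1 / 2) ^ (k - 2) := by
  classical
  have h1 : ∀ n ∈ s, 1 / (n : ℝ) ^ k ≤ (1 / 2) ^ (k - 2) * (1 / (n : ℝ) ^ 2) := by
    intro n hn
    have h2 : (2 : ℝ) ≤ n := by exact_mod_cast hs n hn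
    obtain ⟨j, rfl⟩ := Nat.exists_eq_add_of_le hk
    rw [Nat.add_sub_cancel_left, pow_add, one_div_pow, one_div_mul_one_div]
    apply one_div_le_one_div_of_le (by positivity)
    rw [mul_comm]
    gcongr
  have h2 : s ⊆ Finset.Icc 1 (s.sup id) := by
    intro n hn
    rw [Finset.mem_Icc]
    exact ⟨by have := hs n hn; omega, Finset.le_sup (f := id) hn⟩
  calc ∑ n ∈ s, 1 / (n : ℝ) ^ k ≤ ∑ n ∈ s, (1 / 2) ^ (k - 2) * (1 / (n : ℝ) ^ 2) := Finset.sum_le_sum h1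
    _ = (1 / 2) ^ (k - 2) * ∑ n ∈ s, (1 / (n : ℝ) ^ 2) := by rw [Finset.mul_sum]
    _ ≤ (1 / 2) ^ (k - 2) * ∑ n ∈ Finset.Icc 1 (s.sup id), (1 / (n : ℝ) ^ 2) := by
        gcongr
    _ ≤ (1 / 2) ^ (k - 2) * 2 := by gcongr; exact sum_inv_sq _
    _ = _ := by ring

end Pool.Agent.KS6_30.VB
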