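import Pool.Agent.KS6_30.VB.BLg

/-!
# The main limit: existence
-/

set_option autoImplicit false
set_option linter.unusedSectionVars false

namespace Pool.Agent.KS6_30.VB

open Filter Topology MeasureTheory Pool.Agent.KS6_30.VA Finset
open Pool.Agent.KS6_30.VA.Tern

variable [Tern]

variable {k Z L Q : ℕ} {δ A : ℝ}

theorem lam_abs_nonneg (Q g1 : ℕ) (g : (Fin 5 → ℝ) × ℝ → ℝ) (hδ : 0 < δ) (hg : Tf δ A g) :
    0 ≤ lam Q g1 (fun z => |g z|) := by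
  rw [lam, mom]
  have h1 : 0 ≤ ∫ s : ℝ, s ^ 3 * hh (fun z => |g z|) s := by
    apply integral_nonneg
    intro s
    have h2 : 0 ≤ hh (fun z => |g z|) s := integral_nonneg fun u => abs_nonneg _
    by_cases h3 : hh (fun z => |g z|) s = 0
    · simp [h3]
    · have := (hg.abs.hh_ne s h3).1
      have : 0 < s := by linarith
      simp only [Pi.zero_apply]
      positivity
  positivity

theorem sum_lam_le (h : Ctx k Z L Q) (hZ : 2 ≤ Z) (hδ : 0 < δ) (hA : 0 < A)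
    (gc : ℕ × (Fin 5 → ℤ) → (Fin 5 → ℝ) × ℝ → ℝ) (hg : ∀ c, Tf δ A (gc c))
    (hgm : ∀ c u s, gc c (u, s) ≠ 0 → mm u ≠ 0) (B : ℝ) (hB : ∀ c z, |gc c z| ≤ B) :
    ∑ c ∈ Cc k Z L Q, lam Q c.1 (fun z => |gc c z|) ≤ 2 * (B * C0 δ A) := by
  classical
  have hB0 : 0 ≤ B := (abs_nonneg _).trans (hB 0 0)
  have hZ' : (2 : ℝ) ≤ Z := by exact_mod_cast hZ
  have hC0 := C0_pos hδ hA
  have hup : ∀ T : ℝ, 0 < T → ∑ c ∈ Cc k Z L Q, cs A Q c.2 c.1 (fun z => |gc c z|) T ≤ B * (C0 δ A * T ^ 2) := by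
    intro T hT
    set E := (EE_finite δ A T hδ hA hT).toFinset with hE
    calc ∑ c ∈ Cc k Z L Q, cs A Q c.2 c.1 (fun z => |gc c z|) T
        = ∑ c ∈ Cc k Z L Q, ∑ z ∈ E.filter (fun z => cl L Q z = c), |gc c (pt z, (z.1 : ℝ) / √T)| := by
          apply Finset.sum_congr rfl
          intro c hc
          have hc' := (mem_Cc h c).mp hc
          exact cs_pairs h hc'.1 hc'.2 (hg c).abs (fun u s hne => hgm c u s (by simpa using hne)) hδ hA T hT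
      _ ≤ ∑ c ∈ Cc k Z L Q, ∑ z ∈ E.filter (fun z => cl L Q z = c), B :=
          Finset.sum_le_sum fun c _ => Finset.sum_le_sum fun z _ => hB c _
      _ = B * ∑ c ∈ Cc k Z L Q, ((E.filter (fun z => cl L Q z = c)).card : ℝ) := by
          rw [Finset.mul_sum]
          apply Finset.sum_congr rfl
          intro c _
          rw [Finset.sum_const, nsmul_eq_mul, mul_comm]
      _ ≤ B * E.card := by
          gcongr
          have h1 : ∑ c ∈ Cc k Z L Q, (E.filter (fun z => cl L Q z = c)).card ≤ E.card := by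
            rw [← Finset.card_biUnion]
            · apply Finset.card_le_card
              intro z hz
              rw [Finset.mem_biUnion] at hz
              obtain ⟨c, _, hz⟩ := hz
              exact (Finset.mem_filter.mp hz).1
            · intro c _ c' _ hne
              rw [Function.onFun, Finset.disjoint_left]
              intro z hz hz'
              exact hne ((Finset.mem_filter.mp hz).2.symm.trans (Finset.mem_filter.mp hz').2)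
          exact_mod_cast h1
      _ ≤ _ := by
          gcongr
          exact EE_card hδ hA T hT
  have hkey : ∀ ε : ℝ, 0 < ε → (1 - 1 / (Z : ℝ)) * ∑ c ∈ Cc k Z L Q, lam Q c.1 (fun z => |gc c z|) ≤
      B * C0 δ A + ε * (Cc k Z L Q).card := by
    intro ε hε
    have h1 : ∀ᶠ T : ℝ in atTop, ∀ c ∈ Cc k Z L Q,
        |cs A Q c.2 c.1 (fun z => |gc c z|) T / T ^ 2 - lam Q c.1 (fun z => |gc c z|)| ≤
        1 / Z * lam Q c.1 (fun z => |gc c z|) + ε := by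
      rw [Filter.eventually_all_finset]
      intro c hc
      have hc' := (mem_Cc h c).mp hc
      have h2 := cs_close (hg c).abs hδ hA Z Q (by omega) h.hQ0 h.hAQ (fun p hp hpZ => (h.hQ p hp).mpr hpZ) c.2
        c.1 (Gd.pos h hc'.1) ε hε
      simpa only [abs_abs] using h2
    obtain ⟨T, h2, hT⟩ := (h1.and (eventually_gt_atTop 0)).exists
    have hT2 : 0 < T ^ 2 := by positivity
    have h3 : ∑ c ∈ Cc k Z L Q, (1 - 1 / (Z : ℝ)) * lam Q c.1 (fun z => |gc c z|) ≤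
        ∑ c ∈ Cc k Z L Q, (cs A Q c.2 c.1 (fun z => |gc c z|) T / T ^ 2 + ε) := by
      apply Finset.sum_le_sum
      intro c hc
      have := (abs_le.mp (h2 c hc)).1
      linarith
    rw [← Finset.mul_sum, Finset.sum_add_distrib, ← Finset.sum_div, Finset.sum_const, nsmul_eq_mul] at h3
    refine h3.trans ?_
    have h4 : (∑ c ∈ Cc k Z L Q, cs A Q c.2 c.1 (fun z => |gc c z|) T) / T ^ 2 ≤ B * C0 δ A := by
      rw [div_le_iff₀ hT2]
      have := hup T hT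
      linarith
    linarith
  have h5 : (1 - 1 / (Z : ℝ)) * ∑ c ∈ Cc k Z L Q, lam Q c.1 (fun z => |gc c z|) ≤ B * C0 δ A := by
    apply le_of_forall_pos_le_add
    intro ε hε
    have h6 := hkey (ε / ((Cc k Z L Q).card + 1)) (by positivity)
    refine h6.trans ?_
    have : ε / ((Cc k Z L Q).card + 1) * (Cc k Z L Q).card ≤ ε := by
      rw [div_mul_eq_mul_div, div_le_iff₀ (by positivity)]
      nlinarith
    linarith
  have h6 : (1 : ℝ) / 2 ≤ 1 - 1 / (Z : ℝ) := by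
    have : 1 / (Z : ℝ) ≤ 1 / 2 := one_div_le_one_div_of_le (by norm_num) hZ'
    linarith
  have h7 : 0 ≤ ∑ c ∈ Cc k Z L Q, lam Q c.1 (fun z => |gc c z|) :=
    Finset.sum_nonneg fun c _ => lam_abs_nonneg Q c.1 (gc c) hδ (hg c)
  nlinarith

/-- boundedness and uniform continuity of the test function in the last variable -/
theorem tst_unif (G : (Fin 5 → ℝ) × ℝ × ℝ → ℝ) (hGc : Continuous G)
    (hG : ∀ z, G z ≠ 0 → ‖z.1‖ ≤ A ∧ δ ≤ ‖mm z.1‖ ∧ δ ≤ z.2.1 ∧ z.2.1 ≤ A) (a b : ℝ) :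
    (∃ B : ℝ, 0 < B ∧ ∀ u s, ∀ τ ∈ Set.Icc a b, |G (u, s, τ)| ≤ B) ∧
    ∀ η : ℝ, 0 < η → ∃ ε₁ : ℝ, 0 < ε₁ ∧ ∀ u s, ∀ τ ∈ Set.Icc a b, ∀ τ' ∈ Set.Icc a b, |τ - τ'| ≤ ε₁ →
      |G (u, s, τ) - G (u, s, τ')| ≤ η := by
  set K : Set ((Fin 5 → ℝ) × ℝ × ℝ) := Metric.closedBall 0 A ×ˢ (Set.Icc δ A ×ˢ Set.Icc a b) with hK
  have hKc : IsCompact K := (isCompact_closedBall _ _).prod (isCompact_Icc.prod isCompact_Icc)
  have hmem : ∀ u s, ∀ τ ∈ Set.Icc a b, G (u, s, τ) ≠ 0 → ‖u‖ ≤ A ∧ s ∈ Set.Icc δ A := by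
    intro u s τ _ hne
    obtain ⟨h1, _, h3, h4⟩ := hG _ hne
    exact ⟨h1, h3, h4⟩
  constructor
  · obtain ⟨B, hB⟩ := hKc.exists_bound_of_continuousOn hGc.continuousOn
    refine ⟨max B 1, by positivity, fun u s τ hτ => ?_⟩
    by_cases h0 : G (u, s, τ) = 0
    · rw [h0, abs_zero]; positivity
    · obtain ⟨h1, h2⟩ := hmem u s τ hτ h0
      have h3 := hB (u, s, τ) ⟨by simpa using h1, h2, hτ⟩
      rw [Real.norm_eq_abs] at h3
      exact h3.trans (le_max_left _ _)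
  · intro η hη
    have huc := hKc.uniformContinuousOn_of_continuous hGc.continuousOn
    rw [Metric.uniformContinuousOn_iff] at huc
    obtain ⟨d, hd, hd2⟩ := huc η hη
    refine ⟨d / 2, by positivity, fun u s τ hτ τ' hτ' hττ => ?_⟩
    by_cases hus : ‖u‖ ≤ A ∧ s ∈ Set.Icc δ A
    · have h1 := hd2 (u, s, τ) ⟨by simpa using hus.1, hus.2, hτ⟩ (u, s, τ') ⟨by simpa using hus.1, hus.2, hτ'⟩ (by
        rw [Prod.dist_eq, Prod.dist_eq, dist_self, dist_self, Real.dist_eq]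
        simp only
        rw [max_eq_right (by positivity), max_eq_right (by positivity)]
        linarith)
      rw [Real.dist_eq] at h1
      exact h1.le
    · have h1 : G (u, s, τ) = 0 := by
        by_contra hne
        exact hus (hmem u s τ hτ hne)
      have h2 : G (u, s, τ') = 0 := by
        by_contra hne
        exact hus (hmem u s τ' hτ' hne)
      rw [h1, h2, sub_zero, abs_zero]
      exact hη.le

theorem exists_ctx (Q₀ : ℕ) (hQ₀ : 0 < Q₀) (hAQ₀ : AA ∣ Q₀) (k Z : ℕ) (hk : 0 < k) (hZ : Q₀ ≤ Z) :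
    ∃ L, Ctx k Z L (Q₀ * L) := by
  set L := ∏ p ∈ (Finset.range (Z + 1)).filter Nat.Prime, p ^ k with hL
  have hL0 : 0 < L := Finset.prod_pos fun p hp => Nat.pow_pos (Finset.mem_filter.mp hp).2.pos
  have hdv : ∀ p : ℕ, p.Prime → p ≤ Z → p ^ k ∣ L := by
    intro p hp hpZ
    exact Finset.dvd_prod_of_mem (fun p => p ^ k) (Finset.mem_filter.mpr ⟨Finset.mem_range.mpr (by omega), hp⟩)
  refine ⟨L, ⟨hdv, hL0, Nat.mul_pos hQ₀ hL0, dvd_mul_left _ _, hAQ₀.mul_right _, fun p hp => ⟨fun hd => ?_, fun hpZ => ?_⟩⟩⟩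
  · rcases (Nat.Prime.dvd_mul hp).mp hd with h1 | h1
    · exact (Nat.le_of_dvd hQ₀ h1).trans hZ
    · rw [hL, (Nat.Prime.prime hp).dvd_finsetProd_iff] at h1
      obtain ⟨q, hq, hpq⟩ := h1
      rw [Finset.mem_filter, Finset.mem_range] at hq
      have := (Nat.prime_dvd_prime_iff_eq hp hq.2).mp (hp.dvd_of_dvd_pow hpq)
      omega
  · exact ((dvd_pow_self p hk.ne').trans (hdv p hp hpZ)).trans (dvd_mul_left _ _)

theorem BL_approx (P : Finset ℕ) (hP : ∀ p ∈ P, p.Prime) (θ : (Fin 5 → ℤ) → ℝ) (hθ : Adm P θ)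
    (a b : ℝ) (hab : ∀ x, θ x ∈ Set.Icc a b) (G : (Fin 5 → ℝ) × ℝ × ℝ → ℝ) (hGc : Continuous G)
    (hδ : 0 < δ) (hA : 0 < A)
    (hG : ∀ z, G z ≠ 0 → ‖z.1‖ ≤ A ∧ δ ≤ ‖mm z.1‖ ∧ δ ≤ z.2.1 ∧ z.2.1 ≤ A) (ε : ℝ) (hε : 0 < ε) :
    ∃ Λ : ℝ, ∀ᶠ T : ℝ in atTop, |BS G θ T / T ^ 2 - Λ| ≤ ε := by
  classical
  obtain ⟨⟨B, hB0, hB⟩, hunif⟩ := tst_unif G hGc hG a b
  have hC0 := C0_pos hδ hA
  have haI : a ∈ Set.Icc a b := ⟨le_rfl, (hab 0).1.trans (hab 0).2⟩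
  -- η
  obtain ⟨ε₁, hε₁, hη⟩ := hunif (ε / 5 / C0 δ A) (by positivity)
  -- k
  obtain ⟨k, hk2, hk⟩ : ∃ k : ℕ, 2 ≤ k ∧ B * (2 * (1 / 2) ^ (k - 2)) * C0 δ A ≤ ε / 5 := by
    obtain ⟨n, hn⟩ := exists_pow_lt_of_lt_one (show 0 < ε / 5 / (B * 2 * C0 δ A) by positivity)
      (show (1 / 2 : ℝ) < 1 by norm_num)
    refine ⟨n + 2, by omega, ?_⟩
    rw [Nat.add_sub_cancel]
    rw [lt_div_iff₀ (by positivity)] at hn
    linarith
  -- Q₀
  obtain ⟨Q₀', hQ₀', hQθ'⟩ := hθ k ε₁ hε₁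
  obtain ⟨Q₀, hQ₀, hAQ₀, hQθ⟩ : ∃ Q₀ : ℕ, 0 < Q₀ ∧ AA ∣ Q₀ ∧ ∀ x x' : Fin 5 → ℤ, Unimod x → Unimod x' →
      (∀ i, (Q₀ : ℤ) ∣ x i - x' i) → (∀ p ∈ P, ¬ p ^ k ∣ gg x) → |θ x - θ x'| ≤ ε₁ :=
    ⟨Q₀' * AA, Nat.mul_pos hQ₀' AA_pos, dvd_mul_left _ _, fun x x' hx hx' hd hpk =>
      hQθ' x x' hx hx' (fun i => (Int.natCast_dvd_natCast.mpr (dvd_mul_right _ _)).trans (hd i)) hpk⟩
  -- Z
  obtain ⟨Z₀, hZ₀⟩ := BB_count δ A hδ hA (ε / 5 / B) (by positivity)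
  obtain ⟨Z₁, hZ₁⟩ := exists_nat_gt (2 * (B * C0 δ A) / (ε / 5))
  set Z := max (max Z₀ Z₁) (max (max Q₀ 2) (P.sup id)) with hZ
  have z0 : Z₀ ≤ Z := (le_max_left _ _).trans (le_max_left _ _)
  have z1 : Z₁ ≤ Z := (le_max_right _ _).trans (le_max_left _ _)
  have z2 : Q₀ ≤ Z := (le_max_left _ _).trans ((le_max_left _ _).trans (le_max_right _ _))
  have z3 : 2 ≤ Z := (le_max_right _ _).trans ((le_max_left _ _).trans (le_max_right _ _))
  have z4 : P.sup id ≤ Z := (le_max_right _ _).trans (le_max_right _ _)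
  have hZpos : (0 : ℝ) < Z := by exact_mod_cast (by omega : 0 < Z)
  obtain ⟨L, hctx⟩ := exists_ctx Q₀ hQ₀ hAQ₀ k Z (by omega) z2
  obtain ⟨θc, hθc, hcmp⟩ := BS_classes G hδ hA hGc hG θ a b hab P B hB (ε / 5 / C0 δ A) ε₁ hε₁.le hη hctx hk2
    (fun p hp => ⟨hP p hp, (Finset.le_sup (f := id) hp).trans z4⟩)
    (fun x x' hx hx' hd hpk => hQθ x x' hx hx' (fun i => (Int.natCast_dvd_natCast.mpr (dvd_mul_right _ _)).trans (hd i)) hpk)
    (ε / 5 / B) (fun T hT => hZ₀ Z z0 T hT)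
  set gc : ℕ × (Fin 5 → ℤ) → (Fin 5 → ℝ) × ℝ → ℝ := fun c z => G (z.1, z.2, θc c) with hgc
  have hTf : ∀ c, Tf δ A (gc c) := fun c =>
    ⟨hGc.comp (by fun_prop), fun u s hne => ⟨(hG _ hne).1, (hG _ hne).2.2⟩⟩
  have hsum := sum_lam_le hctx z3 hδ hA gc hTf (fun c u s hne h0 => by
      have := (hG _ hne).2.1
      simp only at this
      rw [h0, norm_zero] at this
      linarith) B (fun c z => hB z.1 z.2 _ (hθc c))
  refine ⟨∑ c ∈ Cc k Z L (Q₀ * L), lam (Q₀ * L) c.1 (gc c), ?_⟩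
  set n := (Cc k Z L (Q₀ * L)).card with hn
  have h1 : ∀ᶠ T : ℝ in atTop, ∀ c ∈ Cc k Z L (Q₀ * L),
      |cs A (Q₀ * L) c.2 c.1 (gc c) T / T ^ 2 - lam (Q₀ * L) c.1 (gc c)| ≤
      1 / Z * lam (Q₀ * L) c.1 (fun z => |gc c z|) + ε / 5 / (n + 1) := by
    rw [Filter.eventually_all_finset]
    intro c hc
    have hc' := (mem_Cc hctx c).mp hc
    exact cs_close (hTf c) hδ hA Z (Q₀ * L) (by omega) hctx.hQ0 hctx.hAQ (fun p hp hpZ => (hctx.hQ p hp).mpr hpZ) c.2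
      c.1 (Gd.pos hctx hc'.1) _ (by positivity)
  filter_upwards [h1, eventually_gt_atTop 0] with T h1 hT
  have hT2 : 0 < T ^ 2 := by positivity
  have h2 := hcmp T hT
  have h3 : |BS G θ T / T ^ 2 - ∑ c ∈ Cc k Z L (Q₀ * L), cs A (Q₀ * L) c.2 c.1 (gc c) T / T ^ 2| ≤
      (ε / 5 / C0 δ A + B * (2 * (1 / 2) ^ (k - 2))) * C0 δ A + B * (ε / 5 / B) := by
    rw [← Finset.sum_div, ← sub_div, abs_div, abs_of_pos hT2, div_le_iff₀ hT2]
    exact h2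
  have h4 : |∑ c ∈ Cc k Z L (Q₀ * L), cs A (Q₀ * L) c.2 c.1 (gc c) T / T ^ 2 -
      ∑ c ∈ Cc k Z L (Q₀ * L), lam (Q₀ * L) c.1 (gc c)| ≤ ε / 5 + ε / 5 := by
    rw [← Finset.sum_sub_distrib]
    refine (Finset.abs_sum_le_sum_abs _ _).trans ((Finset.sum_le_sum h1).trans ?_)
    rw [Finset.sum_add_distrib, ← Finset.mul_sum, Finset.sum_const, nsmul_eq_mul]
    have h5 : 1 / (Z : ℝ) * ∑ c ∈ Cc k Z L (Q₀ * L), lam (Q₀ * L) c.1 (fun z => |gc c z|) ≤ ε / 5 := by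
      calc _ ≤ 1 / (Z : ℝ) * (2 * (B * C0 δ A)) := by gcongr
        _ ≤ ε / 5 := by
          rw [one_div_mul_eq_div, div_le_iff₀ hZpos]
          rw [div_lt_iff₀ (by positivity)] at hZ₁
          have : (Z₁ : ℝ) ≤ Z := by exact_mod_cast z1
          nlinarith
    have h6 : (n : ℝ) * (ε / 5 / (n + 1)) ≤ ε / 5 := by
      rw [mul_div_assoc', div_le_iff₀ (by positivity)]
      nlinarith
    linarith
  have h5 : (ε / 5 / C0 δ A + B * (2 * (1 / 2) ^ (k - 2))) * C0 δ A + B * (ε / 5 / B) ≤ 3 * (ε / 5) := by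
    have e1 : ε / 5 / C0 δ A * C0 δ A = ε / 5 := by field_simp
    have e2 : B * (ε / 5 / B) = ε / 5 := by field_simp
    rw [add_mul, e1, e2]
    linarith
  calc |BS G θ T / T ^ 2 - ∑ c ∈ Cc k Z L (Q₀ * L), lam (Q₀ * L) c.1 (gc c)|
      ≤ |BS G θ T / T ^ 2 - ∑ c ∈ Cc k Z L (Q₀ * L), cs A (Q₀ * L) c.2 c.1 (gc c) T / T ^ 2| +
        |∑ c ∈ Cc k Z L (Q₀ * L), cs A (Q₀ * L) c.2 c.1 (gc c) T / T ^ 2 -
          ∑ c ∈ Cc k Z L (Q₀ * L), lam (Q₀ * L) c.1 (gc c)| := abs_sub_le _ _ _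
    _ ≤ ε := by linarith

theorem exists_limit (f : ℝ → ℝ) (h : ∀ ε : ℝ, 0 < ε → ∃ Λ : ℝ, ∀ᶠ T : ℝ in atTop, |f T - Λ| ≤ ε) :
    ∃ L : ℝ, Tendsto f atTop (𝓝 L) := by
  apply cauchy_map_iff_exists_tendsto.mp
  rw [Metric.cauchy_iff]
  refine ⟨inferInstance, fun ε hε => ?_⟩
  obtain ⟨Λ, hΛ⟩ := h (ε / 3) (by positivity)
  refine ⟨f '' {T | |f T - Λ| ≤ ε / 3}, ?_, ?_⟩
  · exact Filter.image_mem_map hΛ
  · rintro _ ⟨T, hT, rfl⟩ _ ⟨T', hT', rfl⟩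
    rw [Real.dist_eq]
    simp only [Set.mem_ofPred_eq] at hT hT'
    rw [abs_le] at hT hT'
    rw [abs_lt]
    constructor <;> linarith [hT.1, hT.2, hT'.1, hT'.2]

end Pool.Agent.KS6_30.VB
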