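import Pool.Agent.KS6_30.VB.BL
import Pool.Agent.KS6_30.VB.KL

/-!
# The real planes
-/

set_option autoImplicit false
set_option linter.unusedSectionVars false

namespace Pool.Agent.KS6_30.VB

open Filter Topology MeasureTheory Pool.Agent.KS6_30.VA Finset
open Pool.Agent.KS6_30.VA.Tern

variable [Tern]

/-- balanced bases of the real planes of `V` -/
def KI (D : ℝ) : Set ((Fin 5 → ℝ) × (Fin 5 → ℝ)) := {t | t ∈ KK D ∧ Iso t.1 t.2}

theorem isCompact_KI (D : ℝ) : IsCompact (KI D) := by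
  have h1 : IsClosed {t : (Fin 5 → ℝ) × (Fin 5 → ℝ) | Iso t.1 t.2} := by
    simp only [Iso, b0, b1, b2]
    exact (isClosed_eq (by fun_prop) continuous_const).inter
      ((isClosed_eq (by fun_prop) continuous_const).inter (isClosed_eq (by fun_prop) continuous_const))
  exact (isCompact_KK D).inter_right h1

theorem unimod_real {ι : Type*} [Fintype ι] {w : ι → ℝ} (h : w ≠ 0) : Unimod w := by
  classical
  obtain ⟨i, hi⟩ : ∃ i, w i ≠ 0 := by
    by_contra hcon
    push Not at hcon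
    exact h (funext hcon)
  refine ⟨Pi.single i (w i)⁻¹, ?_⟩
  rw [Finset.sum_eq_single i]
  · simp [hi]
  · intro j _ hj
    simp [hj]
  · intro h; exact absurd (Finset.mem_univ i) h

theorem four {p q : Fin 5 → ℝ} (hi : Iso p q) (hw : wedge p q ≠ 0) :
    ¬ (mm p = 0 ∧ mm q = 0 ∧ mm (p + q) = 0 ∧ mm (p - q) = 0) := by
  rintro ⟨m1, m2, m3, m4⟩
  have hu := unimod_real hw
  obtain ⟨a1, b1, h1⟩ := hes_in hi hu
  have hu' : Unimod (wedge q p) := by
    rw [wedge_comm]
    exact unimod_real (neg_ne_zero.mpr hw)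
  obtain ⟨b2, a2, h2⟩ := hes_in (iso_comm hi) hu'
  obtain ⟨a3, b3, h3⟩ := hh_in hi hu
  have key : ∀ (a b c d : ℝ), wedge (a • p + b • q) (c • p + d • q) = 0 → a * d - b * c = 0 := by
    intro a b c d h
    rw [wedge_comb] at h
    rcases smul_eq_zero.mp h with h' | h'
    · exact h'
    · exact absurd h' hw
  have c1 : b1 = 0 := by
    have := key 1 0 a1 b1 (by
      rw [← h1]
      simpa [mm] using m1)
    linarith
  have c2 : a2 = 0 := by
    have := key 0 1 a2 b2 (by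
      have e : a2 • p + b2 • q = hes q := by rw [h2]; abel
      rw [e]
      simpa [mm] using m2)
    linarith
  have c3 := key 1 1 (a1 + a3 + a2) (b1 + b3 + b2) (by
    have e : (a1 + a3 + a2) • p + (b1 + b3 + b2) • q = hes ((1 : ℝ) • p + (1 : ℝ) • q) := by
      rw [hes_comb, h1, h2, h3]
      simp only [one_pow, mul_one, one_smul, add_smul]
      abel
    rw [e]
    simpa [mm] using m3)
  have c4 := key 1 (-1) (a1 - a3 + a2) (b1 - b3 + b2) (by
    have e : (a1 - a3 + a2) • p + (b1 - b3 + b2) • q = hes ((1 : ℝ) • p + (-1 : ℝ) • q) := by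
      rw [hes_comb, h1, h2, h3]
      funext i
      simp only [Pi.add_apply, Pi.smul_apply, smul_eq_mul]
      ring
    rw [e]
    have e2 : (1 : ℝ) • p + (-1 : ℝ) • q = p - q := by
      rw [one_smul, neg_one_smul, sub_eq_add_neg]
    rw [e2]
    exact m4)
  have c5 : a3 = b2 := by linarith
  have c6 : b3 = a1 := by linarith
  apply hw
  apply no_plane (F := ℝ) DD_real (a := a1) (b := b2)
  · rw [h1, c1]; simp
  · rw [h3, c5, c6, add_comm]
  · rw [h2, c2]; simp

theorem exists_balanced (p q : Fin 5 → ℝ) (hi : Iso p q) (hw : ‖wedge p q‖ = 1) :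
    ∃ α β γ δ : ℝ, α * δ - β * γ = 1 ∧ (α • p + β • q, γ • p + δ • q) ∈ KI 2 := by
  set P := ∑ i, p i ^ 2 with hP
  set R := ∑ i, p i * q i with hR
  set Q := ∑ i, q i ^ 2 with hQ
  have hsum : ∑ t : Fin 5 × Fin 5, wedge p q t ^ 2 = 2 * (P * Q - R ^ 2) := by
    rw [Fintype.sum_prod_type]
    simp only [wedge, hP, hR, hQ, Fin.sum_univ_five]
    ring
  have hsle : ∑ t : Fin 5 × Fin 5, wedge p q t ^ 2 ≤ 25 := by
    calc ∑ t : Fin 5 × Fin 5, wedge p q t ^ 2 ≤ ∑ t : Fin 5 × Fin 5, (1 : ℝ) := by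
          apply Finset.sum_le_sum
          intro t _
          have h1 : |wedge p q t| ≤ 1 := by
            rw [← hw]
            exact norm_le_pi_norm (wedge p q) t
          rw [← sq_abs]
          exact pow_le_one₀ (abs_nonneg _) h1
      _ = 25 := by simp
  have hw0 : wedge p q ≠ 0 := by
    intro h
    rw [h, norm_zero] at hw
    exact zero_ne_one hw
  have hspos : 0 < ∑ t : Fin 5 × Fin 5, wedge p q t ^ 2 := by
    obtain ⟨t, ht⟩ : ∃ t, wedge p q t ≠ 0 := by
      by_contra hcon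
      push Not at hcon
      exact hw0 (funext hcon)
    exact lt_of_lt_of_le (by positivity) (Finset.single_le_sum (f := fun t => wedge p q t ^ 2)
      (fun i _ => sq_nonneg _) (Finset.mem_univ t))
  have hP0 : 0 ≤ P := Finset.sum_nonneg fun i _ => sq_nonneg _
  have hD : 0 < P * Q - R ^ 2 := by linarith
  have hPpos : 0 < P := by
    rcases hP0.lt_or_eq with h | h
    · exact h
    · exfalso
      rw [← h] at hD
      nlinarith [sq_nonneg R]
  set c := R / P with hc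
  set q' : Fin 5 → ℝ := q - c • p with hq'
  set Qn := ∑ i, q' i ^ 2 with hQn
  have hQn2 : Qn = Q - R ^ 2 / P := by
    have : Qn = Q - 2 * c * R + c ^ 2 * P := by
      simp only [hQn, hq', hQ, hR, hP, Pi.sub_apply, Pi.smul_apply, smul_eq_mul, Fin.sum_univ_five]
      ring
    rw [this, hc]
    field_simp
    ring
  have hPQn : P * Qn = P * Q - R ^ 2 := by
    rw [hQn2]
    field_simp
  have hQnpos : 0 < Qn := by
    by_contra hcon
    push Not at hcon
    have : P * Qn ≤ 0 := mul_nonpos_of_nonneg_of_nonpos hP0 hcon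
    linarith
  set l := √(√Qn / √P) with hl
  have hsP : 0 < √P := Real.sqrt_pos.mpr hPpos
  have hsQ : 0 < √Qn := Real.sqrt_pos.mpr hQnpos
  have hlpos : 0 < l := Real.sqrt_pos.mpr (by positivity)
  have hl2 : l ^ 2 = √Qn / √P := Real.sq_sqrt (by positivity)
  have hprod : √P * √Qn ≤ 4 := by
    have h1 : (√P * √Qn) ^ 2 ≤ 4 ^ 2 := by
      rw [mul_pow, Real.sq_sqrt hPpos.le, Real.sq_sqrt hQnpos.le, hPQn]
      linarith
    exact le_of_sq_le_sq h1 (by norm_num)
  have hbound : ∀ v : Fin 5 → ℝ, ∑ i, v i ^ 2 ≤ 4 → ‖v‖ ≤ 2 := by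
    intro v hv
    rw [pi_norm_le_iff_of_nonneg (by norm_num)]
    intro i
    rw [Real.norm_eq_abs]
    apply le_of_sq_le_sq _ (by norm_num)
    rw [sq_abs]
    have : v i ^ 2 ≤ ∑ i, v i ^ 2 :=
      Finset.single_le_sum (f := fun i => v i ^ 2) (fun i _ => sq_nonneg _) (Finset.mem_univ i)
    linarith
  refine ⟨l, 0, -(c * l⁻¹), l⁻¹, by field_simp; ring, ⟨?_, ?_, ?_⟩, ?_⟩
  · simp only [zero_smul, add_zero]
    apply hbound
    have : ∑ i, (l • p) i ^ 2 = l ^ 2 * P := by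
      rw [hP, Finset.mul_sum]
      exact Finset.sum_congr rfl fun i _ => by simp only [Pi.smul_apply, smul_eq_mul]; ring
    rw [this, hl2]
    have h1 : √Qn / √P * P = √P * √Qn := by
      have : P = √P * √P := (Real.mul_self_sqrt hPpos.le).symm
      rw [div_mul_eq_mul_div, div_eq_iff hsP.ne']
      nth_rewrite 1 [this]
      ring
    rw [h1]
    exact hprod
  · apply hbound
    have e : (-(c * l⁻¹)) • p + l⁻¹ • q = l⁻¹ • q' := by
      rw [hq']
      funext i
      simp only [Pi.add_apply, Pi.smul_apply, smul_eq_mul, Pi.sub_apply]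
      ring
    rw [e]
    have : ∑ i, (l⁻¹ • q') i ^ 2 = (l ^ 2)⁻¹ * Qn := by
      rw [hQn, Finset.mul_sum]
      exact Finset.sum_congr rfl fun i _ => by
        simp only [Pi.smul_apply, smul_eq_mul]
        rw [mul_pow, inv_pow]
    rw [this, hl2]
    have h1 : (√Qn / √P)⁻¹ * Qn = √P * √Qn := by
      have : Qn = √Qn * √Qn := (Real.mul_self_sqrt hQnpos.le).symm
      rw [inv_div, div_mul_eq_mul_div, div_eq_iff hsQ.ne']
      nth_rewrite 1 [this]
      ring
    rw [h1]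
    exact hprod
  · simp only
    rw [wedge_comb]
    have : l * l⁻¹ - 0 * -(c * l⁻¹) = 1 := by field_simp; ring
    rw [this, one_smul]
    exact hw
  · exact iso_comb _ _ _ _ hi

theorem continuous_hes : Continuous (hes : (Fin 5 → ℝ) → Fin 5 → ℝ) := by
  apply continuous_pi
  intro i
  fin_cases i <;> simp only [hes, Fin.zero_eta, Fin.mk_one, Fin.reduceFinMk, Matrix.cons_val] <;> fun_prop

theorem continuous_mm : Continuous (mm : (Fin 5 → ℝ) → Fin 5 × Fin 5 → ℝ) := by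
  apply continuous_pi
  rintro ⟨i, j⟩
  have h := continuous_hes
  have h1 : ∀ k, Continuous fun x : Fin 5 → ℝ => hes x k := fun k => (continuous_apply k).comp h
  simp only [mm, wedge]
  exact ((continuous_apply i).mul (h1 j)).sub ((continuous_apply j).mul (h1 i))

theorem exists_delta : ∃ d : ℝ, 0 < d ∧ ∀ t ∈ KI 2, ∃ z : ℝ × ℝ, ‖z.1 • t.1 + z.2 • t.2‖ ≤ 4 ∧
    d ≤ ‖mm (z.1 • t.1 + z.2 • t.2)‖ := by
  set M : (Fin 5 → ℝ) × (Fin 5 → ℝ) → ℝ := fun t =>
    max (max ‖mm t.1‖ ‖mm t.2‖) (max ‖mm (t.1 + t.2)‖ ‖mm (t.1 - t.2)‖) with hM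
  have hMc : Continuous M := by
    have h := continuous_mm
    fun_prop
  have hMpos : ∀ t ∈ KI 2, 0 < M t := by
    intro t ht
    by_contra hcon
    push Not at hcon
    simp only [hM, max_le_iff] at hcon
    obtain ⟨⟨h1, h2⟩, h3, h4⟩ := hcon
    have hw : wedge t.1 t.2 ≠ 0 := by
      intro h
      have := ht.1.2.2
      rw [h, norm_zero] at this
      exact zero_ne_one this
    exact four ht.2 hw ⟨norm_le_zero_iff.mp h1, norm_le_zero_iff.mp h2, norm_le_zero_iff.mp h3,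
      norm_le_zero_iff.mp h4⟩
  obtain ⟨d, hd, hdM⟩ : ∃ d : ℝ, 0 < d ∧ ∀ t ∈ KI 2, d ≤ M t := by
    by_cases hne : (KI 2).Nonempty
    · obtain ⟨t0, ht0, hmin⟩ := (isCompact_KI 2).exists_isMinOn hne hMc.continuousOn
      exact ⟨M t0, hMpos t0 ht0, fun t ht => hmin ht⟩
    · exact ⟨1, one_pos, fun t ht => absurd ⟨t, ht⟩ hne⟩
  refine ⟨d, hd, fun t ht => ?_⟩
  have h1 := hdM t ht
  obtain ⟨hn1, hn2, -⟩ := ht.1
  simp only [hM, le_max_iff] at h1
  have n1 : ‖t.1 + t.2‖ ≤ 4 := (norm_add_le _ _).trans (by linarith)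
  have n2 : ‖t.1 - t.2‖ ≤ 4 := (norm_sub_le _ _).trans (by linarith)
  rcases h1 with (h1 | h1) | (h1 | h1)
  · exact ⟨(1, 0), by simp; linarith, by simpa using h1⟩
  · exact ⟨(0, 1), by simp; linarith, by simpa using h1⟩
  · exact ⟨(1, 1), by simpa using n1, by simpa using h1⟩
  · refine ⟨(1, -1), ?_, ?_⟩
    · simp only [one_smul, neg_one_smul, ← sub_eq_add_neg]
      exact n2
    · simp only [one_smul, neg_one_smul, ← sub_eq_add_neg]
      exact h1

/-- the area is continuous -/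
theorem area_cont (χ : (Fin 5 → ℝ) → ℝ) (hc : Continuous χ) (hs : HasCompactSupport χ) (D : ℝ) (hD : 0 < D) :
    ContinuousOn (fun t : (Fin 5 → ℝ) × (Fin 5 → ℝ) => area χ t.1 t.2) (KK D) := by
  obtain ⟨A, hA0, hA⟩ : ∃ A : ℝ, 0 < A ∧ ∀ v, χ v ≠ 0 → ‖v‖ ≤ A := by
    obtain ⟨A, hA⟩ := (hs.isCompact.isBounded).exists_norm_le
    exact ⟨max A 1, by positivity, fun u hu => (hA u (subset_tsupport _ hu)).trans (le_max_left _ _)⟩
  obtain ⟨C, hC⟩ := hc.bounded_above_of_compact_support hs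
  set B : ℝ := 2 * D * A with hB
  simp only [area]
  apply continuousOn_of_dominated (bound := fun z : ℝ × ℝ => (Metric.closedBall (0 : ℝ × ℝ) B).indicator (fun _ => C) z)
  · intro t _
    have : Continuous (fun z : ℝ × ℝ => χ (z.1 • t.1 + z.2 • t.2)) := hc.comp (by fun_prop)
    exact this.aestronglyMeasurable
  · intro t ht
    apply Filter.Eventually.of_forall
    intro z
    by_cases h0 : χ (z.1 • t.1 + z.2 • t.2) = 0
    · rw [h0, norm_zero]
      apply Set.indicator_nonneg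
      intro _ _
      exact (norm_nonneg _).trans (hC 0)
    · have h1 := coord_bound ht z
      have h2 := hA _ h0
      have h3 : z ∈ Metric.closedBall (0 : ℝ × ℝ) B := by
        rw [mem_closedBall_zero_iff, Prod.norm_def]
        apply max_le
        · exact h1.1.trans (by rw [hB]; gcongr)
        · exact h1.2.trans (by rw [hB]; gcongr)
      rw [Set.indicator_of_mem h3]
      exact hC _
  · rw [integrable_indicator_iff measurableSet_closedBall]
    exact integrableOn_const (isCompact_closedBall _ _).measure_lt_top.ne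
  · apply Filter.Eventually.of_forall
    intro z
    exact (hc.comp (by fun_prop : Continuous fun t : (Fin 5 → ℝ) × (Fin 5 → ℝ) =>
      z.1 • t.1 + z.2 • t.2)).continuousOn

theorem pair_mm (e : Fin 5 → ℝ) (hmne : mm e ≠ 0) :
    Iso ((√‖mm e‖)⁻¹ • e) ((√‖mm e‖)⁻¹ • hes e) ∧
      ‖wedge ((√‖mm e‖)⁻¹ • e) ((√‖mm e‖)⁻¹ • hes e)‖ = 1 := by
  have hnpos : 0 < ‖mm e‖ := norm_pos_iff.mpr hmne
  have hs2 : √‖mm e‖ * √‖mm e‖ = ‖mm e‖ := Real.mul_self_sqrt hnpos.le
  have hs0 : 0 < √‖mm e‖ := Real.sqrt_pos.mpr hnpos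
  generalize √‖mm e‖ = s at hs0 hs2 ⊢
  constructor
  · have := iso_comb s⁻¹ 0 0 s⁻¹ (iso_hes e)
    simpa using this
  · rw [wedge_smul, norm_smul, norm_mul, norm_inv, Real.norm_eq_abs, abs_of_pos hs0]
    have : ‖wedge e (hes e)‖ = s * s := hs2.symm
    rw [this]
    field_simp

/-- the weight -/
structure Wt (χ : (Fin 5 → ℝ) → ℝ) (d α₀ : ℝ) : Prop where
  cts : Continuous χ
  nonneg : ∀ v, 0 ≤ χ v
  dpos : 0 < d
  supp : ∀ v, χ v ≠ 0 → ‖v‖ ≤ 5 ∧ d ≤ ‖mm v‖
  apos : 0 < α₀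
  area_ge : ∀ p q : Fin 5 → ℝ, Iso p q → ‖wedge p q‖ = 1 → α₀ ≤ area χ p q

theorem exists_wt : ∃ (χ : (Fin 5 → ℝ) → ℝ) (d α₀ : ℝ), Wt χ d α₀ ∧ ∃ u0 : Fin 5 → ℝ, mm u0 ≠ 0 ∧ 0 < χ u0 := by
  obtain ⟨d, hd, hdt⟩ := exists_delta
  set χ : (Fin 5 → ℝ) → ℝ := fun v => max 0 (‖mm v‖ - d / 2) * max 0 (5 - ‖v‖) with hχ
  have hcont : Continuous χ := by
    have h := continuous_mm
    fun_prop
  have hnn : ∀ v, 0 ≤ χ v := fun v => mul_nonneg (le_max_left _ _) (le_max_left _ _)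
  have hsupp : ∀ v, χ v ≠ 0 → ‖v‖ ≤ 5 ∧ d / 2 ≤ ‖mm v‖ := by
    intro v hv
    constructor
    · by_contra hcon
      push Not at hcon
      apply hv
      simp only [hχ]
      rw [max_eq_left (a := (0 : ℝ)) (b := 5 - ‖v‖) (by linarith), mul_zero]
    · by_contra hcon
      push Not at hcon
      apply hv
      simp only [hχ]
      rw [max_eq_left (a := (0 : ℝ)) (b := ‖mm v‖ - d / 2) (by linarith), zero_mul]
  have hcs : HasCompactSupport χ := hcs_of_bdd χ 5 (fun u hu => (hsupp u hu).1)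
  have hposv : ∀ v, ‖v‖ ≤ 4 → d ≤ ‖mm v‖ → 0 < χ v := by
    intro v h1 h2
    simp only [hχ]
    apply mul_pos
    · exact lt_of_lt_of_le (by linarith) (le_max_right _ _)
    · exact lt_of_lt_of_le (by linarith) (le_max_right _ _)
  have hapos : ∀ t ∈ KI 2, 0 < area χ t.1 t.2 := by
    intro t ht
    obtain ⟨z, hz1, hz2⟩ := hdt t ht
    rw [area]
    apply Continuous.integral_pos_of_hasCompactSupport_nonneg_nonzero (x := z)
    · exact hcont.comp (by fun_prop)
    · apply HasCompactSupport.of_support_subset_isCompact (isCompact_closedBall (0 : ℝ × ℝ) (2 * 2 * 5))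
      intro y hy
      have h1 := coord_bound ht.1 y
      have h2 := (hsupp _ hy).1
      rw [mem_closedBall_zero_iff, Prod.norm_def]
      apply max_le
      · exact h1.1.trans (by gcongr)
      · exact h1.2.trans (by gcongr)
    · exact fun y => hnn _
    · exact (hposv _ hz1 hz2).ne'
  obtain ⟨α₀, hα₀, hα⟩ : ∃ α₀ : ℝ, 0 < α₀ ∧ ∀ t ∈ KI 2, α₀ ≤ area χ t.1 t.2 := by
    by_cases hne : (KI 2).Nonempty
    · obtain ⟨t0, ht0, hmin⟩ := (isCompact_KI 2).exists_isMinOn hne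
        ((area_cont χ hcont hcs 2 (by norm_num)).mono (fun t ht => ht.1))
      exact ⟨_, hapos t0 ht0, fun t ht => hmin ht⟩
    · exact ⟨1, one_pos, fun t ht => absurd ⟨t, ht⟩ hne⟩
  refine ⟨χ, d / 2, α₀, ⟨hcont, hnn, by positivity, hsupp, hα₀, ?_⟩, ?_⟩
  · intro p q hi hw
    obtain ⟨α, β, γ, δ, hdet, hmem⟩ := exists_balanced p q hi hw
    have h5 : α₀ ≤ area χ (α • p + β • q) (γ • p + δ • q) := hα (α • p + β • q, γ • p + δ • q) hmem
    have h6 := area_comb χ hcont p q α β γ δ hdet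
    exact h5.trans_eq h6
  · -- a point
    obtain ⟨e, hmne⟩ : ∃ e : Fin 5 → ℝ, mm e ≠ 0 := by
      refine ⟨rv r0, fun h => ?_⟩
      have h1 := congrFun h (0, 3)
      rw [← rv_mm] at h1
      simp only [rv, mm_r0', Pi.zero_apply, Int.cast_neg, neg_eq_zero] at h1
      exact fb_ne h1
    obtain ⟨hiso, hwn⟩ := pair_mm e hmne
    obtain ⟨α, β, γ, δ, hdet, hmem⟩ := exists_balanced _ _ hiso hwn
    obtain ⟨z, hz1, hz2⟩ := hdt _ hmem
    refine ⟨_, ?_, hposv _ hz1 hz2⟩
    intro h0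
    rw [h0, norm_zero] at hz2
    linarith

end Pool.Agent.KS6_30.VB
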