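import Pool.Agent.KS6_30.VB.G2

/-!
# The test functions (2)
-/

set_option autoImplicit false
set_option linter.unusedSectionVars false

namespace Pool.Agent.KS6_30.VB

open Filter Topology MeasureTheory Pool.Agent.KS6_30.VA Finset
open Pool.Agent.KS6_30.VA.Tern

variable [Tern]

variable {N : (Fin 5 × Fin 5 → ℝ) → ℝ} {χ : (Fin 5 → ℝ) → ℝ} {d α₀ : ℝ}

/-- the test function -/
noncomputable def GK (χ : (Fin 5 → ℝ) → ℝ) (κ : ℝ) (N : (Fin 5 × Fin 5 → ℝ) → ℝ) (h : ℝ → ℝ)
    (a b K : ℝ) : (Fin 5 → ℝ) × ℝ × ℝ → ℝ := fun z =>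
  (K ^ 2)⁻¹ * χ ((K * √‖mm z.1‖)⁻¹ • z.1) * (κ * ar χ z.1)⁻¹ *
    h ((max z.2.1 0) ^ 4 * N (mm z.1) * max a (min z.2.2 b))

/-- functions with compact support in `(0, ∞)` -/
structure Hf (h : ℝ → ℝ) (h1 h2 : ℝ) : Prop where
  cts : Continuous h
  nonneg : ∀ t, 0 ≤ h t
  pos : 0 < h1
  supp : ∀ t, h t ≠ 0 → h1 ≤ t ∧ t ≤ h2

theorem Wt.zero (hW : Wt χ d α₀) : χ 0 = 0 := by
  by_contra hne
  have := (hW.supp 0 hne).2
  rw [mm_zero, norm_zero] at this
  linarith [hW.dpos]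

/-- the constant -/
noncomputable def M7 : ℝ := 125 * Pool.Agent.KS6_30.VA.KK

theorem M7_pos : 0 < M7 := mul_pos (by norm_num) Pool.Agent.KS6_30.VA.KK_pos

/-- bounds from the support of the weight -/
theorem supp_bounds (hW : Wt χ d α₀) {K : ℝ} (hK : 1 ≤ K) {u : Fin 5 → ℝ}
    (h : χ ((K * √‖mm u‖)⁻¹ • u) ≠ 0) :
    mm u ≠ 0 ∧ 1 / (M7 * K ^ 3) ≤ √‖mm u‖ ∧ √‖mm u‖ ≤ 1 / (K ^ 3 * d) ∧ ‖u‖ ≤ 5 * K * √‖mm u‖ := by
  have hd := hW.dpos
  have hM7 := M7_pos
  have hKK := Pool.Agent.KS6_30.VA.KK_pos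
  have hK0 : 0 < K := by linarith
  have hm : mm u ≠ 0 := by
    intro h0
    apply h
    rw [h0, norm_zero, Real.sqrt_zero, mul_zero, inv_zero, zero_smul]
    exact hW.zero
  have hnpos : 0 < ‖mm u‖ := norm_pos_iff.mpr hm
  have hr0 : 0 < √‖mm u‖ := Real.sqrt_pos.mpr hnpos
  have hr2 : √‖mm u‖ ^ 2 = ‖mm u‖ := Real.sq_sqrt hnpos.le
  obtain ⟨h1, h2⟩ := hW.supp _ h
  rw [norm_smul, norm_inv, Real.norm_eq_abs, abs_of_pos (by positivity), inv_mul_le_iff₀ (by positivity)] at h1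
  rw [mm_smul, norm_smul, norm_pow, norm_inv, Real.norm_eq_abs, abs_of_pos (by positivity)] at h2
  have hle := norm_mm_le u
  set r := √‖mm u‖ with hr
  refine ⟨hm, ?_, ?_, by linarith⟩
  · rw [div_le_iff₀ (by positivity)]
    have h3 : ‖u‖ ^ 3 ≤ (K * r * 5) ^ 3 := pow_le_pow_left₀ (norm_nonneg _) h1 3
    have h4 : r ^ 2 ≤ Pool.Agent.KS6_30.VA.KK * (K * r * 5) ^ 3 := by
      rw [hr2]
      exact hle.trans (mul_le_mul_of_nonneg_left h3 hKK.le)
    have h5 : r ^ 2 * 1 ≤ r ^ 2 * (r * (M7 * K ^ 3)) := by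
      calc r ^ 2 * 1 ≤ Pool.Agent.KS6_30.VA.KK * (K * r * 5) ^ 3 := by linarith
        _ = _ := by rw [M7]; ring
    exact le_of_mul_le_mul_left h5 (by positivity)
  · rw [le_div_iff₀ (by positivity)]
    rw [← hr2] at h2
    have h3 : (K * r)⁻¹ ^ 3 * r ^ 2 = 1 / (K ^ 3 * r) := by
      field_simp
    rw [h3, le_div_iff₀ (by positivity)] at h2
    linarith

theorem GK_tst (hW : Wt χ d α₀) (hN : RN N) {κ : ℝ} (hκ : 0 < κ) {h : ℝ → ℝ} {h1 h2 : ℝ}
    (hh : Hf h h1 h2) {a b K : ℝ} (ha : 0 < a) (hab : a ≤ b) (hK : 1 ≤ K) : Tst (GK χ κ N h a b K) := by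
  have hd := hW.dpos
  have hM7 := M7_pos
  have hK0 : 0 < K := by linarith
  obtain ⟨n0, n1, hn0, hn1, hn⟩ := hN.bounds
  constructor
  · rw [continuous_iff_continuousAt]
    rintro ⟨u, s, τ⟩
    by_cases hu : mm u = 0
    · -- zero in a neighbourhood
      have h3 : ∀ᶠ z : (Fin 5 → ℝ) × ℝ × ℝ in 𝓝 (u, s, τ), √‖mm z.1‖ < 1 / (M7 * K ^ 3) := by
        have h4 : Continuous (fun z : (Fin 5 → ℝ) × ℝ × ℝ => √‖mm z.1‖) := by
          have h := continuous_mm
          fun_prop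
        apply h4.continuousAt.eventually_lt_const
        simp only [hu, norm_zero, Real.sqrt_zero]
        positivity
      have h4 : (GK χ κ N h a b K) =ᶠ[𝓝 (u, s, τ)] fun _ => 0 := by
        filter_upwards [h3] with z hz
        simp only [GK]
        have h5 : χ ((K * √‖mm z.1‖)⁻¹ • z.1) = 0 := by
          by_contra hne
          have := (supp_bounds hW hK hne).2.1
          linarith
        rw [h5]
        simp
      rw [continuousAt_congr h4]
      exact continuousAt_const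
    · have hr0 : 0 < √‖mm u‖ := Real.sqrt_pos.mpr (norm_pos_iff.mpr hu)
      have c1 : ContinuousAt (fun z : (Fin 5 → ℝ) × ℝ × ℝ => χ ((K * √‖mm z.1‖)⁻¹ • z.1)) (u, s, τ) := by
        apply hW.cts.continuousAt.comp
        have c0 : ContinuousAt (fun z : (Fin 5 → ℝ) × ℝ × ℝ => (K * √‖mm z.1‖)⁻¹) (u, s, τ) := by
          apply ContinuousAt.inv₀
          · have h := continuous_mm
            have : Continuous (fun z : (Fin 5 → ℝ) × ℝ × ℝ => K * √‖mm z.1‖) := by fun_prop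
            exact this.continuousAt
          · simp only
            positivity
        exact c0.smul continuousAt_fst
      have c2 : ContinuousAt (fun z : (Fin 5 → ℝ) × ℝ × ℝ => (κ * ar χ z.1)⁻¹) (u, s, τ) := by
        have h3 : ContinuousAt (ar χ) u := (ar_cont hW).continuousAt (isOpen_mm.mem_nhds hu)
        have h4 : ContinuousAt (fun z : (Fin 5 → ℝ) × ℝ × ℝ => ar χ z.1) (u, s, τ) :=
          ContinuousAt.comp (f := fun z : (Fin 5 → ℝ) × ℝ × ℝ => z.1) (g := ar χ) h3 continuousAt_fst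
        apply ContinuousAt.inv₀ (h4.const_mul κ)
        have q1 := ar_ge hW u hu
        have q2 := hW.apos
        have q3 : 0 < ar χ u := by linarith
        simp only
        positivity
      have c3 : ContinuousAt (fun z : (Fin 5 → ℝ) × ℝ × ℝ =>
          h ((max z.2.1 0) ^ 4 * N (mm z.1) * max a (min z.2.2 b))) (u, s, τ) := by
        apply hh.cts.continuousAt.comp
        have h3 : ContinuousAt (fun v : Fin 5 → ℝ => N (mm v)) u := by
          have h5 : ContinuousOn (fun v : Fin 5 → ℝ => N (mm v)) {v | mm v ≠ 0} :=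
            hN.cts.comp continuous_mm.continuousOn (fun v hv => mm_Cn hv)
          exact h5.continuousAt (isOpen_mm.mem_nhds hu)
        have h4 : ContinuousAt (fun z : (Fin 5 → ℝ) × ℝ × ℝ => N (mm z.1)) (u, s, τ) :=
          ContinuousAt.comp (f := fun z : (Fin 5 → ℝ) × ℝ × ℝ => z.1) (g := fun v => N (mm v)) h3 continuousAt_fst
        have h5 : ContinuousAt (fun z : (Fin 5 → ℝ) × ℝ × ℝ => (max z.2.1 0) ^ 4) (u, s, τ) := by
          have : Continuous (fun z : (Fin 5 → ℝ) × ℝ × ℝ => (max z.2.1 0) ^ 4) := by fun_prop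
          exact this.continuousAt
        have h6 : ContinuousAt (fun z : (Fin 5 → ℝ) × ℝ × ℝ => max a (min z.2.2 b)) (u, s, τ) := by
          have : Continuous (fun z : (Fin 5 → ℝ) × ℝ × ℝ => max a (min z.2.2 b)) := by fun_prop
          exact this.continuousAt
        exact (h5.mul h4).mul h6
      exact ((continuousAt_const.mul c1).mul c2).mul c3
  · set m0 : ℝ := 1 / (M7 * K ^ 3) with hm0
    set m1 : ℝ := 1 / (K ^ 3 * d) with hm1
    have hm00 : 0 < m0 := by positivity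
    have hm10 : 0 < m1 := by positivity
    have hb : 0 < b := by linarith
    set c1 : ℝ := h1 / (n1 * m1 ^ 4 * b) with hc1
    set c2 : ℝ := h2 / (n0 * m0 ^ 4 * a) with hc2
    have hh1 := hh.pos
    have hc10 : 0 < c1 := by positivity
    refine ⟨min (m0 ^ 2) (min c1 1), max (5 * K * m1) (max c2 1), by positivity, ?_⟩
    rintro ⟨u, s, τ⟩ hne
    simp only [GK] at hne
    have e1 : χ ((K * √‖mm u‖)⁻¹ • u) ≠ 0 := fun h0 => hne (by rw [h0]; simp)
    have e2 : h ((max s 0) ^ 4 * N (mm u) * max a (min τ b)) ≠ 0 := fun h0 => hne (by rw [h0]; simp)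
    obtain ⟨f1, f2, f3, f4⟩ := supp_bounds hW hK e1
    obtain ⟨g1, g2⟩ := hh.supp _ e2
    have hr2 : √‖mm u‖ ^ 2 = ‖mm u‖ := Real.sq_sqrt (norm_nonneg _)
    have hr4 : ‖mm u‖ ^ 2 = √‖mm u‖ ^ 4 := by
      calc ‖mm u‖ ^ 2 = (√‖mm u‖ ^ 2) ^ 2 := by rw [hr2]
        _ = _ := by ring
    obtain ⟨k1, k2⟩ := hn _ (mm_Cn f1)
    rw [hr4] at k1 k2
    have hr0 : 0 < √‖mm u‖ := hm00.trans_le f2
    simp only
    set r := √‖mm u‖ with hr
    set S := max s 0 with hS
    have hS0 : 0 ≤ S := le_max_right _ _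
    set τ' := max a (min τ b) with hτ'
    have t1 : a ≤ τ' := le_max_left _ _
    have t2 : τ' ≤ b := max_le hab (min_le_right _ _)
    have hτ0 : 0 < τ' := by linarith
    have hNpos : 0 < N (mm u) := hN.pos _ (mm_Cn f1)
    have u1 : N (mm u) ≤ n1 * m1 ^ 4 := k2.trans (by gcongr)
    have u2 : n0 * m0 ^ 4 ≤ N (mm u) := le_trans (by gcongr) k1
    have v1 : c1 ≤ S ^ 4 := by
      rw [hc1, div_le_iff₀ (by positivity)]
      calc h1 ≤ S ^ 4 * N (mm u) * τ' := g1
        _ ≤ S ^ 4 * (n1 * m1 ^ 4) * b := by gcongr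
        _ = _ := by ring
    have v2 : S ^ 4 ≤ c2 := by
      rw [hc2, le_div_iff₀ (by positivity)]
      calc S ^ 4 * (n0 * m0 ^ 4 * a) = S ^ 4 * (n0 * m0 ^ 4) * a := by ring
        _ ≤ S ^ 4 * N (mm u) * τ' := by gcongr
        _ ≤ h2 := g2
    have hSpos : 0 < S := by
      rcases hS0.lt_or_eq with h5 | h5
      · exact h5
      · exfalso
        rw [← h5] at v1
        norm_num at v1
        linarith
    have hSs : S = s := by
      rw [hS]
      apply max_eq_left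
      by_contra hcon
      push Not at hcon
      rw [hS, max_eq_right hcon.le] at hSpos
      exact lt_irrefl _ hSpos
    refine ⟨?_, ?_, ?_, ?_⟩
    · refine le_trans ?_ (le_max_left _ _)
      calc ‖u‖ ≤ 5 * K * r := f4
        _ ≤ 5 * K * m1 := by gcongr
    · refine (min_le_left _ _).trans ?_
      rw [← hr2]
      gcongr
    · refine (min_le_right _ _).trans ?_
      rw [← hSs]
      by_cases h5 : S ≤ 1
      · refine (min_le_left _ _).trans (v1.trans ?_)
        calc S ^ 4 = S * S ^ 3 := by ring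
          _ ≤ S * 1 := by
            gcongr
            exact pow_le_one₀ hS0 h5
          _ = S := mul_one _
      · push Not at h5
        exact (min_le_right _ _).trans h5.le
    · refine le_trans ?_ (le_max_right _ _)
      rw [← hSs]
      by_cases h5 : S ≤ 1
      · exact h5.trans (le_max_right _ _)
      · push Not at h5
        refine le_trans (le_trans ?_ v2) (le_max_left _ _)
        calc S = S * 1 := (mul_one _).symm
          _ ≤ S * S ^ 3 := by
            gcongr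
            exact one_le_pow₀ h5.le
          _ = S ^ 4 := by ring

theorem GK_nonneg (hW : Wt χ d α₀) {κ : ℝ} (hκ : 0 < κ) {h : ℝ → ℝ} {h1 h2 : ℝ}
    (hh : Hf h h1 h2) {a b K : ℝ} (hK : 1 ≤ K) (z : (Fin 5 → ℝ) × ℝ × ℝ) : 0 ≤ GK χ κ N h a b K z := by
  have hK0 : 0 < K := by linarith
  rw [GK]
  by_cases hm : mm z.1 = 0
  · rw [hm, norm_zero, Real.sqrt_zero, mul_zero, inv_zero, zero_smul, hW.zero]
    simp
  · have h3 := ar_ge hW z.1 hm
    have h4 := hW.apos
    have h5 := hW.nonneg ((K * √‖mm z.1‖)⁻¹ • z.1)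
    have h6 := hh.nonneg ((max z.2.1 0) ^ 4 * N (mm z.1) * max a (min z.2.2 b))
    have : 0 < ar χ z.1 := by linarith
    positivity

end Pool.Agent.KS6_30.VB
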