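import Pool.Agent.KS6_30.VB.G3
import Pool.Agent.KS6_30.VA.Ub

/-!
# The sum over vectors as a sum over planes
-/

set_option autoImplicit false
set_option linter.unusedSectionVars false

namespace Pool.Agent.KS6_30.VB

open Filter Topology MeasureTheory Pool.Agent.KS6_30.VA Finset
open Pool.Agent.KS6_30.VA.Tern

variable [Tern]

variable {N : (Fin 5 × Fin 5 → ℝ) → ℝ} {χ : (Fin 5 → ℝ) → ℝ} {d α₀ : ℝ}

open Classical in
/-- the area of a plane -/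
noncomputable def aw (χ : (Fin 5 → ℝ) → ℝ) (w : Fin 5 × Fin 5 → ℤ) : ℝ :=
  if h : ∃ b c : Fin 5 → ℤ, Iso b c ∧ w = wedge b c then
    area χ ((√(nz w))⁻¹ • rv h.choose) ((√(nz w))⁻¹ • rv h.choose_spec.choose) else 1

theorem exists_wedge {w : Fin 5 × Fin 5 → ℤ} (hw : w ∈ VV) : ∃ b c : Fin 5 → ℤ, Iso b c ∧ w = wedge b c :=
  hw.2

theorem aw_spec (χ : (Fin 5 → ℝ) → ℝ) {w : Fin 5 × Fin 5 → ℤ} (hw : w ∈ VV) :
    ∃ b c : Fin 5 → ℤ, Iso b c ∧ w = wedge b c ∧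
      aw χ w = area χ ((√(nz w))⁻¹ • rv b) ((√(nz w))⁻¹ • rv c) := by
  have h := exists_wedge hw
  refine ⟨h.choose, h.choose_spec.choose, h.choose_spec.choose_spec.1, h.choose_spec.choose_spec.2, ?_⟩
  rw [aw, dif_pos h]

theorem rv_Cn {w : Fin 5 × Fin 5 → ℤ} (hw : w ∈ VV) : rv w ∈ Cn ℝ := by
  obtain ⟨b, c, hi, hbc⟩ := exists_wedge hw
  refine ⟨?_, rv b, rv c, ?_, ?_⟩
  · intro h
    apply unimod_ne hw.1
    funext p
    have := congrFun h p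
    simp only [rv, Pi.zero_apply, Int.cast_eq_zero] at this
    exact this
  · obtain ⟨h0, h1, h2⟩ := hi
    simp only [b0, b1, b2] at h0 h1 h2
    refine ⟨?_, ?_, ?_⟩ <;> simp only [b0, b1, b2, rv]
    · exact_mod_cast h0
    · exact_mod_cast h1
    · exact_mod_cast h2
  · rw [wedge_rv, hbc]

theorem norm_pair {w : Fin 5 × Fin 5 → ℤ} (hw : w ∈ VV) {b c : Fin 5 → ℤ} (hi : Iso b c)
    (hbc : w = wedge b c) : Iso ((√(nz w))⁻¹ • rv b) ((√(nz w))⁻¹ • rv c) ∧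
      ‖wedge ((√(nz w))⁻¹ • rv b) ((√(nz w))⁻¹ • rv c)‖ = 1 := by
  have hwpos : 0 < nz w := lt_of_lt_of_le one_pos (one_le_nz' hw.1)
  have hs0 : 0 < √(nz w) := Real.sqrt_pos.mpr hwpos
  have hs2 : √(nz w) * √(nz w) = nz w := Real.mul_self_sqrt hwpos.le
  have hi' : Iso (rv b) (rv c) := by
    obtain ⟨h0, h1, h2⟩ := hi
    simp only [b0, b1, b2] at h0 h1 h2
    refine ⟨?_, ?_, ?_⟩ <;> simp only [b0, b1, b2, rv]
    · exact_mod_cast h0
    · exact_mod_cast h1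
    · exact_mod_cast h2
  have hn : ‖rv w‖ = nz w := rfl
  constructor
  · have := iso_comb (√(nz w))⁻¹ 0 0 (√(nz w))⁻¹ hi'
    simpa using this
  · rw [wedge_smul, wedge_rv, ← hbc, norm_smul, hn, norm_mul, norm_inv, Real.norm_eq_abs, abs_of_pos hs0]
    nth_rewrite 3 [← hs2]
    field_simp

theorem aw_ge (hW : Wt χ d α₀) {w : Fin 5 × Fin 5 → ℤ} (hw : w ∈ VV) : α₀ ≤ aw χ w := by
  obtain ⟨b, c, hi, hbc, h⟩ := aw_spec χ hw
  rw [h]
  exact hW.area_ge _ _ (norm_pair hw hi hbc).1 (norm_pair hw hi hbc).2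

/-- the height data -/
structure Ht (N : (Fin 5 × Fin 5 → ℝ) → ℝ) (Θ : (Fin 5 × Fin 5 → ℤ) → ℝ) (θ : (Fin 5 → ℤ) → ℝ)
    (a b : ℝ) : Prop where
  rn : RN N
  apos : 0 < a
  ab : a ≤ b
  bd : ∀ w ∈ VV, Θ w ∈ Set.Icc a b
  bd' : ∀ x, θ x ∈ Set.Icc a b
  neg : ∀ w ∈ VV, Θ (-w) = Θ w
  eq : ∀ w ∈ VV, ∀ x, Unimod x → In w x → mm x ≠ 0 → θ x = Θ w

variable {Θ : (Fin 5 × Fin 5 → ℤ) → ℝ} {θ : (Fin 5 → ℤ) → ℝ} {a b : ℝ}

theorem GK_val (hW : Wt χ d α₀) (hH : Ht N Θ θ a b) (κ : ℝ) (h : ℝ → ℝ) (K T : ℝ) (hK : 0 < K)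
    (hT : 0 < T) {w : Fin 5 × Fin 5 → ℤ} (hw : w ∈ VV) {x : Fin 5 → ℤ} (hx : Unimod x) (hin : In w x)
    (hm : mm x ≠ 0) :
    GK χ κ N h a b K (fun i => (x i : ℝ) / gg x, (gg x : ℝ) / √T, θ x) =
      (K ^ 2)⁻¹ * χ ((K * √(nz w))⁻¹ • rv x) * (κ * aw χ w)⁻¹ * h (N (rv w) * Θ w / T ^ 2) := by
  obtain ⟨k, hk, hg⟩ := mm_of_in hw hin
  have hg0 := gg_pos hm
  have hg0' : (0 : ℝ) < gg x := by exact_mod_cast hg0
  have hwpos : 0 < nz w := lt_of_lt_of_le one_pos (one_le_nz' hw.1)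
  have hs0 : 0 < √(nz w) := Real.sqrt_pos.mpr hwpos
  have hsT : 0 < √T := Real.sqrt_pos.mpr hT
  have hsT2 : √T ^ 2 = T := Real.sq_sqrt hT.le
  have hu : (fun i => (x i : ℝ) / gg x) = (gg x : ℝ)⁻¹ • rv x := by
    funext i
    simp only [rv, Pi.smul_apply, smul_eq_mul]
    ring
  have hkabs : |(k : ℝ)| = gg x := by
    rw [hg, Nat.cast_natAbs, Int.cast_abs]
  have hmmx : mm (rv x) = (k : ℝ) • rv w := by
    rw [← rv_mm, hk]
    funext p
    simp [rv]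
  have hmmu : mm ((gg x : ℝ)⁻¹ • rv x) = ((gg x : ℝ)⁻¹ ^ 3 * k) • rv w := by
    rw [mm_smul, hmmx, smul_smul]
  have hnw : ‖rv w‖ = nz w := rfl
  have hnu : ‖mm ((gg x : ℝ)⁻¹ • rv x)‖ = (gg x : ℝ)⁻¹ ^ 2 * nz w := by
    rw [hmmu, norm_smul, hnw, Real.norm_eq_abs, abs_mul, hkabs, abs_pow, abs_inv, abs_of_pos hg0']
    field_simp
  have hsu : √‖mm ((gg x : ℝ)⁻¹ • rv x)‖ = (gg x : ℝ)⁻¹ * √(nz w) := by
    rw [hnu, Real.sqrt_mul (by positivity), Real.sqrt_sq (by positivity)]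
  have hmr : mm (rv x) ≠ 0 := by
    rw [hmmx]
    apply smul_ne_zero
    · intro h0
      rw [h0, abs_zero] at hkabs
      linarith
    · exact (rv_Cn hw).1
  have har : ar χ ((gg x : ℝ)⁻¹ • rv x) = aw χ w := by
    rw [ar_smul hW _ hmr _ (by positivity)]
    obtain ⟨b', c', hi', hbc', h'⟩ := aw_spec χ hw
    rw [h']
    exact ar_plane hW hw hbc' hin hm
  rw [GK]
  simp only
  rw [hu, har, hsu]
  have e1 : (K * ((gg x : ℝ)⁻¹ * √(nz w)))⁻¹ • (gg x : ℝ)⁻¹ • rv x = (K * √(nz w))⁻¹ • rv x := by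
    rw [smul_smul]
    congr 1
    field_simp
  rw [e1]
  congr 2
  rw [hmmu, hH.rn.hom _ (rv_Cn hw) _ (by
    intro h0
    rcases mul_eq_zero.mp h0 with h0 | h0
    · have : (0 : ℝ) < (gg x : ℝ)⁻¹ ^ 3 := by positivity
      linarith
    · rw [h0, abs_zero] at hkabs
      linarith)]
  rw [hH.eq w hw x hx hin hm]
  have hb := hH.bd w hw
  have e2 : max a (min (Θ w) b) = Θ w := by
    rw [min_eq_left hb.2, max_eq_right hb.1]
  have e3 : max ((gg x : ℝ) / √T) 0 = (gg x : ℝ) / √T := max_eq_left (by positivity)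
  rw [e2, e3, abs_mul, hkabs, abs_pow, abs_inv, abs_of_pos hg0']
  have e4 : ((gg x : ℝ) / √T) ^ 4 = (gg x : ℝ) ^ 4 / T ^ 2 := by
    rw [div_pow]
    congr 1
    calc √T ^ 4 = (√T ^ 2) ^ 2 := by ring
      _ = T ^ 2 := by rw [hsT2]
  rw [e4]
  field_simp

/-- the number of vectors in the plane, weighted -/
noncomputable def DK (χ : (Fin 5 → ℝ) → ℝ) (K : ℝ) (w : Fin 5 × Fin 5 → ℤ) : ℝ :=
  (∑ᶠ x ∈ {x : Fin 5 → ℤ | Unimod x ∧ In w x}, χ ((K * √(nz w))⁻¹ • rv x)) / K ^ 2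

/-- the planes with bounded norm -/
theorem planes_finite (X : ℝ) : {w ∈ VV | nz w ≤ X}.Finite := by
  obtain ⟨C, hC, h⟩ := ub
  have h1 := (h (max X 1) (le_max_right _ _)).1
  exact h1.subset fun w hw => ⟨hw.1, hw.2.trans (le_max_left _ _)⟩

noncomputable def Wf (X : ℝ) : Finset (Fin 5 × Fin 5 → ℤ) := (planes_finite X).toFinset

theorem mem_Wf (X : ℝ) (w : Fin 5 × Fin 5 → ℤ) : w ∈ Wf X ↔ w ∈ VV ∧ nz w ≤ X := by
  rw [Wf, Set.Finite.mem_toFinset]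
  rfl

theorem VV_neg {w : Fin 5 × Fin 5 → ℤ} (hw : w ∈ VV) : -w ∈ VV := by
  obtain ⟨⟨e, he⟩, x, y, hi, rfl⟩ := hw
  refine ⟨⟨fun p => -e p, by simpa using he⟩, y, x, iso_comm hi, ?_⟩
  exact (wedge_comm x y).symm

theorem nz_eq_neg {ι : Type*} [Fintype ι] (x : ι → ℤ) : nz (-x) = nz x := by
  have : rv (-x) = - rv x := by funext i; simp [rv]
  rw [nz, nz, this, norm_neg]

theorem in_eq_neg {w : Fin 5 × Fin 5 → ℤ} {x : Fin 5 → ℤ} (h : In w x) : In (-w) x := by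
  intro i j k
  have := h i j k
  simp only [Pi.neg_apply]
  linear_combination -this

/-- the two planes of a vector -/
theorem plane_pm {w w' : Fin 5 × Fin 5 → ℤ} (hw : w ∈ VV) (hw' : w' ∈ VV) {x : Fin 5 → ℤ}
    (hin : In w x) (hin' : In w' x) (hm : mm x ≠ 0) : w' = w ∨ w' = -w := by
  obtain ⟨k, hk, hg⟩ := mm_of_in hw hin
  obtain ⟨k', hk', hg'⟩ := mm_of_in hw' hin'
  have h1 : k.natAbs = k'.natAbs := by rw [← hg, ← hg']
  have hk0 : k' ≠ 0 := by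
    rintro rfl
    exact hm (by rw [hk', zero_smul])
  rcases Int.natAbs_eq_natAbs_iff.mp h1 with h2 | h2
  · left
    rw [hk', h2] at hk
    have := smul_right_injective (Fin 5 × Fin 5 → ℤ) hk0 hk
    exact this
  · right
    rw [hk', h2] at hk
    have h3 : k' • w' = k' • (-w) := by rw [hk, smul_neg, neg_smul]
    exact smul_right_injective (Fin 5 × Fin 5 → ℤ) hk0 h3

theorem BS_planes (hW : Wt χ d α₀) (hH : Ht N Θ θ a b) (κ : ℝ) (h : ℝ → ℝ) (K T : ℝ) (hK : 0 < K)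
    (hT : 0 < T) (X : ℝ) (hhX : ∀ w ∈ VV, h (N (rv w) * Θ w / T ^ 2) ≠ 0 → nz w ≤ X) :
    2 * BS (GK χ κ N h a b K) θ T =
      ∑ w ∈ Wf X, (κ * aw χ w)⁻¹ * h (N (rv w) * Θ w / T ^ 2) * DK χ K w := by
  classical
  set R := 5 * K * √X with hR
  set F : (Fin 5 → ℤ) → ℝ := fun x =>
    GK χ κ N h a b K (fun i => (x i : ℝ) / gg x, (gg x : ℝ) / √T, θ x) with hF
  set Xf : Finset (Fin 5 → ℤ) := (nz_fin (ι := Fin 5) R).toFinset.filter (fun x => Unimod x ∧ mm x ≠ 0) with hXf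
  have hmemX : ∀ x, x ∈ Xf ↔ nz x ≤ R ∧ Unimod x ∧ mm x ≠ 0 := by
    intro x
    rw [hXf, Finset.mem_filter, Set.Finite.mem_toFinset]
    rfl
  -- values
  have hsupp : ∀ x, Unimod x → mm x ≠ 0 → F x ≠ 0 → ∃ w ∈ Wf X, In w x := by
    intro x hx hm hne
    obtain ⟨w, hw, hmw, hin⟩ := exists_plane hx hm
    have h1 := GK_val hW hH κ h K T hK hT hw hx hin hm
    simp only [hF] at hne
    rw [h1] at hne
    have h2 : h (N (rv w) * Θ w / T ^ 2) ≠ 0 := right_ne_zero_of_mul hne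
    exact ⟨w, (mem_Wf X w).mpr ⟨hw, hhX w hw h2⟩, hin⟩
  have hchi : ∀ w ∈ Wf X, ∀ x, χ ((K * √(nz w))⁻¹ • rv x) ≠ 0 → nz x ≤ R ∧ mm x ≠ 0 := by
    intro w hw x hne
    obtain ⟨hwV, hwX⟩ := (mem_Wf X w).mp hw
    have hwpos : 0 < nz w := lt_of_lt_of_le one_pos (one_le_nz' hwV.1)
    have hs0 : 0 < √(nz w) := Real.sqrt_pos.mpr hwpos
    obtain ⟨h1, h2⟩ := hW.supp _ hne
    constructor
    · rw [norm_smul, norm_inv, Real.norm_eq_abs, abs_of_pos (by positivity), inv_mul_le_iff₀ (by positivity)] at h1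
      have h3 : nz x ≤ K * √(nz w) * 5 := h1
      calc nz x ≤ K * √(nz w) * 5 := h3
        _ ≤ K * √X * 5 := by gcongr
        _ = R := by rw [hR]; ring
    · intro h0
      rw [mm_smul, ← rv_mm, h0] at h2
      have : rv (0 : Fin 5 × Fin 5 → ℤ) = 0 := by funext p; simp [rv]
      rw [this, smul_zero, norm_zero] at h2
      linarith [hW.dpos]
  have hBS : BS (GK χ κ N h a b K) θ T = ∑ x ∈ Xf, F x := by
    rw [BS, ← finsum_mem_coe_finset]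
    apply finsum_mem_inter_support_eq'
    intro x hx
    rw [Finset.mem_coe, hmemX, Set.mem_ofPred_eq]
    constructor
    · rintro ⟨h1, h2⟩
      refine ⟨?_, h1, h2⟩
      have hx' : F x ≠ 0 := hx
      obtain ⟨w, hw, hin⟩ := hsupp x h1 h2 hx'
      simp only [hF] at hx'
      rw [GK_val hW hH κ h K T hK hT ((mem_Wf X w).mp hw).1 h1 hin h2] at hx'
      have h3 : χ ((K * √(nz w))⁻¹ • rv x) ≠ 0 := by
        intro h0
        apply hx'
        rw [h0]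
        simp
      exact (hchi w hw x h3).1
    · exact fun h1 => h1.2
  have hDK : ∀ w ∈ Wf X, (κ * aw χ w)⁻¹ * h (N (rv w) * Θ w / T ^ 2) * DK χ K w =
      ∑ x ∈ Xf, if In w x then F x else 0 := by
    intro w hw
    obtain ⟨hwV, hwX⟩ := (mem_Wf X w).mp hw
    rw [← Finset.sum_filter]
    have h1 : ∑ᶠ x ∈ {x : Fin 5 → ℤ | Unimod x ∧ In w x}, χ ((K * √(nz w))⁻¹ • rv x) =
        ∑ x ∈ Xf.filter (fun x => In w x), χ ((K * √(nz w))⁻¹ • rv x) := by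
      rw [← finsum_mem_coe_finset]
      apply finsum_mem_inter_support_eq'
      intro x hx
      obtain ⟨h2, h3⟩ := hchi w hw x hx
      rw [Finset.mem_coe, Finset.mem_filter, hmemX, Set.mem_ofPred_eq]
      constructor
      · rintro ⟨h4, h5⟩
        exact ⟨⟨h2, h4, h3⟩, h5⟩
      · rintro ⟨⟨_, h4, _⟩, h5⟩
        exact ⟨h4, h5⟩
    rw [DK, h1, Finset.sum_div, Finset.mul_sum]
    apply Finset.sum_congr rfl
    intro x hx
    rw [Finset.mem_filter, hmemX] at hx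
    simp only [hF]
    rw [GK_val hW hH κ h K T hK hT hwV hx.1.2.1 hx.2 hx.1.2.2]
    ring
  rw [Finset.sum_congr rfl hDK, Finset.sum_comm, hBS, Finset.mul_sum]
  apply Finset.sum_congr rfl
  intro x hx
  rw [hmemX] at hx
  rw [← Finset.sum_filter, Finset.sum_const, nsmul_eq_mul]
  by_cases h0 : F x = 0
  · rw [h0, mul_zero, mul_zero]
  · congr 1
    obtain ⟨w, hw, hin⟩ := hsupp x hx.2.1 hx.2.2 h0
    obtain ⟨hwV, hwX⟩ := (mem_Wf X w).mp hw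
    have h2 : (Wf X).filter (fun w => In w x) = {w, -w} := by
      ext w'
      rw [Finset.mem_filter, Finset.mem_insert, Finset.mem_singleton]
      constructor
      · rintro ⟨h3, h4⟩
        exact plane_pm hwV ((mem_Wf X w').mp h3).1 hin h4 hx.2.2
      · rintro (rfl | rfl)
        · exact ⟨hw, hin⟩
        · exact ⟨(mem_Wf X _).mpr ⟨VV_neg hwV, by rw [nz_eq_neg]; exact hwX⟩, in_eq_neg hin⟩
    have h3 : w ≠ -w := by
      intro h4
      apply unimod_ne hwV.1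
      funext p
      have := congrFun h4 p
      simp only [Pi.neg_apply] at this
      rw [Pi.zero_apply]
      omega
    rw [h2, Finset.card_pair h3]
    norm_num

end Pool.Agent.KS6_30.VB
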