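import Pool.Agent.KS6_30.VB.G4
import Pool.Agent.KS6_30.VA.Ln2

/-!
# The limit for smooth weights
-/

set_option autoImplicit false
set_option linter.unusedSectionVars false

namespace Pool.Agent.KS6_30.VB

open Filter Topology MeasureTheory Pool.Agent.KS6_30.VA Finset
open Pool.Agent.KS6_30.VA.Tern

variable [Tern]

variable {N : (Fin 5 × Fin 5 → ℝ) → ℝ} {χ : (Fin 5 → ℝ) → ℝ} {d α₀ : ℝ}
variable {Θ : (Fin 5 × Fin 5 → ℤ) → ℝ} {θ : (Fin 5 → ℤ) → ℝ} {a b : ℝ}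

/-- the smooth sum over the planes on no rational line -/
noncomputable def SU (N : (Fin 5 × Fin 5 → ℝ) → ℝ) (Θ : (Fin 5 × Fin 5 → ℤ) → ℝ) (h : ℝ → ℝ) (T : ℝ) : ℝ :=
  ∑ᶠ w ∈ {w : Fin 5 × Fin 5 → ℤ | w ∈ VV ∧ UU w}, h (N (rv w) * Θ w / T ^ 2)

open Classical in
theorem SU_eq (h : ℝ → ℝ) (T X : ℝ) (hhX : ∀ w ∈ VV, h (N (rv w) * Θ w / T ^ 2) ≠ 0 → nz w ≤ X) :
    SU N Θ h T = ∑ w ∈ (Wf X).filter (fun w => UU w), h (N (rv w) * Θ w / T ^ 2) := by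
  rw [SU, ← finsum_mem_coe_finset]
  apply finsum_mem_inter_support_eq'
  intro w hw
  rw [Finset.mem_coe, Finset.mem_filter, mem_Wf, Set.mem_ofPred_eq]
  constructor
  · rintro ⟨h1, h2⟩
    exact ⟨⟨h1, hhX w h1 hw⟩, h2⟩
  · rintro ⟨⟨h1, _⟩, h2⟩
    exact ⟨h1, h2⟩

/-- the bound of the norm of the planes with bounded height -/
theorem exists_X (hH : Ht N Θ θ a b) {h : ℝ → ℝ} {h1 h2 : ℝ} (hh : Hf h h1 h2) :
    ∃ c : ℝ, 0 < c ∧ ∀ T : ℝ, 0 < T → ∀ w ∈ VV, h (N (rv w) * Θ w / T ^ 2) ≠ 0 → nz w ≤ c * T := by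
  obtain ⟨n0, n1, hn0, hn1, hn⟩ := hH.rn.bounds
  have ha := hH.apos
  refine ⟨√(|h2| / (n0 * a)) + 1, by positivity, fun T hT w hw hne => ?_⟩
  have h3 := (hh.supp _ hne).2
  have h4 := (hn _ (rv_Cn hw)).1
  have h5 := (hH.bd w hw).1
  have hwpos : 0 < nz w := lt_of_lt_of_le one_pos (one_le_nz' hw.1)
  have hnw : ‖rv w‖ = nz w := rfl
  rw [hnw] at h4
  rw [div_le_iff₀ (by positivity)] at h3
  have h6 : n0 * nz w ^ 2 * a ≤ |h2| * T ^ 2 := by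
    calc n0 * nz w ^ 2 * a ≤ N (rv w) * Θ w := by
          apply mul_le_mul h4 h5 ha.le
          have : 0 ≤ n0 * nz w ^ 2 := by positivity
          linarith
      _ ≤ h2 * T ^ 2 := h3
      _ ≤ |h2| * T ^ 2 := by gcongr; exact le_abs_self _
  have h7 : nz w ≤ √(|h2| / (n0 * a)) * T := by
    have h8 : nz w ^ 2 ≤ (√(|h2| / (n0 * a)) * T) ^ 2 := by
      rw [mul_pow, Real.sq_sqrt (by positivity), div_mul_eq_mul_div, le_div_iff₀ (by positivity)]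
      linarith
    exact le_of_sq_le_sq h8 (by positivity)
  calc nz w ≤ √(|h2| / (n0 * a)) * T := h7
    _ ≤ (√(|h2| / (n0 * a)) + 1) * T := by gcongr; linarith

theorem Hf.bdd {h : ℝ → ℝ} {h1 h2 : ℝ} (hh : Hf h h1 h2) : ∃ M : ℝ, 0 < M ∧ ∀ t, h t ≤ M := by
  have hcs : HasCompactSupport h := by
    apply HasCompactSupport.of_support_subset_isCompact (isCompact_Icc (a := h1) (b := h2))
    intro t ht
    exact hh.supp t ht
  obtain ⟨C, hC⟩ := hh.cts.bounded_above_of_compact_support hcs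
  refine ⟨max C 1, by positivity, fun t => ?_⟩
  exact ((le_abs_self _).trans (hC t)).trans (le_max_left _ _)

theorem Wt.bdd (hW : Wt χ d α₀) : ∃ M : ℝ, 0 < M ∧ ∀ t, χ t ≤ M := by
  obtain ⟨C, hC⟩ := hW.cts.bounded_above_of_compact_support hW.hcs
  refine ⟨max C 1, by positivity, fun t => ?_⟩
  exact ((le_abs_self _).trans (hC t)).trans (le_max_left _ _)

/-- bound for `DK` -/
theorem DK_bound (hW : Wt χ d α₀) : ∃ D0 : ℝ, 0 < D0 ∧ ∀ K : ℝ, 1 ≤ K → ∀ w ∈ VV,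
    0 ≤ DK χ K w ∧ DK χ K w ≤ D0 ∧ (DK χ K w ≠ 0 → ∃ x, Unimod x ∧ In w x ∧ mm x ≠ 0 ∧
      nz x ^ 2 ≤ (25 * K ^ 2) * nz w) := by
  classical
  obtain ⟨M, hM, hχM⟩ := hW.bdd
  refine ⟨M * 208, by positivity, fun K hK w hw => ?_⟩
  have hK0 : 0 < K := by linarith
  have hwpos : 0 < nz w := lt_of_lt_of_le one_pos (one_le_nz' hw.1)
  have hs0 : 0 < √(nz w) := Real.sqrt_pos.mpr hwpos
  have hs2 : √(nz w) ^ 2 = nz w := Real.sq_sqrt hwpos.le
  have hchi : ∀ x, χ ((K * √(nz w))⁻¹ • rv x) ≠ 0 → nz x ≤ 5 * K * √(nz w) ∧ mm x ≠ 0 := by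
    intro x hne
    obtain ⟨h1, h2⟩ := hW.supp _ hne
    constructor
    · rw [norm_smul, norm_inv, Real.norm_eq_abs, abs_of_pos (by positivity), inv_mul_le_iff₀ (by positivity)] at h1
      have h3 : nz x ≤ K * √(nz w) * 5 := h1
      linarith
    · intro h0
      rw [mm_smul, ← rv_mm, h0] at h2
      have : rv (0 : Fin 5 × Fin 5 → ℤ) = 0 := by funext p; simp [rv]
      rw [this, smul_zero, norm_zero] at h2
      linarith [hW.dpos]
  obtain ⟨hfin, hcard⟩ := pl w hw (5 * K * √(nz w)) (by positivity)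
  set Sx := hfin.toFinset with hSx
  have hsum : ∑ᶠ x ∈ {x : Fin 5 → ℤ | Unimod x ∧ In w x}, χ ((K * √(nz w))⁻¹ • rv x) =
      ∑ x ∈ Sx, χ ((K * √(nz w))⁻¹ • rv x) := by
    rw [← finsum_mem_coe_finset]
    apply finsum_mem_inter_support_eq'
    intro x hx
    obtain ⟨h2, h3⟩ := hchi x hx
    rw [Finset.mem_coe, hSx, Set.Finite.mem_toFinset]
    constructor
    · rintro ⟨h4, h5⟩
      exact ⟨h4, h5, h2⟩
    · rintro ⟨h4, h5, _⟩
      exact ⟨h4, h5⟩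
  have hnn : 0 ≤ ∑ x ∈ Sx, χ ((K * √(nz w))⁻¹ • rv x) := Finset.sum_nonneg fun x _ => hW.nonneg _
  rw [DK, hsum]
  refine ⟨by positivity, ?_, ?_⟩
  · rw [div_le_iff₀ (by positivity)]
    have h1 : ((Sx.card : ℕ) : ℝ) ≤ 8 * (5 * K * √(nz w)) ^ 2 / nz w + 8 := by
      rw [Set.ncard_eq_toFinset_card _ hfin] at hcard
      exact hcard
    have h2 : 8 * (5 * K * √(nz w)) ^ 2 / nz w + 8 ≤ 208 * K ^ 2 := by
      have h3 : 8 * (5 * K * √(nz w)) ^ 2 / nz w = 200 * K ^ 2 := by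
        rw [mul_pow, hs2]
        field_simp
        ring
      rw [h3]
      nlinarith
    calc ∑ x ∈ Sx, χ ((K * √(nz w))⁻¹ • rv x) ≤ ∑ x ∈ Sx, M := Finset.sum_le_sum fun x _ => hχM _
      _ = Sx.card * M := by rw [Finset.sum_const, nsmul_eq_mul]
      _ ≤ (208 * K ^ 2) * M := by gcongr; exact h1.trans h2
      _ = _ := by ring
  · intro hne
    have h1 : ∑ x ∈ Sx, χ ((K * √(nz w))⁻¹ • rv x) ≠ 0 := by
      intro h0
      apply hne
      rw [h0, zero_div]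
    obtain ⟨x, hx, hx2⟩ := Finset.exists_ne_zero_of_sum_ne_zero h1
    obtain ⟨h2, h3⟩ := hchi x hx2
    rw [hSx, Set.Finite.mem_toFinset] at hx
    refine ⟨x, hx.1, hx.2.1, h3, ?_⟩
    calc nz x ^ 2 ≤ (5 * K * √(nz w)) ^ 2 := pow_le_pow_left₀ (nz_nonneg _) h2 2
      _ = 25 * K ^ 2 * √(nz w) ^ 2 := by ring
      _ = _ := by rw [hs2]

/-- the main comparison: planes against vectors -/
theorem compare (hW : Wt χ d α₀) (hH : Ht N Θ θ a b) {κ : ℝ} (hκ : 0 < κ)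
    (hkl : ∀ ξ ε : ℝ, 0 < ξ → 0 < ε → ∃ K₀ : ℝ, 1 ≤ K₀ ∧ ∀ K : ℝ, K₀ ≤ K → ∀ w ∈ VV,
      (∀ x, Unimod x → In w x → ξ * √(nz w) ≤ nz x) → |DK χ K w - κ * aw χ w| ≤ ε)
    {h : ℝ → ℝ} {h1 h2 : ℝ} (hh : Hf h h1 h2) (ε : ℝ) (hε : 0 < ε) :
    ∃ K : ℝ, 1 ≤ K ∧ ∀ᶠ T : ℝ in atTop,
      |2 * BS (GK χ κ N h a b K) θ T - SU N Θ h T| ≤ ε * T ^ 2 := by
  classical
  obtain ⟨c, hc, hcX⟩ := exists_X hH hh
  obtain ⟨M, hM, hhM⟩ := hh.bdd
  obtain ⟨D0, hD0, hD⟩ := DK_bound hW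
  obtain ⟨Cu, hCu, hub⟩ := ub
  obtain ⟨Cs, hCs, hsk⟩ := sk
  have hα := hW.apos
  set q := (κ * α₀)⁻¹ with hq
  have hq0 : 0 < q := by positivity
  -- ξ
  obtain ⟨ξ, hξ, hξ2⟩ : ∃ ξ : ℝ, 0 < ξ ∧ M * (q * D0 + 1) * (Cs * ξ ^ 2 * c ^ 2) ≤ ε / 3 := by
    set y := ε / 3 / (M * (q * D0 + 1) * (Cs * c ^ 2)) with hy
    have hy0 : 0 < y := by positivity
    refine ⟨√y, Real.sqrt_pos.mpr hy0, ?_⟩
    rw [Real.sq_sqrt hy0.le, hy]
    apply le_of_eq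
    field_simp
  set ε₁ := ε / 3 / (M * q * (Cu * c ^ 2)) with hε₁
  have hε₁0 : 0 < ε₁ := by positivity
  obtain ⟨K, hK1, hK⟩ := hkl ξ ε₁ hξ hε₁0
  refine ⟨K, hK1, ?_⟩
  have hK0 : 0 < K := by linarith
  set ε₂ := ε / 3 / (M * (q * D0) * c ^ 2) with hε₂
  have hε₂0 : 0 < ε₂ := by positivity
  obtain ⟨T₀, hln⟩ := ln (25 * K ^ 2) ε₂ (by positivity) hε₂0
  filter_upwards [eventually_ge_atTop (T₀ / c), eventually_ge_atTop (1 / c), eventually_gt_atTop 0] with T hT1 hT2 hT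
  set X := c * T with hX
  have hX1 : 1 ≤ X := by
    rw [div_le_iff₀ hc] at hT2
    rw [hX]; linarith
  have hXT : T₀ ≤ X := by
    rw [div_le_iff₀ hc] at hT1
    rw [hX]; linarith
  have hhX := hcX T hT
  rw [BS_planes hW hH κ h K T hK0 hT X hhX, SU_eq h T X hhX, Finset.sum_filter, ← Finset.sum_sub_distrib]
  -- the three sets
  set W := Wf X with hWf
  set P2 : (Fin 5 × Fin 5 → ℤ) → Prop := fun w => UU w ∧ ∃ x, Unimod x ∧ In w x ∧ nz x ≤ ξ * √X with hP2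
  set P3 : (Fin 5 × Fin 5 → ℤ) → Prop := fun w => ¬ UU w ∧ ∃ x, Unimod x ∧ In w x ∧ mm x ≠ 0 ∧
    nz x ^ 2 ≤ (25 * K ^ 2) * nz w with hP3
  have hpt : ∀ w ∈ W, |(κ * aw χ w)⁻¹ * h (N (rv w) * Θ w / T ^ 2) * DK χ K w -
      (if UU w then h (N (rv w) * Θ w / T ^ 2) else 0)| ≤
      M * q * ε₁ + (if P2 w then M * (q * D0 + 1) else 0) + (if P3 w then M * (q * D0) else 0) := by
    intro w hw
    obtain ⟨hwV, hwX⟩ := (mem_Wf X w).mp hw
    have haw := aw_ge hW hwV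
    have haw0 : 0 < aw χ w := by linarith
    have hq1 : (κ * aw χ w)⁻¹ ≤ q := by
      rw [hq]
      apply inv_anti₀ (by positivity)
      gcongr
    have hq2 : 0 < (κ * aw χ w)⁻¹ := by positivity
    obtain ⟨d1, d2, d3⟩ := hD K hK1 w hwV
    have hy0 := hh.nonneg (N (rv w) * Θ w / T ^ 2)
    have hyM := hhM (N (rv w) * Θ w / T ^ 2)
    set y := h (N (rv w) * Θ w / T ^ 2) with hy
    have n1 : 0 ≤ M * q * ε₁ := by positivity
    have n2 : 0 ≤ (if P2 w then M * (q * D0 + 1) else 0) := by split_ifs <;> positivity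
    have n3 : 0 ≤ (if P3 w then M * (q * D0) else 0) := by split_ifs <;> positivity
    have hm1 : (κ * aw χ w)⁻¹ * DK χ K w ≤ q * D0 := mul_le_mul hq1 d2 d1 hq0.le
    have hm0 : 0 ≤ (κ * aw χ w)⁻¹ * DK χ K w := mul_nonneg hq2.le d1
    by_cases hU : UU w
    · rw [if_pos hU]
      have e1 : (κ * aw χ w)⁻¹ * y * DK χ K w - y = y * ((κ * aw χ w)⁻¹ * DK χ K w - 1) := by ring
      rw [e1, abs_mul, abs_of_nonneg hy0]
      by_cases hs : ∀ x, Unimod x → In w x → ξ * √(nz w) ≤ nz x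
      · have h3 := hK K le_rfl w hwV hs
        have e2 : (κ * aw χ w)⁻¹ * DK χ K w - 1 = (κ * aw χ w)⁻¹ * (DK χ K w - κ * aw χ w) := by
          field_simp
        rw [e2, abs_mul, abs_of_pos hq2]
        calc y * ((κ * aw χ w)⁻¹ * |DK χ K w - κ * aw χ w|) ≤ M * (q * ε₁) := by gcongr
          _ = M * q * ε₁ := by ring
          _ ≤ _ := by linarith
      · push Not at hs
        obtain ⟨x, hx1, hx2, hx3⟩ := hs
        have hP : P2 w := by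
          refine ⟨hU, x, hx1, hx2, hx3.le.trans ?_⟩
          gcongr
        rw [if_pos hP]
        have h3 : |(κ * aw χ w)⁻¹ * DK χ K w - 1| ≤ q * D0 + 1 := by
          rw [abs_le]
          have : 0 < q * D0 := by positivity
          constructor <;> linarith
        calc y * |(κ * aw χ w)⁻¹ * DK χ K w - 1| ≤ M * (q * D0 + 1) := by gcongr
          _ ≤ _ := by linarith
    · rw [if_neg hU, sub_zero]
      by_cases hd0 : DK χ K w = 0
      · rw [hd0, mul_zero, abs_zero]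
        linarith
      · obtain ⟨x, hx⟩ := d3 hd0
        have hP : P3 w := ⟨hU, x, hx⟩
        rw [if_pos hP]
        have e1 : (κ * aw χ w)⁻¹ * y * DK χ K w = y * ((κ * aw χ w)⁻¹ * DK χ K w) := by ring
        rw [e1, abs_mul, abs_of_nonneg hy0, abs_of_nonneg hm0]
        calc y * ((κ * aw χ w)⁻¹ * DK χ K w) ≤ M * (q * D0) := by gcongr
          _ ≤ _ := by linarith
  have hcW : (W.card : ℝ) ≤ Cu * X ^ 2 := by
    have := (hub X hX1).2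
    rw [Set.ncard_eq_toFinset_card _ (planes_finite X)] at this
    exact this
  have hc2 : ((W.filter P2).card : ℝ) ≤ Cs * ξ ^ 2 * X ^ 2 := by
    refine le_trans ?_ (hsk X ξ hX1 hξ)
    have h3 : ((W.filter P2 : Finset _) : Set (Fin 5 × Fin 5 → ℤ)) ⊆
        {w ∈ VV | nz w ≤ X ∧ UU w ∧ ∃ x, Unimod x ∧ In w x ∧ nz x ≤ ξ * √X} := by
      intro w hw
      rw [Finset.mem_coe, Finset.mem_filter, hWf, mem_Wf] at hw
      exact ⟨hw.1.1, hw.1.2, hw.2.1, hw.2.2⟩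
    have h4 := Set.ncard_le_ncard h3 ((planes_finite X).subset fun w hw => ⟨hw.1, hw.2.1⟩)
    rw [Set.ncard_coe_finset] at h4
    exact_mod_cast h4
  have hc3 : ((W.filter P3).card : ℝ) ≤ ε₂ * X ^ 2 := by
    refine le_trans ?_ (hln X hXT)
    have h3 : ((W.filter P3 : Finset _) : Set (Fin 5 × Fin 5 → ℤ)) ⊆
        {w ∈ VV | nz w ≤ X ∧ ¬ UU w ∧ ∃ x, Unimod x ∧ In w x ∧ mm x ≠ 0 ∧ nz x ^ 2 ≤ (25 * K ^ 2) * nz w} := by
      intro w hw
      rw [Finset.mem_coe, Finset.mem_filter, hWf, mem_Wf] at hw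
      exact ⟨hw.1.1, hw.1.2, hw.2.1, hw.2.2⟩
    have h4 := Set.ncard_le_ncard h3 ((planes_finite X).subset fun w hw => ⟨hw.1, hw.2.1⟩)
    rw [Set.ncard_coe_finset] at h4
    exact_mod_cast h4
  calc _ ≤ ∑ w ∈ W, _ := Finset.abs_sum_le_sum_abs _ _
    _ ≤ ∑ w ∈ W, (M * q * ε₁ + (if P2 w then M * (q * D0 + 1) else 0) + (if P3 w then M * (q * D0) else 0)) :=
        Finset.sum_le_sum hpt
    _ = M * q * ε₁ * W.card + M * (q * D0 + 1) * (W.filter P2).card + M * (q * D0) * (W.filter P3).card := by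
        rw [Finset.sum_add_distrib, Finset.sum_add_distrib, Finset.sum_const, nsmul_eq_mul,
          ← Finset.sum_filter, ← Finset.sum_filter, Finset.sum_const, Finset.sum_const, nsmul_eq_mul,
          nsmul_eq_mul]
        ring
    _ ≤ M * q * ε₁ * (Cu * X ^ 2) + M * (q * D0 + 1) * (Cs * ξ ^ 2 * X ^ 2) + M * (q * D0) * (ε₂ * X ^ 2) := by
        gcongr
    _ = (M * q * ε₁ * (Cu * c ^ 2) + M * (q * D0 + 1) * (Cs * ξ ^ 2 * c ^ 2) + M * (q * D0) * c ^ 2 * ε₂) * T ^ 2 := by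
        rw [hX]; ring
    _ ≤ (ε / 3 + ε / 3 + ε / 3) * T ^ 2 := by
        have e1 : M * q * ε₁ * (Cu * c ^ 2) = ε / 3 := by rw [hε₁]; field_simp
        have e2 : M * (q * D0) * c ^ 2 * ε₂ = ε / 3 := by rw [hε₂]; field_simp
        rw [e1, e2]
        gcongr
    _ = ε * T ^ 2 := by ring

end Pool.Agent.KS6_30.VB
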