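import Pool.Agent.KS6_30.VB.G5

/-!
# The limit for smooth weights (2)
-/

set_option autoImplicit false
set_option linter.unusedSectionVars false

namespace Pool.Agent.KS6_30.VB

open Filter Topology MeasureTheory Pool.Agent.KS6_30.VA Finset
open Pool.Agent.KS6_30.VA.Tern

variable [Tern]

variable {N : (Fin 5 × Fin 5 → ℝ) → ℝ} {χ : (Fin 5 → ℝ) → ℝ} {d α₀ : ℝ}
variable {Θ : (Fin 5 × Fin 5 → ℤ) → ℝ} {θ : (Fin 5 → ℤ) → ℝ} {a b : ℝ}

theorem upper (hW : Wt χ d α₀) (hH : Ht N Θ θ a b) {κ : ℝ} (hκ : 0 < κ)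
    {h : ℝ → ℝ} {h1 h2 : ℝ} (hh : Hf h h1 h2) : ∃ C : ℝ, 0 < C ∧ ∀ ε : ℝ, 0 < ε → ∀ᶠ T : ℝ in atTop,
      2 * BS (GK χ κ N h a b 1) θ T ≤ C * SU N Θ h T + ε * T ^ 2 := by
  classical
  obtain ⟨c, hc, hcX⟩ := exists_X hH hh
  obtain ⟨M, hM, hhM⟩ := hh.bdd
  obtain ⟨D0, hD0, hD⟩ := DK_bound hW
  have hα := hW.apos
  set q := (κ * α₀)⁻¹ with hq
  have hq0 : 0 < q := by positivity
  refine ⟨q * D0, by positivity, fun ε hε => ?_⟩
  set ε₂ := ε / (M * (q * D0) * c ^ 2) with hε₂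
  have hε₂0 : 0 < ε₂ := by positivity
  obtain ⟨T₀, hln⟩ := ln (25 * 1 ^ 2) ε₂ (by positivity) hε₂0
  filter_upwards [eventually_ge_atTop (T₀ / c), eventually_gt_atTop 0] with T hT1 hT
  set X := c * T with hX
  have hXT : T₀ ≤ X := by
    rw [div_le_iff₀ hc] at hT1
    rw [hX]; linarith
  have hhX := hcX T hT
  rw [BS_planes hW hH κ h 1 T one_pos hT X hhX, SU_eq h T X hhX, Finset.sum_filter]
  set W := Wf X with hWf
  set P3 : (Fin 5 × Fin 5 → ℤ) → Prop := fun w => ¬ UU w ∧ ∃ x, Unimod x ∧ In w x ∧ mm x ≠ 0 ∧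
    nz x ^ 2 ≤ (25 * (1 : ℝ) ^ 2) * nz w with hP3
  have hpt : ∀ w ∈ W, (κ * aw χ w)⁻¹ * h (N (rv w) * Θ w / T ^ 2) * DK χ 1 w ≤
      q * D0 * (if UU w then h (N (rv w) * Θ w / T ^ 2) else 0) + (if P3 w then M * (q * D0) else 0) := by
    intro w hw
    obtain ⟨hwV, hwX⟩ := (mem_Wf X w).mp hw
    have haw := aw_ge hW hwV
    have haw0 : 0 < aw χ w := by linarith
    have hq1 : (κ * aw χ w)⁻¹ ≤ q := by
      rw [hq]
      apply inv_anti₀ (by positivity)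
      gcongr
    have hq2 : 0 < (κ * aw χ w)⁻¹ := by positivity
    obtain ⟨d1, d2, d3⟩ := hD 1 le_rfl w hwV
    have hy0 := hh.nonneg (N (rv w) * Θ w / T ^ 2)
    have hyM := hhM (N (rv w) * Θ w / T ^ 2)
    set y := h (N (rv w) * Θ w / T ^ 2) with hy
    have n3 : 0 ≤ (if P3 w then M * (q * D0) else 0) := by split_ifs <;> positivity
    have hm1 : (κ * aw χ w)⁻¹ * DK χ 1 w ≤ q * D0 := mul_le_mul hq1 d2 d1 hq0.le
    have hm0 : 0 ≤ (κ * aw χ w)⁻¹ * DK χ 1 w := mul_nonneg hq2.le d1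
    have e1 : (κ * aw χ w)⁻¹ * y * DK χ 1 w = y * ((κ * aw χ w)⁻¹ * DK χ 1 w) := by ring
    by_cases hU : UU w
    · rw [if_pos hU, e1]
      calc y * ((κ * aw χ w)⁻¹ * DK χ 1 w) ≤ y * (q * D0) := by gcongr
        _ ≤ _ := by linarith
    · rw [if_neg hU, mul_zero, zero_add]
      by_cases hd0 : DK χ 1 w = 0
      · rw [hd0, mul_zero]
        exact n3
      · obtain ⟨x, hx⟩ := d3 hd0
        have hP : P3 w := ⟨hU, x, hx⟩
        rw [if_pos hP, e1]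
        gcongr
  have hc3 : ((W.filter P3).card : ℝ) ≤ ε₂ * X ^ 2 := by
    refine le_trans ?_ (hln X hXT)
    have h3 : ((W.filter P3 : Finset _) : Set (Fin 5 × Fin 5 → ℤ)) ⊆
        {w ∈ VV | nz w ≤ X ∧ ¬ UU w ∧ ∃ x, Unimod x ∧ In w x ∧ mm x ≠ 0 ∧ nz x ^ 2 ≤ (25 * 1 ^ 2) * nz w} := by
      intro w hw
      rw [Finset.mem_coe, Finset.mem_filter, hWf, mem_Wf] at hw
      exact ⟨hw.1.1, hw.1.2, hw.2.1, hw.2.2⟩
    have h4 := Set.ncard_le_ncard h3 ((planes_finite X).subset fun w hw => ⟨hw.1, hw.2.1⟩)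
    rw [Set.ncard_coe_finset] at h4
    exact_mod_cast h4
  calc _ ≤ ∑ w ∈ W, (q * D0 * (if UU w then h (N (rv w) * Θ w / T ^ 2) else 0) + (if P3 w then M * (q * D0) else 0)) :=
        Finset.sum_le_sum hpt
    _ = q * D0 * (∑ w ∈ W, if UU w then h (N (rv w) * Θ w / T ^ 2) else 0) + M * (q * D0) * (W.filter P3).card := by
        rw [Finset.sum_add_distrib, ← Finset.mul_sum, ← Finset.sum_filter (p := P3), Finset.sum_const, nsmul_eq_mul]
        ring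
    _ ≤ q * D0 * (∑ w ∈ W, if UU w then h (N (rv w) * Θ w / T ^ 2) else 0) + M * (q * D0) * (ε₂ * X ^ 2) := by
        gcongr
    _ = _ := by
        congr 1
        rw [hX, hε₂]
        field_simp

theorem SU_limit (hH : Ht N Θ θ a b) (P : Finset ℕ) (hP : ∀ p ∈ P, p.Prime) (hadm : Adm P θ)
    {h : ℝ → ℝ} {h1 h2 : ℝ} (hh : Hf h h1 h2) :
    ∃ L : ℝ, Tendsto (fun T => SU N Θ h T / T ^ 2) atTop (𝓝 L) ∧
      ((∃ t1 : ℝ, 0 < t1 ∧ ∀ t ∈ Set.Icc t1 (t1 * (b / a)), 0 < h t) → 0 < L) := by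
  obtain ⟨χ, d, α₀, hW, u0, hu0, hχ0⟩ := exists_wt
  obtain ⟨κ, hκ, hkl⟩ := kl
  have ha := hH.apos
  have hab := hH.ab
  have hb : 0 < b := by linarith
  have hkl' : ∀ ξ ε : ℝ, 0 < ξ → 0 < ε → ∃ K₀ : ℝ, 1 ≤ K₀ ∧ ∀ K : ℝ, K₀ ≤ K → ∀ w ∈ VV,
      (∀ x, Unimod x → In w x → ξ * √(nz w) ≤ nz x) → |DK χ K w - κ * aw χ w| ≤ ε := by
    intro ξ ε hξ hε
    obtain ⟨K₀, hK1, hK⟩ := hkl χ hW.cts hW.hcs ξ ε hξ hε
    refine ⟨K₀, hK1, fun K hKK w hw hs => ?_⟩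
    obtain ⟨b', c', hi, hbc, haw⟩ := aw_spec χ hw
    rw [haw, DK]
    exact hK K hKK w hw hs b' c' hi hbc
  have hlimK : ∀ K : ℝ, 1 ≤ K → ∃ L : ℝ, Tendsto (fun T => BS (GK χ κ N h a b K) θ T / T ^ 2) atTop (𝓝 L) ∧
      ((∀ z, 0 ≤ GK χ κ N h a b K z) → (∃ u s, ∀ τ ∈ Set.Icc a b, 0 < GK χ κ N h a b K (u, s, τ)) → 0 < L) := by
    intro K hK
    exact bl P hP θ hadm a b ha hH.bd' (GK χ κ N h a b K) (GK_tst hW hH.rn hκ hh ha hab hK)
  obtain ⟨L, hL⟩ := exists_limit (fun T => SU N Θ h T / T ^ 2) (by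
    intro ε hε
    obtain ⟨K, hK, hev⟩ := compare hW hH hκ hkl' hh (ε / 2) (by positivity)
    obtain ⟨LK, hLK, -⟩ := hlimK K hK
    refine ⟨2 * LK, ?_⟩
    have h3 := (Metric.tendsto_nhds.mp (hLK.const_mul 2)) (ε / 2) (by positivity)
    filter_upwards [hev, h3, eventually_gt_atTop 0] with T hev h3 hT
    rw [Real.dist_eq] at h3
    have hT2 : 0 < T ^ 2 := by positivity
    have h4 : |2 * (BS (GK χ κ N h a b K) θ T / T ^ 2) - SU N Θ h T / T ^ 2| ≤ ε / 2 := by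
      have : 2 * (BS (GK χ κ N h a b K) θ T / T ^ 2) - SU N Θ h T / T ^ 2 =
          (2 * BS (GK χ κ N h a b K) θ T - SU N Θ h T) / T ^ 2 := by ring
      rw [this, abs_div, abs_of_pos hT2, div_le_iff₀ hT2]
      exact hev
    rw [abs_le] at h4 ⊢
    rw [abs_lt] at h3
    constructor <;> linarith [h4.1, h4.2, h3.1, h3.2])
  refine ⟨L, hL, ?_⟩
  rintro ⟨t1, ht1, hpos⟩
  obtain ⟨L1, hL1, hL1pos⟩ := hlimK 1 le_rfl
  have hL10 : 0 < L1 := by
    apply hL1pos (GK_nonneg hW hκ hh le_rfl)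
    -- the point
    set n0 := ‖mm u0‖ with hn0
    have hn00 : 0 < n0 := norm_pos_iff.mpr hu0
    set u := n0⁻¹ • u0 with hu
    have hmu : mm u = n0⁻¹ ^ 3 • mm u0 := mm_smul _ _
    have hmu0 : mm u ≠ 0 := by
      rw [hmu]
      exact smul_ne_zero (by positivity) hu0
    have hnu : ‖mm u‖ = n0⁻¹ ^ 2 := by
      rw [hmu, norm_smul, norm_pow, norm_inv, Real.norm_eq_abs, abs_of_pos hn00, ← hn0]
      field_simp
    have hsu : √‖mm u‖ = n0⁻¹ := by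
      rw [hnu, Real.sqrt_sq (by positivity)]
    have hNu : 0 < N (mm u) := hH.rn.pos _ (mm_Cn hmu0)
    set s := √√(t1 / (N (mm u) * a)) with hs
    have hs4 : s ^ 4 = t1 / (N (mm u) * a) := by
      have h3 : s ^ 2 = √(t1 / (N (mm u) * a)) := Real.sq_sqrt (Real.sqrt_nonneg _)
      calc s ^ 4 = (s ^ 2) ^ 2 := by ring
        _ = √(t1 / (N (mm u) * a)) ^ 2 := by rw [h3]
        _ = _ := Real.sq_sqrt (by positivity)
    refine ⟨u, s, fun τ hτ => ?_⟩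
    simp only [GK]
    have e1 : χ ((1 * √‖mm u‖)⁻¹ • u) = χ u0 := by
      congr 1
      rw [hsu, hu, smul_smul, one_mul, inv_inv, mul_inv_cancel₀ hn00.ne', one_smul]
    have e2 : max s 0 = s := max_eq_left (Real.sqrt_nonneg _)
    have e3 : max a (min τ b) = τ := by rw [min_eq_left hτ.2, max_eq_right hτ.1]
    rw [e1, e2, e3, hs4]
    have e4 : t1 / (N (mm u) * a) * N (mm u) * τ = t1 * (τ / a) := by field_simp
    rw [e4]
    have h5 : 0 < h (t1 * (τ / a)) := by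
      apply hpos
      constructor
      · have : 1 ≤ τ / a := by rw [le_div_iff₀ ha]; linarith [hτ.1]
        nlinarith
      · have := hτ.2
        gcongr
    have h6 := ar_ge hW u hmu0
    have h7 := hW.apos
    have h8 : 0 < ar χ u := by linarith
    positivity
  obtain ⟨C, hC, hup⟩ := upper hW hH hκ hh
  have hkey : ∀ ε : ℝ, 0 < ε → 2 * L1 ≤ C * L + ε := by
    intro ε hε
    apply le_of_tendsto_of_tendsto (hL1.const_mul 2) ((hL.const_mul C).add_const ε)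
    filter_upwards [hup ε hε, eventually_gt_atTop 0] with T h3 hT
    have hT2 : 0 < T ^ 2 := by positivity
    have : 2 * (BS (GK χ κ N h a b 1) θ T / T ^ 2) ≤ C * (SU N Θ h T / T ^ 2) + ε := by
      have e1 : 2 * (BS (GK χ κ N h a b 1) θ T / T ^ 2) = (2 * BS (GK χ κ N h a b 1) θ T) / T ^ 2 := by ring
      have e2 : C * (SU N Θ h T / T ^ 2) + ε = (C * SU N Θ h T + ε * T ^ 2) / T ^ 2 := by field_simp
      rw [e1, e2]
      gcongr
    exact this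
  have h9 : 2 * L1 ≤ C * L := le_of_forall_pos_le_add hkey
  by_contra hcon
  push Not at hcon
  have : C * L ≤ 0 := mul_nonpos_of_nonneg_of_nonpos hC.le hcon
  linarith

end Pool.Agent.KS6_30.VB
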