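import Pool.Agent.KS6_30.VB.L2
import Pool.Agent.KS6_30.VB.G3

/-!
# Smooth sums over the projective line
-/

set_option autoImplicit false
set_option linter.unusedSectionVars false

namespace Pool.Agent.KS6_30.VB

open Filter Topology MeasureTheory Pool.Agent.KS6_30.VA Finset
open Pool.Agent.KS6_30.VA.Tern

variable [Tern]

/-- real functions of degree two -/
structure QF (F : ℝ × ℝ → ℝ) (m M : ℝ) : Prop where
  cts : ContinuousOn F {z | z ≠ 0}
  hom : ∀ t : ℝ, 0 < t → ∀ z : ℝ × ℝ, z ≠ 0 → F (t • z) = t ^ 2 * F z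
  mpos : 0 < m
  lo : ∀ z, m * ‖z‖ ^ 2 ≤ F z
  hi : ∀ z, F z ≤ M * ‖z‖ ^ 2

variable {F : ℝ × ℝ → ℝ} {m M : ℝ}

theorem QF.Mpos (hF : QF F m M) : 0 < M := by
  have h1 := hF.lo (1, 0)
  have h2 := hF.hi (1, 0)
  have h3 : ‖((1 : ℝ), (0 : ℝ))‖ = 1 := by simp
  rw [h3] at h1 h2
  have := hF.mpos
  linarith

theorem QF.zero (hF : QF F m M) : F 0 = 0 := by
  have h1 := hF.lo 0
  have h2 := hF.hi 0
  rw [norm_zero] at h1 h2
  norm_num at h1 h2
  linarith

theorem chi_cont (hF : QF F m M) {h : ℝ → ℝ} {h1 h2 : ℝ} (hh : Hf h h1 h2) {τ : ℝ} (hτ : 0 < τ) :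
    Continuous (fun u : ℝ × ℝ => h (F u * τ)) := by
  have hM := hF.Mpos
  have hp := hh.pos
  rw [continuous_iff_continuousAt]
  intro u
  by_cases hu : u = 0
  · subst hu
    have h3 : ∀ᶠ z : ℝ × ℝ in 𝓝 0, M * ‖z‖ ^ 2 * τ < h1 := by
      have h4 : Continuous (fun z : ℝ × ℝ => M * ‖z‖ ^ 2 * τ) := by fun_prop
      apply h4.continuousAt.eventually_lt_const
      simp
      exact hp
    have h4 : (fun u : ℝ × ℝ => h (F u * τ)) =ᶠ[𝓝 0] fun _ => 0 := by
      filter_upwards [h3] with z hz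
      by_contra hne
      have h5 := (hh.supp _ hne).1
      have h6 : F z * τ ≤ M * ‖z‖ ^ 2 * τ := by
        have := hF.hi z
        gcongr
      linarith
    rw [continuousAt_congr h4]
    exact continuousAt_const
  · apply hh.cts.continuousAt.comp
    have h3 : ContinuousAt F u := hF.cts.continuousAt (isOpen_ne.mem_nhds hu)
    exact h3.mul continuousAt_const

theorem chi_supp (hF : QF F m M) {h : ℝ → ℝ} {h1 h2 : ℝ} (hh : Hf h h1 h2) {a τ : ℝ} (ha : 0 < a)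
    (hτ : a ≤ τ) (u : ℝ × ℝ) (hu : h (F u * τ) ≠ 0) :
    F u ≤ h2 / a ∧ |u.1| ≤ √(h2 / a / m) ∧ |u.2| ≤ √(h2 / a / m) := by
  have hm := hF.mpos
  have h3 := (hh.supp _ hu).2
  have h4 := hF.lo u
  have hF0 : 0 ≤ F u := le_trans (by positivity) h4
  have h5 : F u ≤ h2 / a := by
    rw [le_div_iff₀ ha]
    calc F u * a ≤ F u * τ := by gcongr
      _ ≤ h2 := h3
  have h6 : ‖u‖ ≤ √(h2 / a / m) := by
    apply Real.le_sqrt_of_sq_le
    rw [le_div_iff₀ hm]
    linarith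
  rw [Prod.norm_def, max_le_iff] at h6
  exact ⟨h5, h6.1, h6.2⟩

theorem p1_limit (hF : QF F m M) {h : ℝ → ℝ} {h1 h2 : ℝ} (hh : Hf h h1 h2) {a b : ℝ} (ha : 0 < a)
    (θ : ℤ × ℤ → ℝ) (hθ : ∀ z : ℤ × ℤ, IsCoprime z.1 z.2 → θ z ∈ Set.Icc a b)
    (hcong : ∀ ε : ℝ, 0 < ε → ∃ Q : ℕ, 0 < Q ∧ ∀ z z' : ℤ × ℤ, IsCoprime z.1 z.2 → IsCoprime z'.1 z'.2 →
      cg Q z z' → |θ z - θ z'| ≤ ε) :
    ∃ ℓ : ℝ, Tendsto (fun T : ℝ => (∑ᶠ z ∈ {z : ℤ × ℤ | IsCoprime z.1 z.2},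
      h (F ((z.1 : ℝ) / T, (z.2 : ℝ) / T) * θ z)) / T ^ 2) atTop (𝓝 ℓ) := by
  classical
  have hab : a ≤ b := (hθ (1, 0) (isCoprime_one_left)).1.trans (hθ (1, 0) (isCoprime_one_left)).2
  set A : ℝ := √(|h2| / a / m) + 1 with hA
  have hm := hF.mpos
  have hA0 : 0 < A := by positivity
  have hsupp : ∀ τ, a ≤ τ → ∀ u : ℝ × ℝ, h (F u * τ) ≠ 0 → |u.1| ≤ A ∧ |u.2| ≤ A := by
    intro τ hτ u hu
    obtain ⟨_, h3, h4⟩ := chi_supp hF hh ha hτ u hu
    have h5 : √(h2 / a / m) ≤ √(|h2| / a / m) := by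
      apply Real.sqrt_le_sqrt
      gcongr
      exact le_abs_self _
    constructor <;> linarith
  have hcs : ∀ τ, a ≤ τ → HasCompactSupport (fun u : ℝ × ℝ => h (F u * τ)) := by
    intro τ hτ
    apply HasCompactSupport.of_support_subset_isCompact (isCompact_closedBall (0 : ℝ × ℝ) A)
    intro z hz
    rw [mem_closedBall_zero_iff, Prod.norm_def]
    exact max_le (hsupp τ hτ z hz).1 (hsupp τ hτ z hz).2
  apply exists_limit
  intro ε hε
  -- η
  set η := ε / 2 / (2 * A + 1) ^ 2 with hη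
  have hη0 : 0 < η := by positivity
  have hhcs : HasCompactSupport h := by
    apply HasCompactSupport.of_support_subset_isCompact (isCompact_Icc (a := h1) (b := h2))
    intro t ht
    exact hh.supp t ht
  have huc := hh.cts.uniformContinuous_of_tendsto_cocompact hhcs.is_zero_at_infty
  obtain ⟨δ, hδ, hδ2⟩ := Metric.uniformContinuous_iff.1 huc η hη0
  obtain ⟨Q, hQ, hQθ⟩ := hcong (δ / 2 / (|h2| / a + 1)) (by positivity)
  have hQ' : (0 : ℤ) < Q := by exact_mod_cast hQ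
  -- representatives
  set rep : ℤ × ℤ → ℝ := fun e => if hex : ∃ z : ℤ × ℤ, IsCoprime z.1 z.2 ∧ cg Q e z then θ hex.choose else a with hrep
  have hrepa : ∀ e, a ≤ rep e := by
    intro e
    simp only [hrep]
    split_ifs with hex
    · exact (hθ _ hex.choose_spec.1).1
    · exact le_rfl
  have hrepc : ∀ e z, IsCoprime z.1 z.2 → cg Q e z → |θ z - rep e| ≤ δ / 2 / (|h2| / a + 1) := by
    intro e z hz hez
    have hex : ∃ z : ℤ × ℤ, IsCoprime z.1 z.2 ∧ cg Q e z := ⟨z, hz, hez⟩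
    have e1 : rep e = θ hex.choose := by
      simp only [hrep]
      rw [dif_pos hex]
    rw [e1]
    apply hQθ _ _ hz hex.choose_spec.1
    have h3 := hex.choose_spec.2
    constructor
    · have := dvd_sub h3.1 hez.1
      simpa using this
    · have := dvd_sub h3.2 hez.2
      simpa using this
  -- the classes
  have hcls : ∀ e : ℤ × ℤ, ∃ ℓ : ℝ, Tendsto (fun r : ℝ => rs {z | IsCoprime z.1 z.2 ∧ cg Q e z}
      (fun u => h (F u * rep e)) r / r ^ 2) atTop (𝓝 ℓ) := fun e =>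
    laq _ (chi_cont hF hh (lt_of_lt_of_le ha (hrepa e))) (hcs _ (hrepa e)) Q hQ e
  choose ℓ hℓ using hcls
  set E : Finset (ℤ × ℤ) := Finset.Ico (0 : ℤ) Q ×ˢ Finset.Ico (0 : ℤ) Q with hE
  have hlim : Tendsto (fun r : ℝ => ∑ e ∈ E, rs {z | IsCoprime z.1 z.2 ∧ cg Q e z}
      (fun u => h (F u * rep e)) r / r ^ 2) atTop (𝓝 (∑ e ∈ E, ℓ e)) :=
    tendsto_finsetSum _ fun e _ => hℓ e
  refine ⟨∑ e ∈ E, ℓ e, ?_⟩
  have h3 := (Metric.tendsto_nhds.mp hlim) (ε / 2) (by positivity)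
  filter_upwards [h3, eventually_ge_atTop 1] with T h3 hT1
  have hT : 0 < T := by linarith
  rw [Real.dist_eq] at h3
  have hT2 : 0 < T ^ 2 := by positivity
  -- finite sums
  set n := ⌊A * T⌋ with hn
  have hnlt := Int.lt_floor_add_one (A * T)
  have hn0 : 0 ≤ n := Int.floor_nonneg.mpr (by positivity)
  set m' : ℤ × ℤ → ℤ × ℤ := fun z => (z.1 % Q, z.2 % Q) with hm'
  have hcgm : ∀ z, cg Q (m' z) z := fun z => ⟨Int.dvd_self_sub_emod, Int.dvd_self_sub_emod⟩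
  set Bc := (bx n).filter (fun z : ℤ × ℤ => IsCoprime z.1 z.2) with hBc
  have key : ∀ a : ℤ, |(a : ℝ) / T| ≤ A → |a| ≤ n := by
    intro a ha
    rw [hn, Int.le_floor]
    push_cast
    rw [abs_div, abs_of_pos hT, div_le_iff₀ hT] at ha
    exact ha
  have s1 : ∑ᶠ z ∈ {z : ℤ × ℤ | IsCoprime z.1 z.2}, h (F ((z.1 : ℝ) / T, (z.2 : ℝ) / T) * θ z) =
      ∑ z ∈ Bc, h (F ((z.1 : ℝ) / T, (z.2 : ℝ) / T) * θ z) := by
    rw [finsum_mem_def, finsum_eq_sum_of_support_subset (s := Bc)]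
    · apply Finset.sum_congr rfl
      intro z hz
      rw [Set.indicator_of_mem]
      exact (Finset.mem_filter.mp hz).2
    · intro z hz
      rw [Function.mem_support] at hz
      have h4 : IsCoprime z.1 z.2 := by
        by_contra hcon
        apply hz
        rw [Set.indicator_of_notMem]
        exact hcon
      rw [Set.indicator_of_mem (by exact h4)] at hz
      have h5 := hsupp _ (hθ z h4).1 _ hz
      rw [Finset.mem_coe, hBc, Finset.mem_filter, mem_bx]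
      exact ⟨⟨key _ h5.1, key _ h5.2⟩, h4⟩
  have hmaps : ∀ z ∈ Bc, m' z ∈ E := by
    intro z hz
    rw [hE, Finset.mem_product, Finset.mem_Ico, Finset.mem_Ico]
    exact ⟨⟨Int.emod_nonneg _ hQ'.ne', Int.emod_lt_of_pos _ hQ'⟩,
      ⟨Int.emod_nonneg _ hQ'.ne', Int.emod_lt_of_pos _ hQ'⟩⟩
  have s2 : ∑ e ∈ E, rs {z | IsCoprime z.1 z.2 ∧ cg Q e z} (fun u => h (F u * rep e)) T =
      ∑ z ∈ Bc, h (F ((z.1 : ℝ) / T, (z.2 : ℝ) / T) * rep (m' z)) := by
    rw [← Finset.sum_fiberwise_of_maps_to hmaps]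
    apply Finset.sum_congr rfl
    intro e he
    have h9 : rs {z | IsCoprime z.1 z.2 ∧ cg Q e z} (fun u => h (F u * rep e)) T =
        ∑ z ∈ (bx n).filter (fun z => IsCoprime z.1 z.2 ∧ cg Q e z), h (F ((z.1 : ℝ) / T, (z.2 : ℝ) / T) * rep e) := by
      have h10 := rs_eq {z | IsCoprime z.1 z.2 ∧ cg Q e z} (fun u => h (F u * rep e)) A T
        (hsupp _ (hrepa e)) hT n hnlt
      rw [h10]
      apply Finset.sum_congr _ (fun _ _ => rfl)
      ext z
      rw [Finset.mem_filter, Finset.mem_filter, Set.mem_ofPred_eq]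
    rw [h9]
    rw [hE, Finset.mem_product, Finset.mem_Ico, Finset.mem_Ico] at he
    have key2 : ∀ a b : ℤ, 0 ≤ b → b < Q → ((Q : ℤ) ∣ a - b ↔ a % Q = b) := by
      intro a b hb0 hb1
      constructor
      · intro h
        have h7 : a % Q = b % Q := Int.ModEq.symm (Int.modEq_iff_dvd.mpr h)
        rw [h7, Int.emod_eq_of_lt hb0 hb1]
      · intro h
        rw [← h]
        exact Int.dvd_self_sub_emod
    apply Finset.sum_congr
    · ext z
      rw [Finset.mem_filter, hBc, Finset.mem_filter, Finset.mem_filter]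
      constructor
      · rintro ⟨h4, h5, h6, h7⟩
        exact ⟨⟨h4, h5⟩, Prod.ext ((key2 _ _ he.1.1 he.1.2).mp h6) ((key2 _ _ he.2.1 he.2.2).mp h7)⟩
      · rintro ⟨⟨h4, h5⟩, h6⟩
        refine ⟨h4, h5, ?_⟩
        rw [← h6]
        exact hcgm z
    · intro z hz
      have h6 := (Finset.mem_filter.mp hz).2
      rw [h6]
  have hpt : ∀ z ∈ Bc, |h (F ((z.1 : ℝ) / T, (z.2 : ℝ) / T) * θ z) -
      h (F ((z.1 : ℝ) / T, (z.2 : ℝ) / T) * rep (m' z))| ≤ η := by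
    intro z hz
    have hzc := (Finset.mem_filter.mp hz).2
    set y := F ((z.1 : ℝ) / T, (z.2 : ℝ) / T) with hy
    by_cases h0 : h (y * θ z) = 0 ∧ h (y * rep (m' z)) = 0
    · rw [h0.1, h0.2, sub_zero, abs_zero]
      exact hη0.le
    · have hy2 : y ≤ |h2| / a := by
        have h5 : y ≤ h2 / a := by
          rw [not_and_or] at h0
          rcases h0 with h0 | h0
          · exact (chi_supp hF hh ha (hθ z hzc).1 _ h0).1
          · exact (chi_supp hF hh ha (hrepa _) _ h0).1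
        refine h5.trans ?_
        gcongr
        exact le_abs_self _
      have hy0 : 0 ≤ y := le_trans (by positivity) (hF.lo _)
      have h5 : dist (y * θ z) (y * rep (m' z)) < δ := by
        rw [Real.dist_eq, ← mul_sub, abs_mul, abs_of_nonneg hy0]
        calc y * |θ z - rep (m' z)| ≤ (|h2| / a + 1) * (δ / 2 / (|h2| / a + 1)) := by
              apply mul_le_mul (by linarith) (hrepc _ z hzc (hcgm z)) (abs_nonneg _) (by positivity)
          _ = δ / 2 := by field_simp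
          _ < δ := by linarith
      have h6 := hδ2 h5
      rw [Real.dist_eq] at h6
      exact h6.le
  have hcard : (Bc.card : ℝ) ≤ (2 * A + 1) ^ 2 * T ^ 2 := by
    calc (Bc.card : ℝ) ≤ ((bx n).card : ℝ) := by exact_mod_cast Finset.card_filter_le _ _
      _ = (2 * (n : ℝ) + 1) ^ 2 := bx_card n hn0
      _ ≤ (2 * (A * T) + T) ^ 2 := by
        have h1 : (n : ℝ) ≤ A * T := Int.floor_le _
        have h2 : (0 : ℝ) ≤ n := by exact_mod_cast hn0
        gcongr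
      _ = _ := by ring
  have hmain : |(∑ᶠ z ∈ {z : ℤ × ℤ | IsCoprime z.1 z.2}, h (F ((z.1 : ℝ) / T, (z.2 : ℝ) / T) * θ z)) / T ^ 2 -
      ∑ e ∈ E, rs {z | IsCoprime z.1 z.2 ∧ cg Q e z} (fun u => h (F u * rep e)) T / T ^ 2| ≤ ε / 2 := by
    rw [← Finset.sum_div, ← sub_div, abs_div, abs_of_pos hT2, div_le_iff₀ hT2, s1, s2, ← Finset.sum_sub_distrib]
    calc _ ≤ ∑ z ∈ Bc, |h (F ((z.1 : ℝ) / T, (z.2 : ℝ) / T) * θ z) -
          h (F ((z.1 : ℝ) / T, (z.2 : ℝ) / T) * rep (m' z))| := Finset.abs_sum_le_sum_abs _ _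
      _ ≤ ∑ z ∈ Bc, η := Finset.sum_le_sum hpt
      _ = Bc.card * η := by rw [Finset.sum_const, nsmul_eq_mul]
      _ ≤ ((2 * A + 1) ^ 2 * T ^ 2) * η := by gcongr
      _ = ε / 2 * T ^ 2 := by rw [hη]; field_simp
  have hmain' : |(∑ᶠ (z : ℤ × ℤ) (_ : IsCoprime z.1 z.2), h (F ((z.1 : ℝ) / T, (z.2 : ℝ) / T) * θ z)) / T ^ 2 -
      ∑ e ∈ E, rs {z | IsCoprime z.1 z.2 ∧ cg Q e z} (fun u => h (F u * rep e)) T / T ^ 2| ≤ ε / 2 := hmain
  calc _ ≤ _ := abs_sub_le _ _ _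
    _ ≤ ε / 2 + ε / 2 := add_le_add hmain' h3.le
    _ = ε := by ring

end Pool.Agent.KS6_30.VB
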