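import Pool.Agent.KS6_30.VB.L3
import Pool.Agent.KS6_30.VB.G4
import Pool.Agent.KS6_30.VA.STyp2

/-!
# The lattice of a line
-/

set_option autoImplicit false
set_option linter.unusedSectionVars false

namespace Pool.Agent.KS6_30.VB

open Filter Topology MeasureTheory Pool.Agent.KS6_30.VA Finset
open Pool.Agent.KS6_30.VA.Tern

variable [Tern]

theorem wedge_add_right {R : Type*} [CommRing R] (x y z : Fin 5 → R) :
    wedge x (y + z) = wedge x y + wedge x z := by
  funext p; simp only [wedge, Pi.add_apply]; ring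

theorem wedge_smul_right {R : Type*} [CommRing R] (a : R) (x y : Fin 5 → R) :
    wedge x (a • y) = a • wedge x y := by
  funext p; simp only [wedge, Pi.smul_apply, smul_eq_mul]; ring

theorem iso_add_right {R : Type*} [CommRing R] {x y z : Fin 5 → R} (h1 : Iso x y) (h2 : Iso x z) :
    Iso x (y + z) := by
  obtain ⟨a1, a2, a3⟩ := h1
  obtain ⟨c1, c2, c3⟩ := h2
  simp only [b0, b1, b2] at a1 a2 a3 c1 c2 c3
  refine ⟨?_, ?_, ?_⟩ <;> simp only [b0, b1, b2, Pi.add_apply]
  · linear_combination a1 + c1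
  · linear_combination a2 + c2
  · linear_combination a3 + c3

theorem iso_smul_right {R : Type*} [CommRing R] (a : R) {x y : Fin 5 → R} (h1 : Iso x y) :
    Iso x (a • y) := by
  obtain ⟨a1, a2, a3⟩ := h1
  simp only [b0, b1, b2] at a1 a2 a3
  refine ⟨?_, ?_, ?_⟩ <;> simp only [b0, b1, b2, Pi.smul_apply, smul_eq_mul]
  · linear_combination a * a1
  · linear_combination a * a2
  · linear_combination a * a3

/-- the lattice of the planes through `x` -/
def Lam (x : Fin 5 → ℤ) : Submodule ℤ (Fin 5 × Fin 5 → ℤ) where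
  carrier := {w | ∃ y : Fin 5 → ℤ, Iso x y ∧ w = wedge x y}
  add_mem' := by
    rintro _ _ ⟨y, hy, rfl⟩ ⟨z, hz, rfl⟩
    exact ⟨y + z, iso_add_right hy hz, (wedge_add_right _ _ _).symm⟩
  zero_mem' := ⟨0, by simp [Iso, b0, b1, b2], by funext p; simp [wedge]⟩
  smul_mem' := by
    rintro a _ ⟨y, hy, rfl⟩
    exact ⟨a • y, iso_smul_right a hy, (wedge_smul_right _ _ _).symm⟩

theorem mem_Lam {x : Fin 5 → ℤ} {w : Fin 5 × Fin 5 → ℤ} :
    w ∈ Lam x ↔ ∃ y : Fin 5 → ℤ, Iso x y ∧ w = wedge x y := Iff.rfl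

theorem mem_Lam_iff {x : Fin 5 → ℤ} (hx : Unimod x) (w : Fin 5 × Fin 5 → ℤ) :
    (w ∈ VV ∧ In w x) ↔ (w ∈ Lam x ∧ Unimod w) := by
  constructor
  · rintro ⟨h1, h2⟩
    obtain ⟨y, hy, hw⟩ := VV_basis h1 hx h2
    exact ⟨⟨y, hy, hw⟩, h1.1⟩
  · rintro ⟨⟨y, hy, rfl⟩, h2⟩
    refine ⟨⟨h2, x, y, hy, rfl⟩, ?_⟩
    intro i j k
    simp only [wedge]
    ring

theorem Lam_sat {x : Fin 5 → ℤ} (hx : Unimod x) {w : Fin 5 × Fin 5 → ℤ} {k : ℤ} (hk : k ≠ 0)
    (h : k • w ∈ Lam x) : w ∈ Lam x := by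
  obtain ⟨e, he⟩ := hx
  obtain ⟨y, hy, hw⟩ := h
  set y' : Fin 5 → ℤ := fun j => ∑ i, e i * w (i, j) with hy'
  set c : ℤ := ∑ i, e i * y i with hc
  have h1 : y = c • x + k • y' := by
    funext j
    simp only [Pi.add_apply, Pi.smul_apply, smul_eq_mul, hy', hc, Finset.sum_mul, Finset.mul_sum]
    have h2 : ∀ i, x i * y j - x j * y i = k * w (i, j) := by
      intro i
      have := congrFun hw (i, j)
      simp only [Pi.smul_apply, smul_eq_mul, wedge] at this
      exact this.symm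
    calc y j = (∑ i, e i * x i) * y j := by rw [he, one_mul]
      _ = ∑ i, e i * (x i * y j) := by
        rw [Finset.sum_mul]
        exact Finset.sum_congr rfl fun i _ => by ring
      _ = ∑ i, (e i * y i * x j + k * (e i * w (i, j))) := by
        refine Finset.sum_congr rfl fun i _ => ?_
        have := h2 i
        linear_combination e i * this
      _ = _ := by rw [Finset.sum_add_distrib]
  have h2 : wedge x y = k • wedge x y' := by
    rw [h1, wedge_add_right, wedge_smul_right, wedge_smul_right, wedge_self, smul_zero, zero_add]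
  have h3 : w = wedge x y' := by
    have : k • w = k • wedge x y' := by rw [hw, h2]
    exact smul_right_injective _ hk this
  have h4 : Iso x y' := by
    obtain ⟨a1, a2, a3⟩ := hy
    rw [h1] at a1 a2 a3
    simp only [b0, b1, b2, Pi.add_apply, Pi.smul_apply, smul_eq_mul] at a1 a2 a3
    refine ⟨?_, ?_, ?_⟩
    · apply (mul_eq_zero.mp (_ : k * b0 x y' = 0)).resolve_left hk
      simp only [b0]
      linear_combination a1
    · apply (mul_eq_zero.mp (_ : k * b1 x y' = 0)).resolve_left hk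
      simp only [b1]
      linear_combination a2
    · apply (mul_eq_zero.mp (_ : k * b2 x y' = 0)).resolve_left hk
      simp only [b2]
      linear_combination a3
  exact ⟨y', h4, h3⟩

theorem LL_add {R : Type*} [CommRing R] (l : Fin 3 → R) (z z' : Fin 5 → R) :
    LL l (z + z') = LL l z + LL l z' := by
  funext ⟨i, j⟩
  fin_cases i <;> fin_cases j <;> simp [LL] <;> ring

/-- three vectors of a plane -/
theorem three_dep {c : Fin 5 × Fin 5 → ℤ} (hc : Unimod c) {z0 z1 z2 : Fin 5 → ℤ} (h0 : In c z0)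
    (h1 : In c z1) (h2 : In c z2) :
    ∃ α β γ : ℤ, (α, β, γ) ≠ (0, 0, 0) ∧ α • z0 + β • z1 + γ • z2 = 0 := by
  obtain ⟨t12, ht12⟩ := wedge_in hc h1 h2
  obtain ⟨t02, ht02⟩ := wedge_in hc h0 h2
  obtain ⟨t01, ht01⟩ := wedge_in hc h0 h1
  by_cases ht : t01 = 0
  · rw [ht, zero_smul] at ht01
    by_cases hz : z0 = 0
    · exact ⟨1, 0, 0, by simp, by rw [hz]; simp⟩
    · obtain ⟨k, hk⟩ := Function.ne_iff.1 hz
      refine ⟨z1 k, -z0 k, 0, ?_, ?_⟩
      · intro h
        simp only [Prod.mk.injEq] at h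
        exact hk (by simpa using h.2.1)
      · funext i
        have := congrFun ht01 (i, k)
        simp only [wedge, Pi.zero_apply] at this
        simp only [Pi.add_apply, Pi.smul_apply, smul_eq_mul, Pi.zero_apply]
        linear_combination this
  · refine ⟨t12, -t02, t01, ?_, ?_⟩
    · intro h
      simp only [Prod.mk.injEq] at h
      exact ht h.2.2
    · obtain ⟨e, he⟩ := hc
      funext k
      simp only [Pi.add_apply, Pi.smul_apply, smul_eq_mul, Pi.zero_apply]
      have hdet : ∀ i j, z0 i * (z1 j * z2 k - z1 k * z2 j) - z0 j * (z1 i * z2 k - z1 k * z2 i) +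
          z0 k * (z1 i * z2 j - z1 j * z2 i) = 0 := by
        intro i j
        have a1 := h0 i j k
        have w1 := congrFun ht12 (j, k)
        have w2 := congrFun ht12 (i, k)
        have w3 := congrFun ht12 (i, j)
        simp only [wedge, Pi.smul_apply, smul_eq_mul] at w1 w2 w3
        rw [w1, w2, w3]
        linear_combination t12 * a1
      have hcij : ∀ p : Fin 5 × Fin 5, c p * (t12 * z0 k + -t02 * z1 k + t01 * z2 k) = 0 := by
        rintro ⟨i, j⟩
        have w1 := congrFun ht12 (i, j)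
        have w2 := congrFun ht02 (i, j)
        have w3 := congrFun ht01 (i, j)
        simp only [wedge, Pi.smul_apply, smul_eq_mul] at w1 w2 w3
        have := hdet i j
        linear_combination this - z0 k * w1 + z1 k * w2 - z2 k * w3
      calc t12 * z0 k + -t02 * z1 k + t01 * z2 k
          = (∑ p, e p * c p) * (t12 * z0 k + -t02 * z1 k + t01 * z2 k) := by rw [he, one_mul]
        _ = ∑ p, e p * (c p * (t12 * z0 k + -t02 * z1 k + t01 * z2 k)) := by
          rw [Finset.sum_mul]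
          exact Finset.sum_congr rfl fun p _ => by ring
        _ = 0 := Finset.sum_eq_zero fun p _ => by rw [hcij p, mul_zero]

theorem Lam_dep {v : Fin 3 → ℤ} (hv : Unimod v) {x : Fin 5 → ℤ} {g : ℤ} (hg : g ≠ 0)
    (hgx : pf v = g • x) {w0 w1 w2 : Fin 5 × Fin 5 → ℤ} (h0 : w0 ∈ Lam x)
    (h1 : w1 ∈ Lam x) (h2 : w2 ∈ Lam x) :
    ∃ α β γ : ℤ, (α, β, γ) ≠ (0, 0, 0) ∧ α • w0 + β • w1 + γ • w2 = 0 := by
  obtain ⟨y0, i0, rfl⟩ := h0
  obtain ⟨y1, i1, rfl⟩ := h1
  obtain ⟨y2, i2, rfl⟩ := h2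
  obtain ⟨g', c', hg', -, hc', hgc'⟩ := cst_content hv
  have hin : ∀ y : Fin 5 → ℤ, Iso x y → In c' (ml v y) := by
    intro y hy
    have h3 : Iso (pf v) y := by
      rw [hgx]
      exact iso_smul_left g hy
    have h4 := in_cst (ml_tg h3)
    rw [hgc'] at h4
    exact in_smul_left hg'.ne' h4
  obtain ⟨α, β, γ, hne, h⟩ := three_dep hc' (hin y0 i0) (hin y1 i1) (hin y2 i2)
  refine ⟨α, β, γ, hne, ?_⟩
  have h5 : g • (α • wedge x y0 + β • wedge x y1 + γ • wedge x y2) = 0 := by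
    have h6 : ∀ y : Fin 5 → ℤ, g • wedge x y = LL v (ml v y) := by
      intro y
      rw [← wedge_pf, hgx]
      funext q
      simp only [wedge, Pi.smul_apply, smul_eq_mul]
      ring
    have h7 : g • (α • wedge x y0 + β • wedge x y1 + γ • wedge x y2) =
        α • (g • wedge x y0) + β • (g • wedge x y1) + γ • (g • wedge x y2) := by
      rw [smul_add, smul_add, smul_comm g α, smul_comm g β, smul_comm g γ]
    rw [h7, h6, h6, h6, ← LL_smul, ← LL_smul, ← LL_smul, ← LL_add, ← LL_add, h, LL_zero]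
  funext q
  have h8 := congrFun h5 q
  rw [Pi.smul_apply, smul_eq_mul, Pi.zero_apply] at h8
  exact (mul_eq_zero.1 h8).resolve_left hg

/-- the rank of the lattice is at most two -/
theorem Lam_basis {v : Fin 3 → ℤ} (hv : Unimod v) {x : Fin 5 → ℤ} {g : ℤ} (hg : g ≠ 0)
    (hgx : pf v = g • x) :
    (∀ w, w ∈ Lam x → w = 0) ∨ (∃ a, ∀ w ∈ Lam x, ∃ s : ℤ, w = s • a) ∨
    (∃ a1 a2 : Fin 5 × Fin 5 → ℤ, (∀ w, w ∈ Lam x ↔ ∃ s t : ℤ, w = s • a1 + t • a2) ∧
      ∀ s t : ℤ, s • a1 + t • a2 = 0 → s = 0 ∧ t = 0) := by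
  set Λ := Lam x with hΛ
  have hfree : Module.Free ℤ Λ := inferInstance
  have hfin : Module.Finite ℤ Λ := inferInstance
  obtain ⟨n, ⟨bs⟩⟩ : ∃ n : ℕ, Nonempty (Module.Basis (Fin n) ℤ Λ) := ⟨_, ⟨Module.finBasis ℤ Λ⟩⟩
  have hn2 : n ≤ 2 := by
    by_contra hcon
    push Not at hcon
    have hli := bs.linearIndependent
    have hli3 : LinearIndependent ℤ (fun i : Fin 3 => bs (Fin.castLE (by omega) i)) :=
      hli.comp _ (Fin.castLE_injective (by omega))
    obtain ⟨α, β, γ, hne, h⟩ := Lam_dep hv hg hgx (bs (Fin.castLE (by omega) (0 : Fin 3))).2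
      (bs (Fin.castLE (by omega) (1 : Fin 3))).2 (bs (Fin.castLE (by omega) (2 : Fin 3))).2
    rw [Fintype.linearIndependent_iff] at hli3
    have h3 := hli3 ![α, β, γ] (by
      rw [Fin.sum_univ_three]
      apply Subtype.ext
      simpa using h)
    apply hne
    have e0 := h3 0
    have e1 := h3 1
    have e2 := h3 2
    simp at e0 e1 e2
    rw [e0, e1, e2]
  have hrepr : ∀ w ∈ Λ, ∃ f : Fin n → ℤ, w = ∑ i, f i • (bs i : Fin 5 × Fin 5 → ℤ) := by
    intro w hw
    refine ⟨fun i => bs.repr ⟨w, hw⟩ i, ?_⟩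
    have h1 := bs.sum_repr ⟨w, hw⟩
    have h2 : ((∑ i, (bs.repr ⟨w, hw⟩) i • bs i : Λ) : Fin 5 × Fin 5 → ℤ) = w := congrArg Subtype.val h1
    rw [Submodule.coe_sum] at h2
    exact h2.symm
  interval_cases n
  · left
    intro w hw
    obtain ⟨f, hf⟩ := hrepr w hw
    rw [hf]
    simp
  · right; left
    refine ⟨bs 0, fun w hw => ?_⟩
    obtain ⟨f, hf⟩ := hrepr w hw
    refine ⟨f 0, ?_⟩
    rw [hf]
    simp
  · right; right
    refine ⟨bs 0, bs 1, ?_, ?_⟩
    · intro w
      constructor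
      · intro hw
        obtain ⟨f, hf⟩ := hrepr w hw
        refine ⟨f 0, f 1, ?_⟩
        rw [hf, Fin.sum_univ_two]
      · rintro ⟨s, t, rfl⟩
        exact Λ.add_mem (Λ.smul_mem _ (bs 0).2) (Λ.smul_mem _ (bs 1).2)
    · intro s t h
      have hli := bs.linearIndependent
      rw [Fintype.linearIndependent_iff] at hli
      have h3 := hli ![s, t] (by
        rw [Fin.sum_univ_two]
        apply Subtype.ext
        simpa using h)
      have e0 := h3 0
      have e1 := h3 1
      simp at e0 e1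
      exact ⟨e0, e1⟩

end Pool.Agent.KS6_30.VB
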