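import Pool.Agent.KS6_30.VB.L4
import Pool.Agent.KS6_30.VB.G7

/-!
# The limit for a line
-/

set_option autoImplicit false
set_option linter.unusedSectionVars false

namespace Pool.Agent.KS6_30.VB

open Filter Topology MeasureTheory Pool.Agent.KS6_30.VA Finset
open Pool.Agent.KS6_30.VA.Tern

variable [Tern]

variable {N : (Fin 5 × Fin 5 → ℝ) → ℝ}
variable {Θ : (Fin 5 × Fin 5 → ℤ) → ℝ} {θ : (Fin 5 → ℤ) → ℝ} {a b : ℝ}

/-- uniform continuity modulo `Q` -/
def Cong (Θ : (Fin 5 × Fin 5 → ℤ) → ℝ) : Prop := ∀ ε : ℝ, 0 < ε → ∃ Q : ℕ, 0 < Q ∧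
  ∀ w ∈ VV, ∀ w' ∈ VV, (∀ p, (Q : ℤ) ∣ w p - w' p) → |Θ w - Θ w'| ≤ ε

/-- the smooth sum over the planes through a point of the cone -/
noncomputable def SV (N : (Fin 5 × Fin 5 → ℝ) → ℝ) (Θ : (Fin 5 × Fin 5 → ℤ) → ℝ) (h : ℝ → ℝ)
    (v : Fin 3 → ℤ) (T : ℝ) : ℝ :=
  ∑ᶠ w ∈ {w : Fin 5 × Fin 5 → ℤ | w ∈ VV ∧ In w (pf v)}, h (N (rv w) * Θ w / T ^ 2)

theorem prim_comb {x : Fin 5 → ℤ} (hx : Unimod x) {a1 a2 : Fin 5 × Fin 5 → ℤ}
    (hs : ∀ w, w ∈ Lam x ↔ ∃ s t : ℤ, w = s • a1 + t • a2)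
    (hi : ∀ s t : ℤ, s • a1 + t • a2 = 0 → s = 0 ∧ t = 0) (s t : ℤ) :
    Unimod (s • a1 + t • a2) ↔ IsCoprime s t := by
  constructor
  · rintro ⟨e, he⟩
    refine ⟨∑ p, e p * a1 p, ∑ p, e p * a2 p, ?_⟩
    rw [← he, Finset.sum_mul, Finset.sum_mul, ← Finset.sum_add_distrib]
    refine Finset.sum_congr rfl fun p _ => ?_
    simp only [Pi.add_apply, Pi.smul_apply, smul_eq_mul]
    ring
  · intro hst
    rw [unimod_int_iff]
    intro p hp
    by_contra hcon
    push Not at hcon
    choose w' hw' using hcon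
    have hp0 : (p : ℤ) ≠ 0 := by exact_mod_cast hp.ne_zero
    have h1 : (p : ℤ) • w' = s • a1 + t • a2 := by
      funext q
      rw [hw' q]
      simp
    have h2 : w' ∈ Lam x := by
      apply Lam_sat hx hp0
      rw [h1]
      exact (hs _).mpr ⟨s, t, rfl⟩
    obtain ⟨s', t', hw⟩ := (hs _).mp h2
    have h3 : ((p : ℤ) * s' - s) • a1 + ((p : ℤ) * t' - t) • a2 = 0 := by
      have : (p : ℤ) • (s' • a1 + t' • a2) = s • a1 + t • a2 := by rw [← hw, h1]
      rw [sub_smul, sub_smul, mul_smul, mul_smul]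
      rw [smul_add] at this
      have e : (p : ℤ) • s' • a1 - s • a1 + ((p : ℤ) • t' • a2 - t • a2) =
          ((p : ℤ) • s' • a1 + (p : ℤ) • t' • a2) - (s • a1 + t • a2) := by abel
      rw [e, this, sub_self]
    obtain ⟨h4, h5⟩ := hi _ _ h3
    have h6 : (p : ℤ) ∣ 1 := by
      obtain ⟨u, v, huv⟩ := hst
      rw [← huv]
      exact dvd_add (Dvd.dvd.mul_left ⟨s', by linarith⟩ _) (Dvd.dvd.mul_left ⟨t', by linarith⟩ _)
    have h7 := Int.natCast_dvd_natCast.1 (by simpa using h6 : (p : ℤ) ∣ ((1 : ℕ) : ℤ))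
    exact hp.one_lt.ne' (Nat.dvd_one.1 h7)

theorem SV_limit (hH : Ht N Θ θ a b) (hcong : Cong Θ) {h : ℝ → ℝ} {h1 h2 : ℝ} (hh : Hf h h1 h2)
    {v : Fin 3 → ℤ} (hv : Unimod v) :
    ∃ ℓ : ℝ, Tendsto (fun T => SV N Θ h v T / T ^ 2) atTop (𝓝 ℓ) := by
  classical
  have ha := hH.apos
  obtain ⟨g, x, hg, -, hx, hgx⟩ := pf_content hv
  have hin : ∀ w : Fin 5 × Fin 5 → ℤ, In w (pf v) ↔ In w x := by
    intro w
    rw [hgx]
    exact in_smul_iff hg.ne'
  have hset : {w : Fin 5 × Fin 5 → ℤ | w ∈ VV ∧ In w (pf v)} = {w | w ∈ Lam x ∧ Unimod w} := by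
    ext w
    rw [Set.mem_ofPred_eq, hin]
    exact mem_Lam_iff hx w
  rcases Lam_basis hv hg.ne' hgx with h0 | ⟨e, he⟩ | ⟨a1, a2, hs, hi⟩
  · refine ⟨0, ?_⟩
    have : ∀ T, SV N Θ h v T / T ^ 2 = 0 := by
      intro T
      rw [SV, hset]
      have he : {w : Fin 5 × Fin 5 → ℤ | w ∈ Lam x ∧ Unimod w} = ∅ := by
        ext w
        rw [Set.mem_ofPred_eq]
        constructor
        · rintro ⟨h3, h4⟩
          exact absurd (h0 w h3) (unimod_ne h4)
        · exact fun h => absurd h (Set.notMem_empty w)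
      rw [he, finsum_mem_empty, zero_div]
    simp only [this]
    exact tendsto_const_nhds
  · refine ⟨0, ?_⟩
    have hsub : {w : Fin 5 × Fin 5 → ℤ | w ∈ Lam x ∧ Unimod w} ⊆ {e, -e} := by
      rintro w ⟨h3, f, hf⟩
      obtain ⟨s, rfl⟩ := he w h3
      have hs1 : s ∣ 1 := by
        rw [← hf]
        refine Finset.dvd_sum fun p _ => ?_
        simp only [Pi.smul_apply, smul_eq_mul]
        exact Dvd.dvd.mul_left (dvd_mul_right _ _) _
      rcases Int.isUnit_iff.mp (isUnit_of_dvd_one hs1) with h5 | h5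
      · left
        rw [h5, one_smul]
      · right
        rw [h5, Set.mem_singleton_iff]
        simp
    have hev : ∀ w : Fin 5 × Fin 5 → ℤ, ∀ᶠ T : ℝ in atTop, h (N (rv w) * Θ w / T ^ 2) = 0 := by
      intro w
      have h3 : Tendsto (fun T : ℝ => N (rv w) * Θ w / T ^ 2) atTop (𝓝 0) :=
        Tendsto.div_atTop tendsto_const_nhds (tendsto_pow_atTop (by norm_num))
      filter_upwards [h3.eventually_lt_const hh.pos] with T hT
      by_contra hne
      have := (hh.supp _ hne).1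
      linarith
    apply tendsto_const_nhds.congr'
    filter_upwards [hev e, hev (-e)] with T ht1 ht2
    have : SV N Θ h v T = 0 := by
      rw [SV, hset]
      apply finsum_mem_eq_zero_of_forall_eq_zero
      intro w hw
      rcases hsub hw with h5 | h5
      · rw [h5]; exact ht1
      · rw [Set.mem_singleton_iff] at h5
        rw [h5]; exact ht2
    rw [this, zero_div]
  · -- the main case
    have hcomb := prim_comb hx hs hi
    have hu1 : Unimod a1 := by
      have := (hcomb 1 0).mpr isCoprime_one_left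
      simpa using this
    have hu2 : Unimod a2 := by
      have := (hcomb 0 1).mpr isCoprime_one_right
      simpa using this
    obtain ⟨p, q, hpq⟩ : ∃ p q, a1 p * a2 q - a1 q * a2 p ≠ 0 := by
      by_contra hcon
      push Not at hcon
      rcases prim_parallel' hu1 hu2 (fun i j => by have := hcon i j; linarith) with h5 | h5
      · have := hi 1 (-1) (by rw [h5]; simp)
        omega
      · have := hi 1 1 (by rw [h5]; simp)
        omega
    set D : ℝ := ((a1 p * a2 q - a1 q * a2 p : ℤ) : ℝ) with hD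
    have hD0 : 0 < |D| := abs_pos.mpr (by rw [hD]; exact_mod_cast hpq)
    obtain ⟨y1, i1, e1⟩ := mem_Lam.mp ((hs a1).mpr ⟨1, 0, by simp⟩)
    obtain ⟨y2, i2, e2⟩ := mem_Lam.mp ((hs a2).mpr ⟨0, 1, by simp⟩)
    set W : ℝ × ℝ → Fin 5 × Fin 5 → ℝ := fun z => z.1 • rv a1 + z.2 • rv a2 with hW
    set A1 : ℝ := ‖rv a1‖ + ‖rv a2‖ with hA1
    have hA1pos : 0 < A1 := by
      have h3 := one_le_nz' hu1
      have h4 : ‖rv a1‖ = nz a1 := rfl
      have h5 := norm_nonneg (rv a2)
      rw [hA1, h4]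
      linarith
    have hWup : ∀ z, ‖W z‖ ≤ A1 * ‖z‖ := by
      intro z
      have n1 : |z.1| ≤ ‖z‖ := by rw [Prod.norm_def]; exact le_max_left _ _
      have n2 : |z.2| ≤ ‖z‖ := by rw [Prod.norm_def]; exact le_max_right _ _
      calc ‖W z‖ ≤ ‖z.1 • rv a1‖ + ‖z.2 • rv a2‖ := norm_add_le _ _
        _ = |z.1| * ‖rv a1‖ + |z.2| * ‖rv a2‖ := by
          rw [norm_smul, norm_smul, Real.norm_eq_abs, Real.norm_eq_abs]
        _ ≤ ‖z‖ * ‖rv a1‖ + ‖z‖ * ‖rv a2‖ := by gcongr
        _ = _ := by rw [hA1]; ring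
    have hWlo : ∀ z, |D| * ‖z‖ ≤ 2 * A1 * ‖W z‖ := by
      intro z
      have hp : |W z p| ≤ ‖W z‖ := norm_le_pi_norm (W z) p
      have hq : |W z q| ≤ ‖W z‖ := norm_le_pi_norm (W z) q
      have c1 : ∀ r, |rv a1 r| ≤ A1 := fun r => by
        have : |rv a1 r| ≤ ‖rv a1‖ := norm_le_pi_norm (rv a1) r
        have h5 := norm_nonneg (rv a2)
        rw [hA1]; linarith
      have c2 : ∀ r, |rv a2 r| ≤ A1 := fun r => by
        have : |rv a2 r| ≤ ‖rv a2‖ := norm_le_pi_norm (rv a2) r
        have h5 := norm_nonneg (rv a1)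
        rw [hA1]; linarith
      have hDe : D = rv a1 p * rv a2 q - rv a1 q * rv a2 p := by
        rw [hD]; simp only [rv]; push_cast; ring
      have k1 : |D| * |z.1| ≤ 2 * A1 * ‖W z‖ := by
        rw [← abs_mul]
        have : D * z.1 = W z p * rv a2 q - W z q * rv a2 p := by
          rw [hDe]
          simp only [hW, Pi.add_apply, Pi.smul_apply, smul_eq_mul]
          ring
        rw [this]
        calc _ ≤ |W z p * rv a2 q| + |W z q * rv a2 p| := abs_sub _ _
          _ = |W z p| * |rv a2 q| + |W z q| * |rv a2 p| := by rw [abs_mul, abs_mul]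
          _ ≤ ‖W z‖ * A1 + ‖W z‖ * A1 := by gcongr <;> apply c2
          _ = _ := by ring
      have k2 : |D| * |z.2| ≤ 2 * A1 * ‖W z‖ := by
        rw [← abs_mul]
        have : D * z.2 = rv a1 p * W z q - rv a1 q * W z p := by
          rw [hDe]
          simp only [hW, Pi.add_apply, Pi.smul_apply, smul_eq_mul]
          ring
        rw [this]
        calc _ ≤ |rv a1 p * W z q| + |rv a1 q * W z p| := abs_sub _ _
          _ = |rv a1 p| * |W z q| + |rv a1 q| * |W z p| := by rw [abs_mul, abs_mul]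
          _ ≤ A1 * ‖W z‖ + A1 * ‖W z‖ := by gcongr <;> apply c1
          _ = _ := by ring
      rw [Prod.norm_def]
      rcases max_choice ‖z.1‖ ‖z.2‖ with h5 | h5
      · rw [h5]; exact k1
      · rw [h5]; exact k2
    have hWCn : ∀ z, z ≠ 0 → W z ∈ Cn ℝ := by
      intro z hz
      refine ⟨?_, rv x, z.1 • rv y1 + z.2 • rv y2, ?_, ?_⟩
      · intro h0
        have h5 := hWlo z
        rw [h0, norm_zero, mul_zero] at h5
        have h6 : 0 < ‖z‖ := norm_pos_iff.mpr hz
        have : 0 < |D| * ‖z‖ := by positivity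
        linarith
      · have j1 : Iso (rv x) (rv y1) := by
          obtain ⟨g0, g1, g2⟩ := i1
          simp only [b0, b1, b2] at g0 g1 g2
          refine ⟨?_, ?_, ?_⟩ <;> simp only [b0, b1, b2, rv]
          · exact_mod_cast g0
          · exact_mod_cast g1
          · exact_mod_cast g2
        have j2 : Iso (rv x) (rv y2) := by
          obtain ⟨g0, g1, g2⟩ := i2
          simp only [b0, b1, b2] at g0 g1 g2
          refine ⟨?_, ?_, ?_⟩ <;> simp only [b0, b1, b2, rv]
          · exact_mod_cast g0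
          · exact_mod_cast g1
          · exact_mod_cast g2
        exact iso_add_right (iso_smul_right _ j1) (iso_smul_right _ j2)
      · rw [wedge_add_right, wedge_smul_right, wedge_smul_right, wedge_rv, wedge_rv, ← e1, ← e2]
    obtain ⟨n0, n1, hn0, hn1, hn⟩ := hH.rn.bounds
    set F : ℝ × ℝ → ℝ := fun z => if z = 0 then 0 else N (W z) with hF
    have hWc : Continuous W := by
      simp only [hW]
      fun_prop
    have hQF : QF F (n0 * (|D| / (2 * A1)) ^ 2) (n1 * A1 ^ 2) := by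
      refine ⟨?_, ?_, by positivity, ?_, ?_⟩
      · have h5 : ContinuousOn (fun z => N (W z)) {z : ℝ × ℝ | z ≠ 0} :=
          hH.rn.cts.comp hWc.continuousOn (fun z hz => hWCn z hz)
        apply h5.congr
        intro z hz
        simp only [hF]
        rw [if_neg hz]
      · intro t ht z hz
        simp only [hF]
        rw [if_neg hz, if_neg (smul_ne_zero ht.ne' hz)]
        have h5 : W (t • z) = t • W z := by
          simp only [hW, Prod.smul_fst, Prod.smul_snd, smul_eq_mul, smul_add, smul_smul]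
        rw [h5, hH.rn.hom _ (hWCn z hz) t ht.ne', abs_of_pos ht]
      · intro z
        by_cases hz : z = 0
        · rw [hz, norm_zero]
          simp [hF]
        · simp only [hF]
          rw [if_neg hz]
          refine le_trans ?_ (hn _ (hWCn z hz)).1
          have h5 : |D| / (2 * A1) * ‖z‖ ≤ ‖W z‖ := by
            rw [div_mul_eq_mul_div, div_le_iff₀ (by positivity)]
            have := hWlo z
            linarith
          calc n0 * (|D| / (2 * A1)) ^ 2 * ‖z‖ ^ 2 = n0 * (|D| / (2 * A1) * ‖z‖) ^ 2 := by ring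
            _ ≤ n0 * ‖W z‖ ^ 2 := by gcongr
      · intro z
        by_cases hz : z = 0
        · rw [hz, norm_zero]
          simp [hF]
        · simp only [hF]
          rw [if_neg hz]
          refine (hn _ (hWCn z hz)).2.trans ?_
          calc n1 * ‖W z‖ ^ 2 ≤ n1 * (A1 * ‖z‖) ^ 2 := by gcongr; exact hWup z
            _ = _ := by ring
    set θ' : ℤ × ℤ → ℝ := fun z => Θ (z.1 • a1 + z.2 • a2) with hθ'
    have hmemV : ∀ z : ℤ × ℤ, IsCoprime z.1 z.2 → (z.1 • a1 + z.2 • a2) ∈ VV ∧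
        In (z.1 • a1 + z.2 • a2) (pf v) := by
      intro z hz
      rw [hin]
      exact (mem_Lam_iff hx _).mpr ⟨(hs _).mpr ⟨z.1, z.2, rfl⟩, (hcomb _ _).mpr hz⟩
    obtain ⟨ℓ, hℓ⟩ := p1_limit hQF hh ha θ' (fun z hz => hH.bd _ (hmemV z hz).1) (by
      intro ε hε
      obtain ⟨Q, hQ, hQc⟩ := hcong ε hε
      refine ⟨Q, hQ, fun z z' hz hz' hzz => hQc _ (hmemV z hz).1 _ (hmemV z' hz').1 fun r => ?_⟩
      obtain ⟨c1, c2⟩ := hzz
      simp only [Pi.add_apply, Pi.smul_apply, smul_eq_mul]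
      have : z.1 * a1 r + z.2 * a2 r - (z'.1 * a1 r + z'.2 * a2 r) =
          -((z'.1 - z.1) * a1 r + (z'.2 - z.2) * a2 r) := by ring
      rw [this]
      exact (dvd_neg.mpr (dvd_add (Dvd.dvd.mul_right c1 _) (Dvd.dvd.mul_right c2 _))))
    refine ⟨ℓ, hℓ.congr' ?_⟩
    filter_upwards [eventually_gt_atTop 0] with T hT
    congr 1
    rw [SV]
    apply finsum_mem_eq_of_bijOn (fun z : ℤ × ℤ => z.1 • a1 + z.2 • a2)
    · refine ⟨?_, ?_, ?_⟩
      · intro z hz
        exact hmemV z hz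
      · intro z _ z' _ heq
        simp only at heq
        have h5 := hi (z.1 - z'.1) (z.2 - z'.2) (by
          rw [sub_smul, sub_smul]
          have e : z.1 • a1 - z'.1 • a1 + (z.2 • a2 - z'.2 • a2) =
            (z.1 • a1 + z.2 • a2) - (z'.1 • a1 + z'.2 • a2) := by abel
          rw [e, heq, sub_self])
        exact Prod.ext (by linarith [h5.1]) (by linarith [h5.2])
      · intro w hw
        rw [hset] at hw
        obtain ⟨h3, h4⟩ := hw
        obtain ⟨s, t, rfl⟩ := (hs w).mp h3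
        exact ⟨(s, t), (hcomb s t).mp h4, rfl⟩
    · intro z hz
      have hz' : IsCoprime z.1 z.2 := hz
      have hz0 : ((z.1 : ℝ) / T, (z.2 : ℝ) / T) ≠ (0 : ℝ × ℝ) := by
        intro h0
        rw [Prod.mk_eq_zero] at h0
        obtain ⟨h5, h6⟩ := h0
        rw [div_eq_zero_iff] at h5 h6
        have h7 : z.1 = 0 := by
          rcases h5 with h5 | h5
          · exact_mod_cast h5
          · exact absurd h5 hT.ne'
        have h8 : z.2 = 0 := by
          rcases h6 with h6 | h6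
          · exact_mod_cast h6
          · exact absurd h6 hT.ne'
        rw [h7, h8] at hz'
        exact not_isCoprime_zero_zero hz'
      have h5 : W ((z.1 : ℝ) / T, (z.2 : ℝ) / T) = T⁻¹ • rv (z.1 • a1 + z.2 • a2) := by
        funext r
        simp only [hW, rv, Pi.add_apply, Pi.smul_apply, smul_eq_mul]
        push_cast
        ring
      simp only [hF, hθ']
      rw [if_neg hz0, h5, hH.rn.hom _ (rv_Cn (hmemV z hz').1) _ (by positivity), abs_of_pos (by positivity)]
      congr 1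
      field_simp

end Pool.Agent.KS6_30.VB
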