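import Pool.Agent.KS6_30.VB.L5
import Pool.Agent.KS6_30.VA.Ln2

/-!
# All planes, smooth weights
-/

set_option autoImplicit false
set_option linter.unusedSectionVars false

namespace Pool.Agent.KS6_30.VB

open Filter Topology MeasureTheory Pool.Agent.KS6_30.VA Finset
open Pool.Agent.KS6_30.VA.Tern

variable [Tern]

variable {N : (Fin 5 × Fin 5 → ℝ) → ℝ}
variable {Θ : (Fin 5 × Fin 5 → ℤ) → ℝ} {θ : (Fin 5 → ℤ) → ℝ} {a b : ℝ}

theorem pf_dep {v v' : Fin 3 → ℤ} (hv : Unimod v) (hv' : Unimod v') (h : wedge (pf v) (pf v') = 0) :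
    v' = v ∨ v' = -v := by
  have h0 : ml v (pf v') = 0 := by
    by_contra hne
    have h1 := nz_LL_ge v (ml v (pf v'))
    rw [← wedge_pf, h] at h1
    have h3 : nz (0 : Fin 5 × Fin 5 → ℤ) = 0 := by
      have : rv (0 : Fin 5 × Fin 5 → ℤ) = 0 := by funext p; simp [rv]
      rw [nz, this, norm_zero]
    rw [h3, mul_zero] at h1
    have h4 := one_le_nz hne
    have h5 := one_le_nz' hv
    nlinarith
  have r0 := congrFun h0 0
  have r1 := congrFun h0 1
  have r2 := congrFun h0 2
  have r3 := congrFun h0 3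
  have r4 := congrFun h0 4
  simp only [ml, pf, Matrix.cons_val_zero, Matrix.cons_val_one, Matrix.cons_val, Pi.zero_apply,
    Int.cast_id] at r0 r1 r2 r3 r4
  have ha := Tern.ha
  have hb := Tern.hb
  have hc := Tern.hc
  set c0 := v 1 * v' 2 - v 2 * v' 1 with hc0
  set c1 := v 2 * v' 0 - v 0 * v' 2 with hc1
  set c2 := v 0 * v' 1 - v 1 * v' 0 with hc2
  have k0 : v' 0 * c0 = 0 := by rw [hc0]; linear_combination r0
  have k2 : v' 2 * c2 = 0 := by rw [hc2]; linear_combination -r1
  have k1 : v' 1 * c1 = 0 := by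
    have : v' 0 * c0 + v' 1 * c1 + v' 2 * c2 = 0 := by rw [hc0, hc1, hc2]; ring
    linear_combination this - k0 - k2
  have k3 : fb * v' 1 * c2 + fc * v' 2 * c1 = 0 := by rw [hc1, hc2]; linear_combination -r2
  have k4 : fa * v' 0 * c2 + fc * v' 2 * c0 = 0 := by rw [hc0, hc2]; linear_combination r3
  have k5 : fa * v' 0 * c1 + fb * v' 1 * c0 = 0 := by rw [hc0, hc1]; linear_combination -r4
  have hz : c0 = 0 ∧ c1 = 0 ∧ c2 = 0 := by
    by_cases v0 : v' 0 = 0
    · by_cases v1 : v' 1 = 0
      · have v2 : v' 2 ≠ 0 := by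
          intro v2
          apply unimod_ne hv'
          funext i
          fin_cases i
          · exact v0
          · exact v1
          · exact v2
        refine ⟨?_, ?_, (mul_eq_zero.1 k2).resolve_left v2⟩
        · have : fc * v' 2 * c0 = 0 := by linear_combination k4 - fa * c2 * v0
          exact (mul_eq_zero.1 this).resolve_left (mul_ne_zero hc v2)
        · have : fc * v' 2 * c1 = 0 := by linear_combination k3 - fb * c2 * v1
          exact (mul_eq_zero.1 this).resolve_left (mul_ne_zero hc v2)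
      · have c1z := (mul_eq_zero.1 k1).resolve_left v1
        refine ⟨?_, c1z, ?_⟩
        · have : fb * v' 1 * c0 = 0 := by linear_combination k5 - fa * v' 0 * c1z
          exact (mul_eq_zero.1 this).resolve_left (mul_ne_zero hb v1)
        · have : fb * v' 1 * c2 = 0 := by linear_combination k3 - fc * v' 2 * c1z
          exact (mul_eq_zero.1 this).resolve_left (mul_ne_zero hb v1)
    · have c0z := (mul_eq_zero.1 k0).resolve_left v0
      refine ⟨c0z, ?_, ?_⟩
      · have : fa * v' 0 * c1 = 0 := by linear_combination k5 - fb * v' 1 * c0z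
        exact (mul_eq_zero.1 this).resolve_left (mul_ne_zero ha v0)
      · have : fa * v' 0 * c2 = 0 := by linear_combination k4 - fc * v' 2 * c0z
        exact (mul_eq_zero.1 this).resolve_left (mul_ne_zero ha v0)
  obtain ⟨z0, z1, z2⟩ := hz
  rw [hc0] at z0
  rw [hc1] at z1
  rw [hc2] at z2
  exact prim_parallel' hv hv' (fun i j => by
    fin_cases i <;> fin_cases j <;> simp only [Fin.zero_eta, Fin.mk_one, Fin.reduceFinMk] <;>
      first
      | ring1
      | linear_combination z0
      | linear_combination -z0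
      | linear_combination z1
      | linear_combination -z1
      | linear_combination z2
      | linear_combination -z2)

/-- a plane off the lines has no point of the cone -/
theorem UU_pf {w : Fin 5 × Fin 5 → ℤ} (hU : UU w) {v : Fin 3 → ℤ} (hv : Unimod v) : ¬ In w (pf v) := by
  intro hin
  obtain ⟨g, x, hg, -, hx, hgx⟩ := pf_content hv
  rw [hgx] at hin
  have h1 := (in_smul_iff hg.ne').1 hin
  apply hU x hx h1
  have h2 := mm_pf v
  rw [hgx, mm_smul] at h2
  funext q
  have h3 := congrFun h2 q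
  simp only [Pi.smul_apply, smul_eq_mul, Pi.zero_apply] at h3
  exact (mul_eq_zero.1 h3).resolve_left (pow_ne_zero 3 hg.ne')

/-- the planes with two points on the cone -/
theorem two_pts {w : Fin 5 × Fin 5 → ℤ} (hw : w ∈ VV) {v v' : Fin 3 → ℤ} (hv : Unimod v) (hv' : Unimod v')
    (h1 : In w (pf v)) (h2 : In w (pf v')) (hne : ¬ (v' = v ∨ v' = -v)) :
    nz w ≤ 2 * Pool.Agent.KS6_30.VA.KK ^ 2 * nz v ^ 2 * nz v' ^ 2 := by
  have h3 : wedge (pf v) (pf v') ≠ 0 := fun h => hne (pf_dep hv hv' h)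
  have h4 := nz_wedge_ge hw h1 h2 h3
  have h5 := nz_wedge_le (pf v) (pf v')
  have h6 := nz_pf_le v
  have h7 := nz_pf_le v'
  have h8 := nz_nonneg (pf v)
  have h9 := nz_nonneg (pf v')
  have h10 := Pool.Agent.KS6_30.VA.KK_pos
  calc nz w ≤ 2 * nz (pf v) * nz (pf v') := h4.trans h5
    _ ≤ 2 * (Pool.Agent.KS6_30.VA.KK * nz v ^ 2) * (Pool.Agent.KS6_30.VA.KK * nz v' ^ 2) := by gcongr
    _ = _ := by ring

/-- the smooth sum over all planes -/
noncomputable def SA (N : (Fin 5 × Fin 5 → ℝ) → ℝ) (Θ : (Fin 5 × Fin 5 → ℤ) → ℝ) (h : ℝ → ℝ) (T : ℝ) : ℝ :=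
  ∑ᶠ w ∈ VV, h (N (rv w) * Θ w / T ^ 2)

theorem SA_eq (h : ℝ → ℝ) (T X : ℝ) (hhX : ∀ w ∈ VV, h (N (rv w) * Θ w / T ^ 2) ≠ 0 → nz w ≤ X) :
    SA N Θ h T = ∑ w ∈ Wf X, h (N (rv w) * Θ w / T ^ 2) := by
  rw [SA, ← finsum_mem_coe_finset]
  apply finsum_mem_inter_support_eq'
  intro w hw
  rw [Finset.mem_coe, mem_Wf]
  constructor
  · intro h1
    exact ⟨h1, hhX w h1 hw⟩
  · rintro ⟨h1, _⟩
    exact h1

open Classical in
theorem SV_eq (h : ℝ → ℝ) (v : Fin 3 → ℤ) (T X : ℝ)
    (hhX : ∀ w ∈ VV, h (N (rv w) * Θ w / T ^ 2) ≠ 0 → nz w ≤ X) :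
    SV N Θ h v T = ∑ w ∈ Wf X, if In w (pf v) then h (N (rv w) * Θ w / T ^ 2) else 0 := by
  rw [SV, ← Finset.sum_filter, ← finsum_mem_coe_finset]
  apply finsum_mem_inter_support_eq'
  intro w hw
  rw [Finset.mem_coe, Finset.mem_filter, mem_Wf, Set.mem_ofPred_eq]
  constructor
  · rintro ⟨h1, h2⟩
    exact ⟨⟨h1, hhX w h1 hw⟩, h2⟩
  · rintro ⟨⟨h1, _⟩, h2⟩
    exact ⟨h1, h2⟩

theorem unimod_neg' {ι : Type*} [Fintype ι] {v : ι → ℤ} (hv : Unimod v) : Unimod (-v) := by
  obtain ⟨e, he⟩ := hv
  exact ⟨-e, by simpa using he⟩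

theorem pf_neg' (v : Fin 3 → ℤ) : pf (-v) = pf v := by
  have := pf_smul (-1 : ℤ) v
  simpa using this

set_option maxHeartbeats 2000000 in
theorem SA_limit (hH : Ht N Θ θ a b) (hcong : Cong Θ) (P : Finset ℕ) (hP : ∀ p ∈ P, p.Prime)
    (hadm : Adm P θ) {h : ℝ → ℝ} {h1 h2 : ℝ} (hh : Hf h h1 h2) :
    ∃ L : ℝ, Tendsto (fun T => SA N Θ h T / T ^ 2) atTop (𝓝 L) ∧
      ((∃ t1 : ℝ, 0 < t1 ∧ ∀ t ∈ Set.Icc t1 (t1 * (b / a)), 0 < h t) → 0 < L) := by
  classical
  have hKS : 0 < KS := lt_of_lt_of_le one_pos KS_one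
  have hKK := Pool.Agent.KS6_30.VA.KK_pos
  obtain ⟨c, hc, hcX⟩ := exists_X hH hh
  obtain ⟨M, hM, hhM⟩ := hh.bdd
  obtain ⟨C, hC, hPS⟩ := PS_card
  obtain ⟨LU, hLU, hLUpos⟩ := SU_limit hH P hP hadm hh
  choose ℓ hℓ using fun v : {v : Fin 3 → ℤ // Unimod v} => SV_limit hH hcong hh v.2
  have hex := exists_limit (fun T => SA N Θ h T / T ^ 2) (by
    intro ε hε
    -- the parameters
    obtain ⟨N0, hN0⟩ := exists_nat_gt (max 1 (M * C * c ^ 2 / (ε / 8)))
    have hN01 : (1 : ℝ) < N0 := (le_max_left _ _).trans_lt hN0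
    have hN0' : 1 ≤ N0 := by exact_mod_cast hN01.le
    have hN02 : M * C * c ^ 2 / N0 ≤ ε / 8 := by
      have := (le_max_right 1 (M * C * c ^ 2 / (ε / 8))).trans hN0.le
      rw [div_le_iff₀ (by positivity)] at this ⊢
      linarith
    set F : Finset (Fin 3 → ℤ) := (nz_fin (ι := Fin 3) (N0 : ℝ)).toFinset.filter (fun v => Unimod v) with hF
    have hmemF : ∀ v, v ∈ F ↔ nz v ≤ N0 ∧ Unimod v := by
      intro v
      rw [hF, Finset.mem_filter, Set.Finite.mem_toFinset]
      rfl
    set X0 : ℝ := 2 * Pool.Agent.KS6_30.VA.KK ^ 2 * (N0 : ℝ) ^ 2 * (N0 : ℝ) ^ 2 with hX0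
    set ℓ' : (Fin 3 → ℤ) → ℝ := fun v => if hv : Unimod v then ℓ ⟨v, hv⟩ else 0 with hℓ'
    have hlim : Tendsto (fun T => SU N Θ h T / T ^ 2 + (1 / 2) * ∑ v ∈ F, SV N Θ h v T / T ^ 2) atTop
        (𝓝 (LU + (1 / 2) * ∑ v ∈ F, ℓ' v)) := by
      apply hLU.add
      apply Tendsto.const_mul
      apply tendsto_finsetSum
      intro v hv
      have hv' := ((hmemF v).mp hv).2
      simp only [hℓ']
      rw [dif_pos hv']
      exact hℓ ⟨v, hv'⟩
    refine ⟨LU + (1 / 2) * ∑ v ∈ F, ℓ' v, ?_⟩
    have hclose := (Metric.tendsto_nhds.mp hlim) (ε / 4) (by positivity)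
    set D := M * ((1 + F.card) * (Wf X0).card) with hD
    have hD0 : 0 ≤ D := by positivity
    -- growth conditions
    have g1 : ∀ᶠ T : ℝ in atTop, D ≤ ε / 4 * T ^ 2 := by
      have : Tendsto (fun T : ℝ => ε / 4 * T ^ 2) atTop atTop :=
        (tendsto_pow_atTop (by norm_num)).const_mul_atTop (by positivity)
      exact this.eventually_ge_atTop D
    have g2 : ∀ᶠ T : ℝ in atTop, 1 ≤ KS * (c * T) := by
      have : Tendsto (fun T : ℝ => KS * (c * T)) atTop atTop :=
        (tendsto_id.const_mul_atTop hc).const_mul_atTop hKS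
      exact this.eventually_ge_atTop 1
    have g3 : ∀ᶠ T : ℝ in atTop, M * C * 8 * (KS * c) * √(KS * c) / (ε / 8) ≤ √T := by
      have : Tendsto (fun T : ℝ => √T) atTop atTop := Real.tendsto_sqrt_atTop
      exact this.eventually_ge_atTop _
    filter_upwards [hclose, g1, g2, g3, eventually_gt_atTop 0] with T hclose g1 g2 g3 hT
    have hT2 : 0 < T ^ 2 := by positivity
    set X := c * T with hX
    have hX0' : 0 < X := by positivity
    have hhX := hcX T hT
    set N1 : ℕ := ⌈√(KS * X)⌉₊ with hN1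
    have hN1a : √(KS * X) ≤ N1 := Nat.le_ceil _
    have hN1b : (N1 : ℝ) ≤ 2 * √(KS * X) := by
      have h3 := Nat.ceil_lt_add_one (Real.sqrt_nonneg (KS * X))
      have h4 : 1 ≤ √(KS * X) := Real.one_le_sqrt.mpr g2
      rw [← hN1] at h3
      linarith
    have hN13 : M * (C * (N1 : ℝ) ^ 3) ≤ ε / 8 * T ^ 2 := by
      have e1 : √(KS * X) = √(KS * c) * √T := by
        rw [hX, ← mul_assoc, Real.sqrt_mul (by positivity)]
      have e2 : √(KS * c) ^ 2 = KS * c := Real.sq_sqrt (by positivity)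
      have e3 : √T ^ 2 = T := Real.sq_sqrt hT.le
      have hsT : 0 < √T := Real.sqrt_pos.mpr hT
      calc M * (C * (N1 : ℝ) ^ 3) ≤ M * (C * (2 * √(KS * X)) ^ 3) := by gcongr
        _ = (M * C * 8 * (√(KS * c) ^ 2) * √(KS * c)) * (√T ^ 2 * √T) := by rw [e1]; ring
        _ = (M * C * 8 * (KS * c) * √(KS * c)) * (T * √T) := by rw [e2, e3]
        _ ≤ (√T * (ε / 8)) * (T * √T) := by
          rw [div_le_iff₀ (by positivity)] at g3
          exact mul_le_mul_of_nonneg_right g3 (by positivity)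
        _ = ε / 8 * (T * √T ^ 2) := by ring
        _ = _ := by rw [e3]; ring
    rw [SA_eq h T X hhX]
    rw [SU_eq h T X hhX, Finset.sum_filter] at hclose
    have hSV : ∀ v ∈ F, SV N Θ h v T / T ^ 2 =
        (∑ w ∈ Wf X, if In w (pf v) then h (N (rv w) * Θ w / T ^ 2) else 0) / T ^ 2 := by
      intro v _
      rw [SV_eq h v T X hhX]
    rw [Finset.sum_congr rfl hSV, ← Finset.sum_div, Finset.sum_comm] at hclose
    set hw : (Fin 5 × Fin 5 → ℤ) → ℝ := fun w => h (N (rv w) * Θ w / T ^ 2) with hhw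
    have hw0 : ∀ w, 0 ≤ hw w := fun w => hh.nonneg _
    have hwM : ∀ w, hw w ≤ M := fun w => hhM _
    have hcount : ∀ w, (∑ v ∈ F, if In w (pf v) then hw w else 0) =
        ((F.filter fun v => In w (pf v)).card : ℝ) * hw w := by
      intro w
      rw [← Finset.sum_filter, Finset.sum_const, nsmul_eq_mul]
    have hPSf : (PS N0 N1 X).Finite := (planes_finite X).subset fun w hw => ⟨hw.1, hw.2.1⟩
    have hpt : ∀ w ∈ Wf X, |hw w - ((if UU w then hw w else 0) +
        (1 / 2) * ∑ v ∈ F, if In w (pf v) then hw w else 0)| ≤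
        M * ((if w ∈ PS N0 N1 X then 1 else 0) + (if w ∈ Wf X0 then (1 + (F.card : ℝ)) else 0)) := by
      intro w hwW
      obtain ⟨hwV, hwX⟩ := (mem_Wf X w).mp hwW
      rw [hcount w]
      have hk1 : (0 : ℝ) ≤ (if w ∈ PS N0 N1 X then (1 : ℝ) else 0) := by split_ifs <;> norm_num
      have hk2 : (0 : ℝ) ≤ (if w ∈ Wf X0 then (1 + (F.card : ℝ)) else 0) := by split_ifs <;> positivity
      by_cases hU : UU w
      · have h0 : (F.filter fun v => In w (pf v)) = ∅ := by
          rw [Finset.filter_eq_empty_iff]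
          intro v hv hin
          exact UU_pf hU ((hmemF v).mp hv).2 hin
        rw [h0, if_pos hU, Finset.card_empty, Nat.cast_zero, zero_mul, mul_zero, add_zero, sub_self, abs_zero]
        positivity
      · rw [if_neg hU, zero_add]
        rcases Finset.eq_empty_or_nonempty (F.filter fun v => In w (pf v)) with h0 | ⟨v, hv⟩
        · rw [h0, Finset.card_empty, Nat.cast_zero, zero_mul, mul_zero, sub_zero, abs_of_nonneg (hw0 w)]
          obtain ⟨v, hv, hin, hle⟩ := exists_small hwV hU
          have hvF : ¬ nz v ≤ N0 := by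
            intro hle'
            have : v ∈ F.filter fun v => In w (pf v) := Finset.mem_filter.mpr ⟨(hmemF v).mpr ⟨hle', hv⟩, hin⟩
            rw [h0] at this
            exact absurd this (Finset.notMem_empty v)
          push Not at hvF
          have hPw : w ∈ PS N0 N1 X := by
            refine ⟨hwV, hwX, v, hv, hin, hvF.le, ?_⟩
            refine le_trans ?_ hN1a
            apply Real.le_sqrt_of_sq_le
            exact hle.trans (mul_le_mul_of_nonneg_left hwX hKS.le)
          rw [if_pos hPw]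
          have := hwM w
          nlinarith
        · rw [Finset.mem_filter] at hv
          obtain ⟨hvF, hin⟩ := hv
          obtain ⟨hvN, hvu⟩ := (hmemF v).mp hvF
          by_cases hall : ∀ v' ∈ F, In w (pf v') → v' = v ∨ v' = -v
          · have hset : (F.filter fun v => In w (pf v)) = {v, -v} := by
              ext v'
              rw [Finset.mem_filter, Finset.mem_insert, Finset.mem_singleton]
              constructor
              · rintro ⟨k1, k2⟩
                exact hall v' k1 k2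
              · rintro (rfl | rfl)
                · exact ⟨hvF, hin⟩
                · refine ⟨(hmemF _).mpr ⟨by rw [nz_eq_neg]; exact hvN, unimod_neg' hvu⟩, ?_⟩
                  rw [pf_neg']
                  exact hin
            have hvne : v ≠ -v := by
              intro he
              apply unimod_ne hvu
              funext i
              have := congrFun he i
              simp only [Pi.neg_apply, Pi.zero_apply] at this ⊢
              omega
            rw [hset, Finset.card_pair hvne]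
            have : hw w - 1 / 2 * (((2 : ℕ) : ℝ) * hw w) = 0 := by push_cast; ring
            rw [this, abs_zero]
            positivity
          · push Not at hall
            obtain ⟨v', hv'F, hin', hne1, hne2⟩ := hall
            obtain ⟨hvN', hvu'⟩ := (hmemF v').mp hv'F
            have h5 := two_pts hwV hvu hvu' hin hin' (by push Not; exact ⟨hne1, hne2⟩)
            have h6 : nz w ≤ X0 := by
              refine h5.trans ?_
              have := nz_nonneg v
              have := nz_nonneg v'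
              rw [hX0]
              gcongr
            rw [if_pos ((mem_Wf X0 w).mpr ⟨hwV, h6⟩)]
            have h7 : ((F.filter fun v => In w (pf v)).card : ℝ) ≤ F.card := by
              exact_mod_cast Finset.card_filter_le _ _
            have h8 : (0 : ℝ) ≤ ((F.filter fun v => In w (pf v)).card : ℝ) := by positivity
            have h9 := hw0 w
            have h10 := hwM w
            set k := ((F.filter fun v => In w (pf v)).card : ℝ)
            have h11 : |hw w - 1 / 2 * (k * hw w)| ≤ hw w * (1 + k) := by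
              have hy := mul_nonneg h8 h9
              have he : hw w * (1 + k) = hw w + k * hw w := by ring
              rw [he, abs_le]
              constructor <;> linarith
            refine h11.trans ?_
            have h12 : hw w * (1 + k) ≤ M * (1 + F.card) := by gcongr
            exact h12.trans (mul_le_mul_of_nonneg_left (le_add_of_nonneg_left hk1) hM.le)
    have hsum : |(∑ w ∈ Wf X, hw w) - ((∑ w ∈ Wf X, if UU w then hw w else 0) +
        (1 / 2) * ∑ w ∈ Wf X, ∑ v ∈ F, if In w (pf v) then hw w else 0)| ≤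
        M * (C * (X ^ 2 / N0 + N1 ^ 3)) + D := by
      rw [Finset.mul_sum, ← Finset.sum_add_distrib, ← Finset.sum_sub_distrib]
      refine (Finset.abs_sum_le_sum_abs _ _).trans ?_
      refine (Finset.sum_le_sum hpt).trans ?_
      rw [← Finset.mul_sum, Finset.sum_add_distrib, mul_add]
      have k1 : (∑ w ∈ Wf X, if w ∈ PS N0 N1 X then (1 : ℝ) else 0) ≤ C * (X ^ 2 / N0 + N1 ^ 3) := by
        refine le_trans ?_ (hPS N0 N1 X hN0' hX0')
        rw [← Finset.sum_filter, Finset.sum_const, nsmul_eq_mul, mul_one]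
        have h3 : (((Wf X).filter (fun w => w ∈ PS N0 N1 X) : Finset _) : Set (Fin 5 × Fin 5 → ℤ)) ⊆
            PS N0 N1 X := by
          intro w hw
          rw [Finset.mem_coe, Finset.mem_filter] at hw
          exact hw.2
        have h4 := Set.ncard_le_ncard h3 hPSf
        rw [Set.ncard_coe_finset] at h4
        exact_mod_cast h4
      have k2 : (∑ w ∈ Wf X, if w ∈ Wf X0 then (1 + (F.card : ℝ)) else 0) ≤ (1 + F.card) * (Wf X0).card := by
        rw [← Finset.sum_filter, Finset.sum_const, nsmul_eq_mul, mul_comm]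
        gcongr
        intro w hw
        rw [Finset.mem_filter] at hw
        exact hw.2
      rw [hD]
      gcongr
    rw [Real.dist_eq] at hclose
    have hdiv : |(∑ w ∈ Wf X, hw w) / T ^ 2 - ((∑ w ∈ Wf X, if UU w then hw w else 0) / T ^ 2 +
        (1 / 2) * ((∑ w ∈ Wf X, ∑ v ∈ F, if In w (pf v) then hw w else 0) / T ^ 2))| ≤ ε / 2 := by
      have e1 : (∑ w ∈ Wf X, hw w) / T ^ 2 - ((∑ w ∈ Wf X, if UU w then hw w else 0) / T ^ 2 +
          (1 / 2) * ((∑ w ∈ Wf X, ∑ v ∈ F, if In w (pf v) then hw w else 0) / T ^ 2)) =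
          ((∑ w ∈ Wf X, hw w) - ((∑ w ∈ Wf X, if UU w then hw w else 0) +
          (1 / 2) * ∑ w ∈ Wf X, ∑ v ∈ F, if In w (pf v) then hw w else 0)) / T ^ 2 := by ring
      rw [e1, abs_div, abs_of_pos hT2, div_le_iff₀ hT2]
      refine hsum.trans ?_
      have e2 : M * (C * (X ^ 2 / N0 + N1 ^ 3)) = (M * C * c ^ 2 / N0) * T ^ 2 + M * (C * (N1 : ℝ) ^ 3) := by
        rw [hX]; ring
      rw [e2]
      have e3 : (M * C * c ^ 2 / N0) * T ^ 2 ≤ ε / 8 * T ^ 2 := by gcongr
      linarith
    rw [abs_le] at hdiv ⊢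
    rw [abs_lt] at hclose
    constructor <;> linarith [hdiv.1, hdiv.2, hclose.1, hclose.2])
  obtain ⟨L, hL⟩ := hex
  refine ⟨L, hL, fun hcond => ?_⟩
  refine (hLUpos hcond).trans_le ?_
  apply le_of_tendsto_of_tendsto hLU hL
  filter_upwards [eventually_gt_atTop 0] with T hT
  have hhX := hcX T hT
  rw [SA_eq h T _ hhX, SU_eq h T _ hhX]
  apply div_le_div_of_nonneg_right _ (by positivity)
  apply Finset.sum_le_sum_of_subset_of_nonneg (Finset.filter_subset _ _)
  intro w _ _
  exact hh.nonneg _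

end Pool.Agent.KS6_30.VB
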