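import Pool.Agent.KS6_30.VB.L7
import Pool.Agent.KS6_30.VA.Fin

/-!
# All points of bounded height
-/

set_option autoImplicit false
set_option linter.unusedSectionVars false

namespace Pool.Agent.KS6_30.VB

open Filter Topology Pool.Agent.KS6_30.VA Finset
open Pool.Agent.KS6_30.VA.Tern

variable [Tern]

local instance instFactPrimes3 (p : Nat.Primes) : Fact (p : ℕ).Prime := ⟨p.2⟩

theorem fac_cong {p : Nat.Primes} {φ : (Fin 5 × Fin 5 → ℚ_[p]) → ℝ} (h : Fac ℚ_[p] φ) {ε : ℝ}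
    (hε : 0 < ε) : ∃ Q : ℕ, 0 < Q ∧ ∀ w ∈ VV, ∀ w' ∈ VV, (∀ q, (Q : ℤ) ∣ w q - w' q) →
      |φ (pv p w) - φ (pv p w')| ≤ ε := by
  have hp0 : (0 : ℝ) < (p : ℕ) := by exact_mod_cast p.2.pos
  have hp1 : (1 : ℝ) < (p : ℕ) := by exact_mod_cast p.2.one_lt
  set K : Set (Fin 5 × Fin 5 → ℚ_[p]) :=
    (fun z : (Fin 5 → ℚ_[p]) × (Fin 5 → ℚ_[p]) => wedge z.1 z.2) '' (Pool.Agent.KS6_30.VA.KI ℚ_[p]) with hK
  have hKc : IsCompact K := (Pool.Agent.KS6_30.VA.KI_compact).image wedge_cts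
  have hKs : K ⊆ Cone ℚ_[p] := by
    rintro _ ⟨z, hz, rfl⟩
    exact KI_cone hz
  have hu := hKc.uniformContinuousOn_of_continuous (h.cts.mono hKs)
  rw [Metric.uniformContinuousOn_iff] at hu
  obtain ⟨δ, hδ, hu⟩ := hu ε hε
  obtain ⟨m, hm⟩ : ∃ m : ℕ, ((p : ℕ) : ℝ) ^ (-(m : ℤ)) < δ := by
    obtain ⟨m, hm⟩ := exists_pow_lt_of_lt_one hδ (inv_lt_one_of_one_lt₀ hp1)
    exact ⟨m, by rwa [zpow_neg, zpow_natCast, ← inv_pow]⟩
  have hmem : ∀ w ∈ VV, pv p w ∈ K := by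
    rintro w ⟨⟨e, he⟩, x, y, hi, hxy⟩
    refine ⟨(pv p x, pv p y), ⟨pv_norm_le p x, pv_norm_le p y, ?_, iso_pv p hi⟩, ?_⟩
    · simp only
      rw [← pv_wedge, ← hxy]
      apply le_antisymm (pv_norm_le p w)
      by_contra hcon
      push Not at hcon
      have h1 : ∀ q, (p : ℤ) ∣ w q := by
        intro q
        have h2 : ‖((w q : ℤ) : ℚ_[p])‖ < 1 := lt_of_le_of_lt (norm_le_pi_norm (pv p w) q) hcon
        exact (Padic.norm_intCast_lt_one_iff (k := w q)).mp h2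
      have h3 : (p : ℤ) ∣ 1 := by
        rw [← he]
        exact Finset.dvd_sum fun q _ => Dvd.dvd.mul_left (h1 q) _
      have h7 := Int.natCast_dvd_natCast.1 (by simpa using h3 : ((p : ℕ) : ℤ) ∣ ((1 : ℕ) : ℤ))
      exact p.2.one_lt.ne' (Nat.dvd_one.1 h7)
    · simp only
      rw [← pv_wedge, ← hxy]
  refine ⟨(p : ℕ) ^ m, pow_pos p.2.pos _, fun w hw w' hw' hd => ?_⟩
  have h1 := hu (pv p w) (hmem w hw) (pv p w') (hmem w' hw') (by
    rw [dist_eq_norm]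
    refine lt_of_le_of_lt ?_ hm
    rw [pi_norm_le_iff_of_nonneg (zpow_pos hp0 _).le]
    intro i
    have h1 : (pv p w - pv p w') i = (((w i - w' i : ℤ)) : ℚ_[p]) := by
      simp [pv]
    rw [h1, Padic.norm_int_le_pow_iff_dvd]
    exact_mod_cast hd i)
  rw [Real.dist_eq] at h1
  exact h1.le

theorem prod_cong' (S : Finset Nat.Primes) (φ : ∀ p : Nat.Primes, (Fin 5 × Fin 5 → ℚ_[p]) → ℝ)
    (hφ : ∀ p ∈ S, Fac ℚ_[p] (φ p)) : Cong (fun w => ∏ r ∈ S, φ r (pv r w)) := by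
  classical
  have hbd : ∀ p : Nat.Primes, ∃ b : ℝ, 1 ≤ b ∧ (p ∈ S → ∀ w ∈ VV, |φ p (pv p w)| ≤ b) := by
    intro p
    by_cases hp : p ∈ S
    · obtain ⟨a, b, h1, h2, h3, h4, h5⟩ := fx_bounds (hφ p hp)
      refine ⟨b, h3, fun _ w hw => ?_⟩
      have := h5 w hw
      rw [abs_of_nonneg (h1.le.trans this.1)]
      exact this.2
    · exact ⟨1, le_rfl, fun h => absurd h hp⟩
  choose B hB1 hB using hbd
  have key : ∀ S' : Finset Nat.Primes, S' ⊆ S → ∀ ε : ℝ, 0 < ε → ∃ Q : ℕ, 0 < Q ∧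
      ∀ w ∈ VV, ∀ w' ∈ VV, (∀ q, (Q : ℤ) ∣ w q - w' q) →
        |∏ r ∈ S', φ r (pv r w) - ∏ r ∈ S', φ r (pv r w')| ≤ ε := by
    intro S'
    induction S' using Finset.induction_on with
    | empty =>
      intro _ ε hε
      exact ⟨1, one_pos, fun x _ x' _ _ => by simpa using hε.le⟩
    | insert p S' hp ih =>
      intro hS ε hε
      have hpS : p ∈ S := hS (Finset.mem_insert_self _ _)
      have hS' : S' ⊆ S := fun q hq => hS (Finset.mem_insert_of_mem hq)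
      have hM : ∀ w ∈ VV, |∏ q ∈ S', φ q (pv q w)| ≤ ∏ q ∈ S', B q := by
        intro w hw
        rw [Finset.abs_prod]
        exact Finset.prod_le_prod (fun q _ => abs_nonneg _) fun q hq => hB q (hS' hq) w hw
      have hMp : 0 < ∏ q ∈ S', B q := Finset.prod_pos fun q _ => by linarith [hB1 q]
      set M := ∏ q ∈ S', B q with hMdef
      have hBp : 0 < B p := by linarith [hB1 p]
      obtain ⟨Q1, hQ1, h1⟩ := fac_cong (hφ p hpS) (ε := ε / (2 * M)) (by positivity)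
      obtain ⟨Q2, hQ2, h2⟩ := ih hS' (ε / (2 * B p)) (by positivity)
      refine ⟨Q1 * Q2, Nat.mul_pos hQ1 hQ2, fun w hw w' hw' hd => ?_⟩
      have d1 := h1 w hw w' hw' (fun i => (Int.natCast_dvd_natCast.2 (Nat.dvd_mul_right Q1 Q2)).trans (hd i))
      have d2 := h2 w hw w' hw' (fun i => (Int.natCast_dvd_natCast.2 (Nat.dvd_mul_left Q2 Q1)).trans (hd i))
      rw [Finset.prod_insert hp, Finset.prod_insert hp]
      have e : φ p (pv p w) * ∏ q ∈ S', φ q (pv q w) - φ p (pv p w') * ∏ q ∈ S', φ q (pv q w') =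
          (φ p (pv p w) - φ p (pv p w')) * ∏ q ∈ S', φ q (pv q w) +
          φ p (pv p w') * (∏ q ∈ S', φ q (pv q w) - ∏ q ∈ S', φ q (pv q w')) := by ring
      rw [e]
      refine (abs_add_le _ _).trans ?_
      rw [abs_mul, abs_mul]
      have f1 : |φ p (pv p w) - φ p (pv p w')| * |∏ q ∈ S', φ q (pv q w)| ≤ ε / (2 * M) * M :=
        mul_le_mul d1 (hM w hw) (abs_nonneg _) (by positivity)
      have f3 : |φ p (pv p w')| * |∏ q ∈ S', φ q (pv q w) - ∏ q ∈ S', φ q (pv q w')| ≤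
          B p * (ε / (2 * B p)) := mul_le_mul (hB p hpS w' hw') d2 (abs_nonneg _) hBp.le
      have f4 : ε / (2 * M) * M = ε / 2 := by
        field_simp
      have f5 : B p * (ε / (2 * B p)) = ε / 2 := by
        field_simp
      linarith
  exact key S (Finset.Subset.refl S)

/-- all points of bounded height -/
def bddA (S : Finset Nat.Primes) (ψ : (Fin 5 × Fin 5 → ℝ) → ℝ)
    (φ : ∀ p : Nat.Primes, (Fin 5 × Fin 5 → ℚ_[p]) → ℝ) (B : ℝ) : Set PP :=
  {p | Pt p ∧ ht S ψ φ p ≤ B}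

/-- the real norm -/
noncomputable def Nr (ψ : (Fin 5 × Fin 5 → ℝ) → ℝ) (q : Fin 5 × Fin 5 → ℝ) : ℝ := ‖q‖ ^ 2 * ψ q

theorem Nr_RN {ψ : (Fin 5 × Fin 5 → ℝ) → ℝ} (h : Fac ℝ ψ) : RN (Nr ψ) := by
  refine ⟨?_, ?_, ?_⟩
  · exact (continuous_norm.pow 2).continuousOn.mul h.cts
  · intro w hw
    have := h.pos w hw
    have h0 : 0 < ‖w‖ := norm_pos_iff.mpr hw.1
    rw [Nr]
    positivity
  · intro w hw t ht
    rw [Nr, Nr, h.inv t ht w hw, norm_smul, Real.norm_eq_abs]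
    ring

theorem main_all (S : Finset Nat.Primes) (ψ : (Fin 5 × Fin 5 → ℝ) → ℝ)
    (φ : ∀ p : Nat.Primes, (Fin 5 × Fin 5 → ℚ_[p]) → ℝ) (hψ : Fac ℝ ψ)
    (hφ : ∀ p ∈ S, Fac ℚ_[p] (φ p)) :
    ∃ c : ℝ, 0 < c ∧ Tendsto (fun B : ℝ => ((bddA S ψ φ B).ncard : ℝ) / B) atTop (𝓝 c) := by
  classical
  obtain ⟨a, b, θ, ha, hθI, hΘ, hθ, hadm⟩ := finite_part S φ hφ
  obtain ⟨a', b', ha', hψb⟩ := hψ.bounds
  set Θ : (Fin 5 × Fin 5 → ℤ) → ℝ := fun w => ∏ r ∈ S, φ r (pv r w) with hΘd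
  have hab : a ≤ b := (hθI 0).1.trans (hθI 0).2
  have hHt : Ht (Nr ψ) Θ θ a b := by
    refine ⟨Nr_RN hψ, ha, hab, hΘ, hθI, fun w hw => ?_, fun w hw x _ hx hm => hθ w hw x hx hm⟩
    simp only [hΘd]
    refine Finset.prod_congr rfl fun r hr => ?_
    have h1 : pv r (-w) = (-1 : ℚ_[r]) • pv r w := by
      funext q
      simp [pv]
    rw [h1]
    exact (hφ r hr).inv _ (by norm_num) _ (pv_cone r hw)
  obtain ⟨L, hL, hlim⟩ := NA_limit hHt (prod_cong' S φ hφ) (S.image fun p : Nat.Primes => (p : ℕ)) (by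
      intro p hp
      obtain ⟨q, -, rfl⟩ := Finset.mem_image.1 hp
      exact q.2) hadm
  -- the heights
  have hgt_eq : ∀ w : Fin 5 × Fin 5 → ℤ, Nr ψ (rv w) * Θ w = hgt ψ Θ w := by
    intro w
    rw [Nr, hgt]
    simp only [nz]
  -- two vectors for every point
  have hcard : ∀ B : ℝ, 0 ≤ B → ({w : Fin 5 × Fin 5 → ℤ | w ∈ VV ∧ Nr ψ (rv w) * Θ w ≤ B}).ncard =
      2 * (bddA S ψ φ B).ncard := by
    intro B hB
    set M : Set (Fin 5 × Fin 5 → ℤ) := {w | w ∈ VV ∧ Nr ψ (rv w) * Θ w ≤ B} with hM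
    have hfin : M.Finite := by
      obtain ⟨m, hm, hmH⟩ := nz_le_of_height hHt
      refine (planes_finite (√(B / m))).subset ?_
      rintro w ⟨h1, h2⟩
      refine ⟨h1, ?_⟩
      apply Real.le_sqrt_of_sq_le
      rw [le_div_iff₀ hm]
      have := hmH w h1
      linarith
    have hex : ∀ p : PP, ∃ w : Fin 5 × Fin 5 → ℤ, Pt p → w ∈ VV ∧ RR w p := by
      intro p
      by_cases hp : Pt p
      · obtain ⟨w, h1, h2⟩ := R1 hp
        exact ⟨w, fun _ => ⟨h1, h2⟩⟩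
      · exact ⟨0, fun h => absurd h hp⟩
    choose g hg using hex
    have hgN : ∀ p ∈ bddA S ψ φ B, g p ∈ M := by
      rintro p ⟨h1, h3⟩
      obtain ⟨g1, g2⟩ := hg p h1
      refine ⟨g1, ?_⟩
      rwa [hgt_eq, ← R6 g1 g2 S hψ hφ]
    have hneg : ∀ w ∈ VV, ∀ p, RR w p → RR (-w) p := by
      rintro w - p ⟨c, hc, he⟩
      refine ⟨-c, neg_ne_zero.2 hc, ?_⟩
      rw [he]
      funext q
      simp [cw]
    have hNneg : ∀ w ∈ M, -w ∈ M := by
      rintro w ⟨h1, h3⟩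
      obtain ⟨p, hp, -⟩ := R4 h1
      have h4 := VV_neg h1
      have h5 := hneg w h1 p hp
      refine ⟨h4, ?_⟩
      rw [hgt_eq, ← R6 h4 h5 S hψ hφ, R6 h1 hp S hψ hφ, ← hgt_eq]
      exact h3
    have hbN : ∀ w ∈ M, ∀ p, RR w p → Pt p → p ∈ bddA S ψ φ B := by
      rintro w ⟨h1, h3⟩ p hp hpt
      refine ⟨hpt, ?_⟩
      rw [R6 h1 hp S hψ hφ, ← hgt_eq]
      exact h3
    have hU : M = g '' bddA S ψ φ B ∪ (fun p => -g p) '' bddA S ψ φ B := by
      ext w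
      constructor
      · intro hw
        obtain ⟨p, hp, hpt⟩ := R4 hw.1
        have hpb := hbN w hw p hp hpt
        obtain ⟨g1, g2⟩ := hg p hpt
        rcases R3 g1 hw.1 g2 hp with h | h
        · exact Or.inl ⟨p, hpb, h.symm⟩
        · exact Or.inr ⟨p, hpb, h.symm⟩
      · rintro (⟨p, hp, rfl⟩ | ⟨p, hp, rfl⟩)
        · exact hgN p hp
        · exact hNneg _ (hgN p hp)
    have hinj : Set.InjOn g (bddA S ψ φ B) := by
      intro p hp p' hp' he
      have h1 := (hg p hp.1).2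
      have h2 := (hg p' hp'.1).2
      rw [← he] at h2
      exact R2 h1 h2
    have hinj2 : Set.InjOn (fun p => -g p) (bddA S ψ φ B) := fun p hp p' hp' he =>
      hinj hp hp' (neg_injective he)
    have hdis : Disjoint (g '' bddA S ψ φ B) ((fun p => -g p) '' bddA S ψ φ B) := by
      rw [Set.disjoint_left]
      rintro _ ⟨p, hp, rfl⟩ ⟨p', hp', he⟩
      simp only at he
      have h1 := (hg p hp.1).2
      have h2 := hneg _ (hg p' hp'.1).1 _ (hg p' hp'.1).2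
      rw [he] at h2
      have h3 := R2 h1 h2
      rw [← h3] at he
      have h4 : g p = 0 := by
        funext q
        have := congrFun he q
        simp only [Pi.neg_apply, Pi.zero_apply] at this ⊢
        omega
      exact VV_ne (hg p hp.1).1 h4
    have hf1 : (g '' bddA S ψ φ B).Finite := hfin.subset (by rw [hU]; exact Set.subset_union_left)
    have hf2 : ((fun p => -g p) '' bddA S ψ φ B).Finite :=
      hfin.subset (by rw [hU]; exact Set.subset_union_right)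
    rw [hU, Set.ncard_union_eq hdis hf1 hf2, Set.InjOn.ncard_image hinj,
      Set.InjOn.ncard_image hinj2, two_mul]
  refine ⟨L / 2, by positivity, ?_⟩
  have h1 := (hlim.comp Real.tendsto_sqrt_atTop).div_const 2
  refine h1.congr' ?_
  filter_upwards [eventually_gt_atTop 0] with B hB
  simp only [Function.comp, NA]
  rw [Real.sq_sqrt hB.le, hcard B hB.le]
  push_cast
  field_simp

end Pool.Agent.KS6_30.VB
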