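import Pool.Agent.KS6_30.VB.L8

/-!
# The points on no rational line
-/

set_option autoImplicit false
set_option linter.unusedSectionVars false

namespace Pool.Agent.KS6_30.VB

open Filter Topology Pool.Agent.KS6_30.VA Finset
open Pool.Agent.KS6_30.VA.Tern

variable [Tern]

local instance instFactPrimes4 (p : Nat.Primes) : Fact (p : ℕ).Prime := ⟨p.2⟩

/-- the point is on a rational line -/
def OnL (p : PP) : Prop := ∃ a b c : Fin 5 → ℚ, LinearIndependent ℚ ![a, b, c] ∧ Iso a b ∧ Iso a c ∧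
  p.rep = wedge a b

theorem indep_iff {a b c : Fin 5 → ℚ} (h : LinearIndependent ℚ ![a, b, c]) (r s t : ℚ)
    (h0 : r • a + s • b + t • c = 0) : r = 0 ∧ s = 0 ∧ t = 0 := by
  rw [Fintype.linearIndependent_iff] at h
  have h1 := h ![r, s, t] (by
    rw [Fin.sum_univ_three]
    simpa using h0)
  exact ⟨by simpa using h1 0, by simpa using h1 1, by simpa using h1 2⟩

theorem indep_of {a b c : Fin 5 → ℚ}
    (h : ∀ r s t : ℚ, r • a + s • b + t • c = 0 → r = 0 ∧ s = 0 ∧ t = 0) :
    LinearIndependent ℚ ![a, b, c] := by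
  rw [Fintype.linearIndependent_iff]
  intro g hg
  rw [Fin.sum_univ_three] at hg
  obtain ⟨h0, h1, h2⟩ := h (g 0) (g 1) (g 2) (by simpa using hg)
  intro i
  fin_cases i
  · exact h0
  · exact h1
  · exact h2

/-- the base point of a pencil is on the cone -/
theorem pencil_mm {a b c : Fin 5 → ℚ} (h : LinearIndependent ℚ ![a, b, c]) (hab : Iso a b)
    (hac : Iso a c) : mm a = 0 := by
  by_contra hm
  have hu := unimod_of_ne hm
  obtain ⟨r, s, h1⟩ := (in_wedge_iff (x := a) (y := hes a) hu).1 (in_mm hab)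
  obtain ⟨r', s', h2⟩ := (in_wedge_iff (x := a) (y := hes a) hu).1 (in_mm hac)
  obtain ⟨-, e1, e2⟩ := indep_iff h (s * r' - r * s') s' (-s) (by
    rw [h1, h2]
    funext i
    simp only [Pi.add_apply, Pi.smul_apply, smul_eq_mul, Pi.zero_apply]
    ring)
  have e3 : s = 0 := by linarith
  obtain ⟨-, e4, -⟩ := indep_iff h (-r) 1 0 (by
    rw [h1, e3]
    funext i
    simp only [Pi.add_apply, Pi.smul_apply, smul_eq_mul, Pi.zero_apply]
    ring)
  exact one_ne_zero e4

/-- the linear map of the three forms -/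
def fm (x : Fin 5 → ℚ) : (Fin 5 → ℚ) →ₗ[ℚ] (Fin 3 → ℚ) where
  toFun y := ![b0 x y, b1 x y, b2 x y]
  map_add' y z := by
    funext i
    fin_cases i <;> simp [b0, b1, b2] <;> ring
  map_smul' c y := by
    funext i
    fin_cases i <;> simp [b0, b1, b2] <;> ring

/-- the space orthogonal to a point of the cone has dimension at least 3 -/
theorem perp_out {l : Fin 3 → ℚ} (hl : l ≠ 0) (x y : Fin 5 → ℚ) :
    ∃ c, Iso (pf l) c ∧ ∀ r s : ℚ, c ≠ r • x + s • y := by
  have hrel : ∀ z, l 0 * fm (pf l) z 0 + l 1 * fm (pf l) z 1 + l 2 * fm (pf l) z 2 = 0 := by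
    intro z
    simp only [fm, LinearMap.coe_mk, AddHom.coe_mk, Matrix.cons_val, b0, b1, b2, pf]
    ring
  have hr : LinearMap.range (fm (pf l)) ≠ ⊤ := by
    intro h
    obtain ⟨i, hi⟩ := Function.ne_iff.1 hl
    have h1 : (Pi.single i 1 : Fin 3 → ℚ) ∈ LinearMap.range (fm (pf l)) := by
      rw [h]
      trivial
    obtain ⟨z, hz⟩ := h1
    have h2 := hrel z
    rw [hz] at h2
    apply hi
    rw [Pi.zero_apply]
    fin_cases i <;> simpa using h2
  have h1 := Submodule.finrank_lt hr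
  have h2 := LinearMap.finrank_range_add_finrank_ker (fm (pf l))
  rw [Module.finrank_fin_fun] at h1 h2
  have h3 : ¬ LinearMap.ker (fm (pf l)) ≤ Submodule.span ℚ {x, y} := by
    intro hle
    have h4 := Submodule.finrank_mono hle
    have h5 : Module.finrank ℚ (Submodule.span ℚ ({x, y} : Set (Fin 5 → ℚ))) ≤ 2 := by
      classical
      have := finrank_span_finset_le_card (R := ℚ) ({x, y} : Finset (Fin 5 → ℚ))
      rw [Set.finrank, Finset.coe_insert, Finset.coe_singleton] at this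
      exact this.trans Finset.card_le_two
    omega
  obtain ⟨c, hc, hcn⟩ := Set.not_subset.1 h3
  refine ⟨c, ?_, fun r s h => hcn ?_⟩
  · have h4 : fm (pf l) c = 0 := hc
    exact ⟨congrFun h4 0, congrFun h4 1, congrFun h4 2⟩
  · rw [h]
    exact Submodule.mem_span_pair.2 ⟨r, s, rfl⟩

theorem cw_pf (v : Fin 3 → ℤ) : cw (pf v) = pf (cw v) := by
  funext i
  fin_cases i <;> simp [cw, pf]

theorem R5 {w : Fin 5 × Fin 5 → ℤ} (hw : w ∈ VV) {p : PP} (h : RR w p) : OnL p ↔ ¬ UU w := by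
  obtain ⟨c, hc, he⟩ := h
  constructor
  · rintro ⟨a, b, d, hli, hab, had, hp⟩ hU
    have hm := pencil_mm hli hab had
    have ha : a ≠ 0 := by
      rintro rfl
      obtain ⟨h1, -, -⟩ := indep_iff hli 1 0 0 (by simp)
      exact one_ne_zero h1
    obtain ⟨e, x, he0, hx, hex⟩ := exists_cw ha
    have hin : In w x := by
      rw [← in_cw]
      refine in_smul' hc he0 ?_
      rw [← he, ← hex, hp]
      exact wedge_in_left a b
    refine hU x hx hin ?_
    rw [hex, mm_smul, ← cw_mm] at hm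
    have h1 : cw (mm x) = 0 := (smul_eq_zero.1 hm).resolve_left (pow_ne_zero 3 he0)
    rw [← cw_zero] at h1
    exact cw_inj h1
  · intro hU
    simp only [UU] at hU
    push Not at hU
    obtain ⟨x, hx, hin, hm⟩ := hU
    obtain ⟨y, hi, hwy⟩ := VV_basis hw hx hin
    obtain ⟨v, hv, k, hk0, -, hxv⟩ := cone_pf hx hm
    have hv0 : cw v ≠ 0 := by
      intro h0
      rw [← cw_zero] at h0
      exact unimod_ne hv (cw_inj h0)
    obtain ⟨d, hd, hk⟩ := perp_out hv0 (cw x) (cw y)
    have hk0' : (k : ℚ) ≠ 0 := by exact_mod_cast hk0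
    have hpx : cw x = (k : ℚ)⁻¹ • pf (cw v) := by
      rw [← cw_pf, hxv, cw_smul, smul_smul, inv_mul_cancel₀ hk0', one_smul]
    have hiso : Iso (cw x) d := by
      rw [hpx]
      exact iso_smul_left _ hd
    have hwne : wedge (cw x) (cw y) ≠ 0 := by
      rw [← cw_wedge, ← hwy]
      intro h0
      rw [← cw_zero] at h0
      exact VV_ne hw (cw_inj h0)
    refine ⟨cw x, c • cw y, d, indep_of fun r s t h0 => ?_,
      iso_comm (iso_smul_left _ (iso_comm (iso_cw.2 hi))), hiso, ?_⟩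
    · have ht : t = 0 := by
        by_contra ht
        apply hk (-(r / t)) (-(s * c / t))
        funext i
        have := congrFun h0 i
        simp only [Pi.add_apply, Pi.smul_apply, smul_eq_mul, Pi.zero_apply] at this ⊢
        field_simp
        linear_combination this
      rw [ht] at h0
      obtain ⟨q, hq⟩ := Function.ne_iff.1 hwne
      rw [Pi.zero_apply] at hq
      have a1 := congrFun h0 q.1
      have a2 := congrFun h0 q.2
      simp only [Pi.add_apply, Pi.smul_apply, smul_eq_mul, Pi.zero_apply] at a1 a2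
      refine ⟨?_, ?_, ht⟩
      · have : r * wedge (cw x) (cw y) q = 0 := by
          simp only [wedge]
          linear_combination (cw y q.2) * a1 - (cw y q.1) * a2
        exact (mul_eq_zero.1 this).resolve_right hq
      · have : (s * c) * wedge (cw x) (cw y) q = 0 := by
          simp only [wedge]
          linear_combination (cw x q.1) * a2 - (cw x q.2) * a1
        have h3 := (mul_eq_zero.1 this).resolve_right hq
        exact (mul_eq_zero.1 h3).resolve_right hc
    · rw [he, hwy, cw_wedge]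
      funext q
      simp only [wedge, Pi.smul_apply, smul_eq_mul]
      ring

/-- the points of bounded height on no rational line -/
def bddU (S : Finset Nat.Primes) (ψ : (Fin 5 × Fin 5 → ℝ) → ℝ)
    (φ : ∀ p : Nat.Primes, (Fin 5 × Fin 5 → ℚ_[p]) → ℝ) (B : ℝ) : Set PP :=
  {p | (Pt p ∧ ¬ OnL p) ∧ ht S ψ φ p ≤ B}

theorem main_U (S : Finset Nat.Primes) (ψ : (Fin 5 × Fin 5 → ℝ) → ℝ)
    (φ : ∀ p : Nat.Primes, (Fin 5 × Fin 5 → ℚ_[p]) → ℝ) (hψ : Fac ℝ ψ)
    (hφ : ∀ p ∈ S, Fac ℚ_[p] (φ p)) :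
    ∃ c : ℝ, 0 < c ∧ Tendsto (fun B : ℝ => ((bddU S ψ φ B).ncard : ℝ) / B) atTop (𝓝 c) := by
  classical
  obtain ⟨a, b, θ, ha, hθI, hΘ, hθ, hadm⟩ := finite_part S φ hφ
  obtain ⟨a', b', ha', hψb⟩ := hψ.bounds
  set Θ : (Fin 5 × Fin 5 → ℤ) → ℝ := fun w => ∏ r ∈ S, φ r (pv r w) with hΘd
  have hab : a ≤ b := (hθI 0).1.trans (hθI 0).2
  have hHt : Ht (Nr ψ) Θ θ a b := by
    refine ⟨Nr_RN hψ, ha, hab, hΘ, hθI, fun w hw => ?_, fun w hw x _ hx hm => hθ w hw x hx hm⟩
    simp only [hΘd]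
    refine Finset.prod_congr rfl fun r hr => ?_
    have h1 : pv r (-w) = (-1 : ℚ_[r]) • pv r w := by
      funext q
      simp [pv]
    rw [h1]
    exact (hφ r hr).inv _ (by norm_num) _ (pv_cone r hw)
  obtain ⟨L, hL, hlim⟩ := NU_limit hHt (S.image fun p : Nat.Primes => (p : ℕ)) (by
      intro p hp
      obtain ⟨q, -, rfl⟩ := Finset.mem_image.1 hp
      exact q.2) hadm
  -- the heights
  have hgt_eq : ∀ w : Fin 5 × Fin 5 → ℤ, Nr ψ (rv w) * Θ w = hgt ψ Θ w := by
    intro w
    rw [Nr, hgt]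
    simp only [nz]
  -- two vectors for every point
  have hcard : ∀ B : ℝ, 0 ≤ B → ({w : Fin 5 × Fin 5 → ℤ | w ∈ VV ∧ UU w ∧ Nr ψ (rv w) * Θ w ≤ B}).ncard =
      2 * (bddU S ψ φ B).ncard := by
    intro B hB
    set M : Set (Fin 5 × Fin 5 → ℤ) := {w | w ∈ VV ∧ UU w ∧ Nr ψ (rv w) * Θ w ≤ B} with hM
    have hfin : M.Finite := by
      obtain ⟨m, hm, hmH⟩ := nz_le_of_height hHt
      refine (planes_finite (√(B / m))).subset ?_
      rintro w ⟨h1, -, h2⟩
      refine ⟨h1, ?_⟩
      apply Real.le_sqrt_of_sq_le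
      rw [le_div_iff₀ hm]
      have := hmH w h1
      linarith
    have hex : ∀ p : PP, ∃ w : Fin 5 × Fin 5 → ℤ, Pt p → w ∈ VV ∧ RR w p := by
      intro p
      by_cases hp : Pt p
      · obtain ⟨w, h1, h2⟩ := R1 hp
        exact ⟨w, fun _ => ⟨h1, h2⟩⟩
      · exact ⟨0, fun h => absurd h hp⟩
    choose g hg using hex
    have hgN : ∀ p ∈ bddU S ψ φ B, g p ∈ M := by
      rintro p ⟨⟨h1, h2⟩, h3⟩
      obtain ⟨g1, g2⟩ := hg p h1
      refine ⟨g1, by_contra fun hc => h2 ((R5 g1 g2).2 hc), ?_⟩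
      rwa [hgt_eq, ← R6 g1 g2 S hψ hφ]
    have hneg : ∀ w ∈ VV, ∀ p, RR w p → RR (-w) p := by
      rintro w - p ⟨c, hc, he⟩
      refine ⟨-c, neg_ne_zero.2 hc, ?_⟩
      rw [he]
      funext q
      simp [cw]
    have hNneg : ∀ w ∈ M, -w ∈ M := by
      rintro w ⟨h1, h2, h3⟩
      obtain ⟨p, hp, -⟩ := R4 h1
      have h4 := VV_neg h1
      have h5 := hneg w h1 p hp
      refine ⟨h4, by_contra fun hc => (R5 h1 hp).1 ((R5 h4 h5).2 hc) h2, ?_⟩
      rw [hgt_eq, ← R6 h4 h5 S hψ hφ, R6 h1 hp S hψ hφ, ← hgt_eq]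
      exact h3
    have hbN : ∀ w ∈ M, ∀ p, RR w p → Pt p → p ∈ bddU S ψ φ B := by
      rintro w ⟨h1, h2, h3⟩ p hp hpt
      refine ⟨⟨hpt, fun hc => (R5 h1 hp).1 hc h2⟩, ?_⟩
      rw [R6 h1 hp S hψ hφ, ← hgt_eq]
      exact h3
    have hU : M = g '' bddU S ψ φ B ∪ (fun p => -g p) '' bddU S ψ φ B := by
      ext w
      constructor
      · intro hw
        obtain ⟨p, hp, hpt⟩ := R4 hw.1
        have hpb := hbN w hw p hp hpt
        obtain ⟨g1, g2⟩ := hg p hpt
        rcases R3 g1 hw.1 g2 hp with h | h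
        · exact Or.inl ⟨p, hpb, h.symm⟩
        · exact Or.inr ⟨p, hpb, h.symm⟩
      · rintro (⟨p, hp, rfl⟩ | ⟨p, hp, rfl⟩)
        · exact hgN p hp
        · exact hNneg _ (hgN p hp)
    have hinj : Set.InjOn g (bddU S ψ φ B) := by
      intro p hp p' hp' he
      have h1 := (hg p hp.1.1).2
      have h2 := (hg p' hp'.1.1).2
      rw [← he] at h2
      exact R2 h1 h2
    have hinj2 : Set.InjOn (fun p => -g p) (bddU S ψ φ B) := fun p hp p' hp' he =>
      hinj hp hp' (neg_injective he)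
    have hdis : Disjoint (g '' bddU S ψ φ B) ((fun p => -g p) '' bddU S ψ φ B) := by
      rw [Set.disjoint_left]
      rintro _ ⟨p, hp, rfl⟩ ⟨p', hp', he⟩
      simp only at he
      have h1 := (hg p hp.1.1).2
      have h2 := hneg _ (hg p' hp'.1.1).1 _ (hg p' hp'.1.1).2
      rw [he] at h2
      have h3 := R2 h1 h2
      rw [← h3] at he
      have h4 : g p = 0 := by
        funext q
        have := congrFun he q
        simp only [Pi.neg_apply, Pi.zero_apply] at this ⊢
        omega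
      exact VV_ne (hg p hp.1.1).1 h4
    have hf1 : (g '' bddU S ψ φ B).Finite := hfin.subset (by rw [hU]; exact Set.subset_union_left)
    have hf2 : ((fun p => -g p) '' bddU S ψ φ B).Finite :=
      hfin.subset (by rw [hU]; exact Set.subset_union_right)
    rw [hU, Set.ncard_union_eq hdis hf1 hf2, Set.InjOn.ncard_image hinj,
      Set.InjOn.ncard_image hinj2, two_mul]
  refine ⟨L / 2, by positivity, ?_⟩
  have h1 := (hlim.comp Real.tendsto_sqrt_atTop).div_const 2
  refine h1.congr' ?_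
  filter_upwards [eventually_gt_atTop 0] with B hB
  simp only [Function.comp, NU]
  rw [Real.sq_sqrt hB.le, hcard B hB.le]
  push_cast
  field_simp

end Pool.Agent.KS6_30.VB
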